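import Pool.Agent.H43.TP.CBD

/-!
# A satisfiable instance gives a bad pair

Given `y`. Put `X = {K r} ∪ {c o | ¬ y o} ∪ {b o j | y o}` and
`Y = {t} ∪ {g o | y o} ∪ {l o o' | conf o o' = false ∨ ¬ y o} ∪ {r o o' | conf o o' = false ∨ ¬ y o'}`.
No edges between `Y` and `X`: `g o ~ c o` only (besides `G`'s, not in `X`): `y o` versus `¬ y o`;
`l o o' ~ b o o'` needs `conf o o'`, so `¬ y o`; `r o o' ~ b o' o` needs `conf`, so `¬ y o'`; `t` only has the
neighbour `G (m + N * N)`; `al`'s are not in `Y`.
First walk (vertices of the `β`-side in `X`): by induction on `r ≤ N`, `K r` is reachable from `K 0`: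
`K o → al o 0 → c o → al o N → K (o+1)` if `¬ y o`; if `y o`: `K o → al o 0 → b o 0 → al o 1 → b o 1 → ... →
al o N → K (o+1)` (inner induction on `i ≤ N`: `al o i` is reachable). Finally `K N → al N 0 = z`.
Second walk: by induction on `c ≤ m + N * N`, `G c` is reachable from `G 0`: for `c < m` take
`o < N` with `grp o = c`, `y o`: `G c → g o → G (c+1)`; for `c = m + (o * N + o')` (`o = (c-m) / N`,
`o' = (c-m) % N`): `G c → l o o' → G (c+1)` if `l o o' ∈ Y`, and otherwise `conf o o'` and `y o`, so `¬ y o'` and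
`G c → r o o' → G (c+1)`. Finally `G (m + N * N) → t`.
-/

set_option autoImplicit false

namespace Pool.Agent.H43.TP

/-- The set `X` of the proof. -/
private def cbaX (N m : ℕ) (y : ℕ → Prop) : Set (BT N m) :=
  {b | match b.1 with
    | .K _ => True
    | .c o => ¬ y o
    | .b o _ => y o
    | .G _ => False}

/-- The set `Y` of the proof. -/
private def cbaY (N : ℕ) (conf : ℕ → ℕ → Bool) (y : ℕ → Prop) : Set (AT N) :=
  {a | match a.1 with
    | .al _ _ => False
    | .g o => y o
    | .l o o' => conf o o' = false ∨ ¬ y o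
    | .r o o' => conf o o' = false ∨ ¬ y o'
    | .t => True}

private theorem cba_noEdge (N m : ℕ) (grp : ℕ → ℕ) (conf : ℕ → ℕ → Bool) (y : ℕ → Prop) :
    ∀ a ∈ cbaY N conf y, ∀ b ∈ cbaX N m y, ¬ RT N m grp conf a b := by
  rintro ⟨a, ha⟩ hY ⟨b, hb⟩ hX hE
  unfold RT at hE
  cases a with
  | al o i => exact hY
  | g o =>
    cases b with
    | K r => exact hE
    | b o' j => exact hE
    | c o' =>
      have h1 : o' = o := hE
      have h2 : y o := hY
      have h3 : ¬ y o' := hX
      rw [h1] at h3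
      exact h3 h2
    | G j => exact hX
  | l o o' =>
    cases b with
    | K r => exact hE
    | b o₁ j =>
      have h1 : conf o o' = true ∧ o₁ = o ∧ j = o' := hE
      have h2 : conf o o' = false ∨ ¬ y o := hY
      have h3 : y o₁ := hX
      rcases h2 with h2 | h2
      · rw [h1.1] at h2; exact Bool.noConfusion h2
      · rw [h1.2.1] at h3; exact h2 h3
    | c o' => exact hE
    | G j => exact hX
  | r o o' =>
    cases b with
    | K r => exact hE
    | b o₁ j =>
      have h1 : conf o o' = true ∧ o₁ = o' ∧ j = o := hE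
      have h2 : conf o o' = false ∨ ¬ y o' := hY
      have h3 : y o₁ := hX
      rcases h2 with h2 | h2
      · rw [h1.1] at h2; exact Bool.noConfusion h2
      · rw [h1.2.1] at h3; exact h2 h3
    | c o' => exact hE
    | G j => exact hX
  | t =>
    cases b with
    | K r => exact hE
    | b o' j => exact hE
    | c o' => exact hE
    | G j => exact hX

private theorem cba_first (N m : ℕ) (grp : ℕ → ℕ) (conf : ℕ → ℕ → Bool) (y : ℕ → Prop) :
    ∀ r, ∀ hr : r ≤ N,
      Relation.ReflTransGen (Step (RT N m grp conf) (cbaX N m y) Set.univ)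
        (.inr (tmS N m)) (.inr ⟨.K r, hr⟩) := by
  intro r
  induction r with
  | zero => intro hr; exact Relation.ReflTransGen.refl
  | succ r ih =>
    intro hr
    have hrN : r < N := hr
    have h0 := ih (by omega)
    -- to `al r 0`
    have h1 : Relation.ReflTransGen (Step (RT N m grp conf) (cbaX N m y) Set.univ)
        (.inr (tmS N m)) (.inl ⟨.al r 0, Or.inl ⟨hrN, Nat.zero_le _⟩⟩) :=
      h0.tail ⟨Or.inl ⟨rfl, rfl⟩, Set.mem_univ _⟩
    -- to `al r N`
    have h2 : Relation.ReflTransGen (Step (RT N m grp conf) (cbaX N m y) Set.univ)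
        (.inr (tmS N m)) (.inl ⟨.al r N, Or.inl ⟨hrN, le_rfl⟩⟩) := by
      by_cases hy : y r
      · have key : ∀ i, ∀ hi : i ≤ N,
            Relation.ReflTransGen (Step (RT N m grp conf) (cbaX N m y) Set.univ)
              (.inr (tmS N m)) (.inl ⟨.al r i, Or.inl ⟨hrN, hi⟩⟩) := by
          intro i
          induction i with
          | zero => intro _; exact h1
          | succ i ihi =>
            intro hi
            have hiN : i < N := hi
            have h3 := ihi (by omega)
            have h4 : Relation.ReflTransGen (Step (RT N m grp conf) (cbaX N m y) Set.univ)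
                (.inr (tmS N m)) (.inr ⟨.b r i, ⟨hrN, hiN⟩⟩) :=
              h3.tail ⟨⟨rfl, Or.inl rfl⟩, hy⟩
            exact h4.tail ⟨⟨rfl, Or.inr rfl⟩, Set.mem_univ _⟩
        exact key N le_rfl
      · have h4 : Relation.ReflTransGen (Step (RT N m grp conf) (cbaX N m y) Set.univ)
            (.inr (tmS N m)) (.inr ⟨.c r, hrN⟩) :=
          h1.tail ⟨rfl, hy⟩
        exact h4.tail ⟨rfl, Set.mem_univ _⟩
    exact h2.tail ⟨Or.inr ⟨rfl, rfl⟩, trivial⟩

private theorem cba_second (N m : ℕ) (grp : ℕ → ℕ) (conf : ℕ → ℕ → Bool) (y : ℕ → Prop)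
    (hy1 : ∀ i < m, ∃ o < N, grp o = i ∧ y o)
    (hy2 : ∀ o < N, ∀ o' < N, conf o o' = true → ¬ (y o ∧ y o')) :
    ∀ c, ∀ hc : c ≤ m + N * N,
      Relation.ReflTransGen (Step (RT N m grp conf) Set.univ (cbaY N conf y))
        (.inr (tmS' N m)) (.inr ⟨.G c, hc⟩) := by
  intro c
  induction c with
  | zero => intro hc; exact Relation.ReflTransGen.refl
  | succ c ih =>
    intro hc
    have h0 := ih (by omega)
    by_cases hcm : c < m
    · obtain ⟨o, ho, hgo, hyo⟩ := hy1 c hcm
      have h1 : Relation.ReflTransGen (Step (RT N m grp conf) Set.univ (cbaY N conf y))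
          (.inr (tmS' N m)) (.inl ⟨.g o, ho⟩) :=
        h0.tail ⟨Or.inl hgo.symm, hyo⟩
      exact h1.tail ⟨Or.inr (by rw [hgo]), Set.mem_univ _⟩
    · have hN : 0 < N := by
        rcases Nat.eq_zero_or_pos N with h | h
        · subst h; omega
        · exact h
      have hk : c - m < N * N := by omega
      have ho : (c - m) / N < N := Nat.div_lt_of_lt_mul hk
      have ho' : (c - m) % N < N := Nat.mod_lt _ hN
      have hck : c = m + ((c - m) / N * N + (c - m) % N) := by
        rw [Nat.div_add_mod']; omega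
      by_cases hl : conf ((c - m) / N) ((c - m) % N) = false ∨ ¬ y ((c - m) / N)
      · have h1 : Relation.ReflTransGen (Step (RT N m grp conf) Set.univ (cbaY N conf y))
            (.inr (tmS' N m)) (.inl ⟨.l ((c - m) / N) ((c - m) % N), ⟨ho, ho'⟩⟩) :=
          h0.tail ⟨Or.inl hck, hl⟩
        exact h1.tail ⟨Or.inr (congrArg (· + 1) hck), Set.mem_univ _⟩
      · push Not at hl
        have hconf : conf ((c - m) / N) ((c - m) % N) = true := by
          cases hcf : conf ((c - m) / N) ((c - m) % N)
          · exact absurd hcf hl.1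
          · rfl
        have hny : ¬ y ((c - m) % N) := fun h => hy2 _ ho _ ho' hconf ⟨hl.2, h⟩
        have h1 : Relation.ReflTransGen (Step (RT N m grp conf) Set.univ (cbaY N conf y))
            (.inr (tmS' N m)) (.inl ⟨.r ((c - m) / N) ((c - m) % N), ⟨ho, ho'⟩⟩) :=
          h0.tail ⟨Or.inl hck, Or.inr hny⟩
        exact h1.tail ⟨Or.inr (congrArg (· + 1) hck), Set.mem_univ _⟩

theorem badPair_of_sat (N m : ℕ) (grp : ℕ → ℕ) (conf : ℕ → ℕ → Bool)
    (h : InstSat N m grp conf) :
    BadPair (RT N m grp conf) (tmS N m) (tmS' N m) (tmZ N) (tmT N) := by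
  obtain ⟨y, hy1, hy2⟩ := h
  refine ⟨cbaX N m y, cbaY N conf y, trivial, cba_noEdge N m grp conf y, ?_, ?_⟩
  · exact (cba_first N m grp conf y N le_rfl).tail ⟨Or.inl ⟨rfl, rfl⟩, Set.mem_univ _⟩
  · exact (cba_second N m grp conf y hy1 hy2 (m + N * N) le_rfl).tail ⟨rfl, trivial⟩

end Pool.Agent.H43.TP
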