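import Pool.Agent.H43.TP.CBD

/-!
# A bad pair gives a satisfiable instance

Let `(X, Y)` be a bad pair. Write `L = m + N * N`. For `a` of the form `g, l, r, t` (the `W`-side) let
`cl a` be its clause number: `cl (g o) = grp o`, `cl (l o o') = cl (r o o') = m + (o * N + o')`, `cl t = L`; its
neighbours of the form `G c` have `c = cl a` or `c = cl a + 1` (only `c = L` for `t`), and it has at most one
neighbour which is not a `G`, and that neighbour has no other neighbour on the `W`-side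
(`g o - c o`; `l o o' - b o o'`; `r o o' - b o' o`; here `conf o o' → o < o'` is used: `b o j` has the `W`-neighbours
`l o j` (if `conf o j`, so `o < j`) and `r j o` (if `conf j o`, so `j < o`), not both).

LEMMA A (cut argument for the second walk). Assume no `al`-vertex is in `Y`. Then for every `c ≤ L` some
`W`-side vertex `a ∈ Y` has `cl a = c`. Proof: suppose not. The set of the vertices
`G i` (`i ≤ c`), `W`-side `a` with `cl a < c`, and non-`G` `b ∈ β` all of whose `W`-side neighbours have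
`cl < c` contains `s' = G 0`, is closed under the steps of `Step E univ Y`, and does not contain
`t` (`cl t = L ≥ c`). Contradiction with the walk `s' → t`. (From `G i` to `a ∈ Y`: `cl a ∈ {i-1, i}`, so `cl a ≤ c`, and
`≠ c` by assumption.)

LEMMA B: no `G j` is in `X` (`j ≤ L`). Otherwise `Y` contains no `al` (every `al` is adjacent to every
`G`), so by Lemma A some `a ∈ Y` has `cl a = j`, and it is adjacent to `G j ∈ X`. Contradiction.

LEMMA C (cut arguments for the first walk, all `β`-vertices in `X`, no `G` in `X`). (C1) `K r ∈ X` for all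
`r ≤ N`: `K 0 = s ∈ X`. If `K r ∉ X`, `r ≥ 1`, the set of the vertices `al o i, K o, b o j, c o` with `o < r` and of the
`W`-side vertices all of whose non-`G` neighbours are of this kind is closed under the steps of
`Step E X univ`, contains `s`, and does not contain `z = al N 0`. (C2) for `o < N`: `c o ∈ X` or all `b o j ∈ X`
(`j < N`): otherwise let `b o j ∉ X`, `c o ∉ X`; use the closed set: everything with first index `< o`, `K o`, `al o i`
for `i ≤ j`, `b o i` for `i < j`, and the `W`-side vertices all of whose non-`G` neighbours are in it.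

LEMMA D: no `al o i` is in `Y`: `al N 0` is adjacent to `K N ∈ X`; for `o < N`: if `c o ∈ X`, it is adjacent to
it; otherwise all `b o j ∈ X`: `al o 0` is adjacent to `K o ∈ X`, `al o (i+1)` to `b o i`.

CONCLUSION: `y o := c o ∉ X`. Group `i < m`: Lemma A gives `a ∈ Y` with `cl a = i`; `cl (l ..), cl (r ..), cl t ≥ m`,
so `a = g o`, `grp o = i`, and `c o ∉ X` as it is adjacent to `g o ∈ Y`. Conflict `conf o o'`: Lemma A with
`c = m + (o * N + o')`: `a = g o₁` is impossible (`grp o₁ < m`), `t` too (`o * N + o' < N * N`), so `a = l o o'` or `r o o'`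
(division with remainder). If `a = l o o'`: `b o o' ∉ X`, so by (C2) `c o ∈ X`, i.e. `¬ y o`. If `a = r o o'`:
`b o' o ∉ X`, so `c o' ∈ X`, `¬ y o'`.
-/

set_option autoImplicit false

namespace Pool.Agent.H43.TP

/-- a closed set contains the end of a walk -/
theorem cbb_cut {α β : Type} {E : α → β → Prop} {X : Set β} {Y : Set α} {SA : α → Prop} {SB : β → Prop}
    {i j : α ⊕ β} (h : Relation.ReflTransGen (Step E X Y) i j)
    (hAB : ∀ a b, SA a → E a b → b ∈ X → SB b) (hBA : ∀ a b, SB b → E a b → a ∈ Y → SA a)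
    (hi : Sum.elim SA SB i) : Sum.elim SA SB j := by
  induction h with
  | refl => exact hi
  | @tail k l _ hs ih =>
    rcases k with a | b <;> rcases l with a' | b'
    · exact absurd hs (by simp [Step])
    · exact hAB a b' ih hs.1 hs.2
    · exact hBA a' b ih hs.1 hs.2
    · exact absurd hs (by simp [Step])

/-- the clause number of a vertex on the `W`-side -/
def cbbCl (N m : ℕ) (grp : ℕ → ℕ) : AN → ℕ → Prop
  | .al _ _, _ => False
  | .g o, c => grp o = c
  | .l o o', c => m + (o * N + o') = c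
  | .r o o', c => m + (o * N + o') = c
  | .t, c => m + N * N = c

section

variable {N m : ℕ} {grp : ℕ → ℕ} {conf : ℕ → ℕ → Bool}

/-- membership in `X` for untyped vertices -/
def cbbX (X : Set (BT N m)) (b : BN) : Prop := ∃ h : b.ok N m, (⟨b, h⟩ : BT N m) ∈ X

/-- membership in `Y` for untyped vertices -/
def cbbY (Y : Set (AT N)) (a : AN) : Prop := ∃ h : a.ok N, (⟨a, h⟩ : AT N) ∈ Y

/-- the closed set of Lemma A, `α`-side -/
def cbbSA (N m : ℕ) (grp : ℕ → ℕ) (c : ℕ) : AN → Prop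
  | .al _ _ => False
  | .g o => grp o < c
  | .l o o' => m + (o * N + o') < c
  | .r o o' => m + (o * N + o') < c
  | .t => m + N * N < c

/-- the closed set of Lemma A, `β`-side -/
def cbbSB (N m : ℕ) (grp : ℕ → ℕ) (conf : ℕ → ℕ → Bool) (c : ℕ) : BN → Prop
  | .K _ => True
  | .b o j => (conf o j = true → m + (o * N + j) < c) ∧ (conf j o = true → m + (j * N + o) < c)
  | .c o => grp o < c
  | .G i => i ≤ c

theorem cbb_lemA (hconf : ∀ o o', conf o o' = true → o < o') {Y : Set (AT N)}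
    (hw : Relation.ReflTransGen (Step (RT N m grp conf) Set.univ Y) (.inr (tmS' N m)) (.inl (tmT N)))
    (hal : ∀ o i, ¬ cbbY Y (.al o i)) {c : ℕ} (hc : c ≤ m + N * N) :
    ∃ a, cbbY Y a ∧ cbbCl N m grp a c := by
  by_contra hno
  push Not at hno
  have key := cbb_cut (SA := fun a : AT N => cbbSA N m grp c a.1)
    (SB := fun b : BT N m => cbbSB N m grp conf c b.1) hw ?_ ?_ ?_
  · have h1 : m + N * N < c := key
    omega
  · rintro ⟨a, ha⟩ ⟨b, hb⟩ hS hE -
    change cbbSA N m grp c a at hS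
    change RE N m grp conf a b at hE
    change cbbSB N m grp conf c b
    rcases a with ⟨o, i⟩ | o | ⟨o, o'⟩ | ⟨o, o'⟩ | _ <;> rcases b with k | ⟨o₁, j⟩ | o₁ | j <;>
      simp only [RE, cbbSA, cbbSB] at hE hS ⊢
    · subst hE
      exact hS
    · rcases hE with h | h <;> omega
    · obtain ⟨h1, rfl, rfl⟩ := hE
      refine ⟨fun _ => hS, fun h2 => ?_⟩
      have h3 := hconf _ _ h1
      have h4 := hconf _ _ h2
      omega
    · rcases hE with h | h <;> omega
    · obtain ⟨h1, rfl, rfl⟩ := hE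
      refine ⟨fun h2 => ?_, fun _ => hS⟩
      have h3 := hconf _ _ h1
      have h4 := hconf _ _ h2
      omega
    · rcases hE with h | h <;> omega
    · omega
  · rintro ⟨a, ha⟩ ⟨b, hb⟩ hS hE hY
    change cbbSB N m grp conf c b at hS
    change RE N m grp conf a b at hE
    change cbbSA N m grp c a
    have hY' : cbbY Y a := ⟨ha, hY⟩
    have hcl := hno a hY'
    rcases a with ⟨o, i⟩ | o | ⟨o, o'⟩ | ⟨o, o'⟩ | _
    · exact absurd hY' (hal o i)
    all_goals
      rcases b with k | ⟨o₁, j⟩ | o₁ | j <;> simp only [RE, cbbSA, cbbSB, cbbCl] at hE hS hcl ⊢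
    · subst hE
      exact hS
    · rcases hE with h | h <;> omega
    · obtain ⟨h1, rfl, rfl⟩ := hE
      exact hS.1 h1
    · rcases hE with h | h <;> omega
    · obtain ⟨h1, rfl, rfl⟩ := hE
      exact hS.2 h1
    · rcases hE with h | h <;> omega
    · omega
  · exact Nat.zero_le c

theorem cbb_lemB (hconf : ∀ o o', conf o o' = true → o < o') {X : Set (BT N m)} {Y : Set (AT N)}
    (hXY : ∀ a b, cbbY Y a → cbbX X b → ¬ RE N m grp conf a b)
    (hw : Relation.ReflTransGen (Step (RT N m grp conf) Set.univ Y) (.inr (tmS' N m)) (.inl (tmT N)))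
    (j : ℕ) : ¬ cbbX X (.G j) := by
  intro hj
  have hal : ∀ o i, ¬ cbbY Y (.al o i) := fun o i h => hXY _ _ h hj trivial
  obtain ⟨a, ha, hcl⟩ := cbb_lemA hconf hw hal (c := j) hj.1
  apply hXY a _ ha hj
  rcases a with ⟨o, i⟩ | o | ⟨o, o'⟩ | ⟨o, o'⟩ | _ <;> simp only [RE, cbbCl] at hcl ⊢
  · exact Or.inl hcl.symm
  · exact Or.inl hcl.symm
  · exact Or.inl hcl.symm
  · exact hcl.symm

/-- the closed set of (C1), `α`-side -/
def cbbTA (conf : ℕ → ℕ → Bool) (r : ℕ) : AN → Prop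
  | .al o _ => o < r
  | .g o => o < r
  | .l o o' => conf o o' = true → o < r
  | .r o o' => conf o o' = true → o' < r
  | .t => True

/-- the closed set of (C1), `β`-side -/
def cbbTB (r : ℕ) : BN → Prop
  | .K o => o < r
  | .b o _ => o < r
  | .c o => o < r
  | .G _ => False

theorem cbb_lemC1 {X : Set (BT N m)}
    (hG : ∀ j, ¬ cbbX X (.G j)) (hs : tmS N m ∈ X)
    (hw : Relation.ReflTransGen (Step (RT N m grp conf) X Set.univ) (.inr (tmS N m)) (.inl (tmZ N)))
    {r : ℕ} (hr : r ≤ N) : cbbX X (.K r) := by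
  by_contra hno
  have hr0 : r ≠ 0 := by
    rintro rfl
    exact hno ⟨_, hs⟩
  have key := cbb_cut (SA := fun a : AT N => cbbTA conf r a.1)
    (SB := fun b : BT N m => cbbTB r b.1) hw ?_ ?_ ?_
  · have h1 : N < r := key
    omega
  · rintro ⟨a, ha⟩ ⟨b, hb⟩ hS hE hX
    change cbbTA conf r a at hS
    change RE N m grp conf a b at hE
    change cbbTB r b
    have hX' : cbbX X b := ⟨hb, hX⟩
    rcases b with k | ⟨o₁, j⟩ | o₁ | j
    · have hk : k ≠ r := by
        rintro rfl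
        exact hno hX'
      rcases a with ⟨o, i⟩ | o | ⟨o, o'⟩ | ⟨o, o'⟩ | _ <;> simp only [RE, cbbTA, cbbTB] at hE hS ⊢
      rcases hE with h | h <;> omega
    · rcases a with ⟨o, i⟩ | o | ⟨o, o'⟩ | ⟨o, o'⟩ | _ <;> simp only [RE, cbbTA, cbbTB] at hE hS ⊢
      · omega
      · rw [hE.2.1]
        exact hS hE.1
      · rw [hE.2.1]
        exact hS hE.1
    · rcases a with ⟨o, i⟩ | o | ⟨o, o'⟩ | ⟨o, o'⟩ | _ <;> simp only [RE, cbbTA, cbbTB] at hE hS ⊢
      · omega
      · omega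
    · exact absurd hX' (hG j)
  · rintro ⟨a, ha⟩ ⟨b, hb⟩ hS hE -
    change cbbTB r b at hS
    change RE N m grp conf a b at hE
    change cbbTA conf r a
    rcases a with ⟨o, i⟩ | o | ⟨o, o'⟩ | ⟨o, o'⟩ | _ <;> rcases b with k | ⟨o₁, j⟩ | o₁ | j <;>
      simp only [RE, cbbTA, cbbTB] at hE hS ⊢
    · rcases hE with h | h <;> omega
    · omega
    · omega
    · omega
    · intro _
      omega
    · intro _
      omega
  · exact Nat.pos_of_ne_zero hr0

/-- the closed set of (C2), `β`-side -/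
def cbbUB (o j : ℕ) : BN → Prop
  | .K k => k ≤ o
  | .b o₁ i => o₁ < o ∨ (o₁ = o ∧ i < j)
  | .c o₁ => o₁ < o
  | .G _ => False

/-- the closed set of (C2), `α`-side -/
def cbbUA (conf : ℕ → ℕ → Bool) (o j : ℕ) : AN → Prop
  | .al o₁ i => o₁ < o ∨ (o₁ = o ∧ i ≤ j)
  | .g o₁ => o₁ < o
  | .l o₁ o₂ => conf o₁ o₂ = true → cbbUB o j (.b o₁ o₂)
  | .r o₁ o₂ => conf o₁ o₂ = true → cbbUB o j (.b o₂ o₁)
  | .t => True

theorem cbb_lemC2 {X : Set (BT N m)} (hG : ∀ j, ¬ cbbX X (.G j))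
    (hw : Relation.ReflTransGen (Step (RT N m grp conf) X Set.univ) (.inr (tmS N m)) (.inl (tmZ N)))
    {o : ℕ} (ho : o < N) (hc : ¬ cbbX X (.c o)) {j : ℕ} (hj : j < N) : cbbX X (.b o j) := by
  by_contra hno
  have key := cbb_cut (SA := fun a : AT N => cbbUA conf o j a.1)
    (SB := fun b : BT N m => cbbUB o j b.1) hw ?_ ?_ ?_
  · have h1 : N < o ∨ (N = o ∧ 0 ≤ j) := key
    omega
  · rintro ⟨a, ha⟩ ⟨b, hb⟩ hS hE hX
    change cbbUA conf o j a at hS
    change RE N m grp conf a b at hE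
    change cbbUB o j b
    have hX' : cbbX X b := ⟨hb, hX⟩
    rcases b with k | ⟨o₁, i₁⟩ | o₁ | i₁
    · rcases a with ⟨o₂, i⟩ | o₂ | ⟨o₂, o'⟩ | ⟨o₂, o'⟩ | _ <;> simp only [RE, cbbUA, cbbUB] at hE hS ⊢
      omega
    · have hk : ¬ (o₁ = o ∧ i₁ = j) := by
        rintro ⟨rfl, rfl⟩
        exact hno hX'
      rcases a with ⟨o₂, i⟩ | o₂ | ⟨o₂, o'⟩ | ⟨o₂, o'⟩ | _ <;> simp only [RE, cbbUA, cbbUB] at hE hS ⊢
      · omega
      · obtain ⟨h1, rfl, rfl⟩ := hE
        exact hS h1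
      · obtain ⟨h1, rfl, rfl⟩ := hE
        exact hS h1
    · have hk : o₁ ≠ o := by
        rintro rfl
        exact hc hX'
      rcases a with ⟨o₂, i⟩ | o₂ | ⟨o₂, o'⟩ | ⟨o₂, o'⟩ | _ <;> simp only [RE, cbbUA, cbbUB] at hE hS ⊢
      · omega
      · omega
    · exact absurd hX' (hG i₁)
  · rintro ⟨a, ha⟩ ⟨b, hb⟩ hS hE -
    change cbbUB o j b at hS
    change RE N m grp conf a b at hE
    change cbbUA conf o j a
    rcases a with ⟨o₂, i⟩ | o₂ | ⟨o₂, o'⟩ | ⟨o₂, o'⟩ | _ <;> rcases b with k | ⟨o₁, i₁⟩ | o₁ | i₁ <;>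
      simp only [RE, cbbUA, cbbUB] at hE hS ⊢
    · omega
    · omega
    · omega
    · omega
    · obtain ⟨h1, rfl, rfl⟩ := hE
      exact fun _ => hS
    · obtain ⟨h1, rfl, rfl⟩ := hE
      exact fun _ => hS
  · exact Nat.zero_le o

end

theorem sat_of_badPair (N m : ℕ) (grp : ℕ → ℕ) (conf : ℕ → ℕ → Bool)
    (hgrp : ∀ o < N, grp o < m) (hconf : ∀ o o', conf o o' = true → o < o')
    (h : BadPair (RT N m grp conf) (tmS N m) (tmS' N m) (tmZ N) (tmT N)) :
    InstSat N m grp conf := by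
  obtain ⟨X, Y, hs, hXY0, hw1, hw2⟩ := h
  have hXY : ∀ a b, cbbY Y a → cbbX X b → ¬ RE N m grp conf a b := by
    rintro a b ⟨ha, ha'⟩ ⟨hb, hb'⟩
    exact hXY0 ⟨a, ha⟩ ha' ⟨b, hb⟩ hb'
  have hG := fun j => cbb_lemB hconf hXY hw2 j
  have hK : ∀ r ≤ N, cbbX X (.K r) := fun r hr => cbb_lemC1 hG hs hw1 hr
  have hC2 : ∀ o < N, ¬ cbbX X (.c o) → ∀ j < N, cbbX X (.b o j) :=
    fun o ho hc j hj => cbb_lemC2 hG hw1 ho hc hj
  have hal : ∀ o i, ¬ cbbY Y (.al o i) := by
    intro o i hY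
    have hok : (o < N ∧ i ≤ N) ∨ (o = N ∧ i = 0) := hY.1
    rcases hok with ⟨ho, hi⟩ | ⟨rfl, rfl⟩
    · by_cases hc : cbbX X (.c o)
      · exact hXY _ _ hY hc rfl
      · rcases i with _ | i
        · exact hXY _ _ hY (hK o ho.le) (Or.inl ⟨rfl, rfl⟩)
        · exact hXY _ _ hY (hC2 o ho hc i (by omega)) ⟨rfl, Or.inr rfl⟩
    · exact hXY _ _ hY (hK _ le_rfl) (Or.inl ⟨rfl, rfl⟩)
  have hA : ∀ c ≤ m + N * N, ∃ a, cbbY Y a ∧ cbbCl N m grp a c := fun c hc => cbb_lemA hconf hw2 hal hc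
  refine ⟨fun o => ¬ cbbX X (.c o), ?_, ?_⟩
  · intro i hi
    obtain ⟨a, ha, hcl⟩ := hA i (by omega)
    rcases a with ⟨o, i'⟩ | o | ⟨o, o'⟩ | ⟨o, o'⟩ | _ <;> simp only [cbbCl] at hcl
    · exact ⟨o, ha.1, hcl, fun hX => hXY _ _ ha hX rfl⟩
    · omega
    · omega
    · omega
  · rintro o ho o' ho' hco ⟨hy, hy'⟩
    have hlt : o * N + o' < N * N := by
      calc o * N + o' < o * N + N := by omega
        _ = (o + 1) * N := by ring
        _ ≤ N * N := Nat.mul_le_mul_right N ho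
    have huniq : ∀ o₁ o₂ : ℕ, o₂ < N → m + (o₁ * N + o₂) = m + (o * N + o') → o₁ = o ∧ o₂ = o' := by
      intro o₁ o₂ h2 he
      have he' : o₁ * N + o₂ = o * N + o' := by omega
      have h3 : (o₁ * N + o₂) / N = o₁ := by
        rw [Nat.mul_comm, Nat.mul_add_div (by omega), Nat.div_eq_of_lt h2, Nat.add_zero]
      have h4 : (o * N + o') / N = o := by
        rw [Nat.mul_comm, Nat.mul_add_div (by omega), Nat.div_eq_of_lt ho', Nat.add_zero]
      have h5 : o₁ = o := by rw [← h3, he', h4]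
      subst h5
      exact ⟨rfl, by omega⟩
    obtain ⟨a, ha, hcl⟩ := hA (m + (o * N + o')) (by omega)
    rcases a with ⟨o₁, i'⟩ | o₁ | ⟨o₁, o₂⟩ | ⟨o₁, o₂⟩ | _ <;> simp only [cbbCl] at hcl
    · have := hgrp o₁ ha.1
      omega
    · obtain ⟨rfl, rfl⟩ := huniq o₁ o₂ ha.1.2 hcl
      exact hXY _ _ ha (hC2 _ ho hy _ ho') ⟨hco, rfl, rfl⟩
    · obtain ⟨rfl, rfl⟩ := huniq o₁ o₂ ha.1.2 hcl
      exact hXY _ _ ha (hC2 _ ho' hy' _ ho) ⟨hco, rfl, rfl⟩
    · omega

end Pool.Agent.H43.TP
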