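import Pool.Agent.H43.TP.Defs

/-!
# The bipartite graph of the reduction: definitions

An instance is given by `N` options `0, ..., N-1`, by the number `m` of groups, the group
`grp o < m` of each option and the conflicts `conf o o'` (only for `o < o'`). It is satisfiable if one can
select a set of options without conflicts that meets every group.
-/

set_option autoImplicit false

namespace Pool.Agent.H43.TP

/-- Satisfiability of an instance. -/
def InstSat (N m : ℕ) (grp : ℕ → ℕ) (conf : ℕ → ℕ → Bool) : Prop :=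
  ∃ y : ℕ → Prop, (∀ i < m, ∃ o < N, grp o = i ∧ y o) ∧
    ∀ o < N, ∀ o' < N, conf o o' = true → ¬ (y o ∧ y o')

/-- The `α`-side. -/
inductive AN : Type
  | al (o i : ℕ) : AN
  | g (o : ℕ) : AN
  | l (o o' : ℕ) : AN
  | r (o o' : ℕ) : AN
  | t : AN
  deriving DecidableEq

/-- The `β`-side. -/
inductive BN : Type
  | K (o : ℕ) : BN
  | b (o j : ℕ) : BN
  | c (o : ℕ) : BN
  | G (j : ℕ) : BN
  deriving DecidableEq

/-- The vertices in use on the `α`-side. -/
def AN.ok (N : ℕ) : AN → Prop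
  | .al o i => (o < N ∧ i ≤ N) ∨ (o = N ∧ i = 0)
  | .g o => o < N
  | .l o o' => o < N ∧ o' < N
  | .r o o' => o < N ∧ o' < N
  | .t => True

/-- The vertices in use on the `β`-side. -/
def BN.ok (N m : ℕ) : BN → Prop
  | .K o => o ≤ N
  | .b o j => o < N ∧ j < N
  | .c o => o < N
  | .G j => j ≤ m + N * N

/-- The edges of the bipartite graph. -/
def RE (N m : ℕ) (grp : ℕ → ℕ) (conf : ℕ → ℕ → Bool) : AN → BN → Prop
  | .al o i, .K r => (i = 0 ∧ r = o) ∨ (i = N ∧ r = o + 1)
  | .al o i, .b o' j => o' = o ∧ (j = i ∨ j + 1 = i)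
  | .al o _, .c o' => o' = o
  | .al _ _, .G _ => True
  | .g o, .c o' => o' = o
  | .g o, .G c => c = grp o ∨ c = grp o + 1
  | .l o o', .b o₁ j => conf o o' = true ∧ o₁ = o ∧ j = o'
  | .l o o', .G c => c = m + (o * N + o') ∨ c = m + (o * N + o') + 1
  | .r o o', .b o₁ j => conf o o' = true ∧ o₁ = o' ∧ j = o
  | .r o o', .G c => c = m + (o * N + o') ∨ c = m + (o * N + o') + 1
  | .t, .G c => c = m + N * N
  | _, _ => False

/-- The `α`-side, as a type. -/
abbrev AT (N : ℕ) : Type := {a : AN // a.ok N}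

/-- The `β`-side, as a type. -/
abbrev BT (N m : ℕ) : Type := {b : BN // b.ok N m}

/-- The edges between `AT` and `BT`. -/
def RT (N m : ℕ) (grp : ℕ → ℕ) (conf : ℕ → ℕ → Bool) (a : AT N) (b : BT N m) : Prop :=
  RE N m grp conf a.1 b.1

/-- The terminal `s`. -/
def tmS (N m : ℕ) : BT N m := ⟨.K 0, Nat.zero_le _⟩
/-- The terminal `s'`. -/
def tmS' (N m : ℕ) : BT N m := ⟨.G 0, Nat.zero_le _⟩
/-- The terminal `z`. -/
def tmZ (N : ℕ) : AT N := ⟨.al N 0, Or.inr ⟨rfl, rfl⟩⟩
/-- The terminal `t`. -/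
def tmT (N : ℕ) : AT N := ⟨.t, trivial⟩

end Pool.Agent.H43.TP
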