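import Pool.Agent.H43.TP.CBD
import Pool.Agent.H83.CSPRed

/-!
# Constraint problems as instances

`CSPRed.sat_iff`: `C.Sat` iff there is a set `S` of `C.length` positions of `verts C`, pairwise adjacent
(`u < v → adj vs[u] vs[v]`). Adjacent positions have different groups, and the groups of the positions
are `< C.length` (`mem_verts`), so `S` meets every group (as in the proof of `sat_iff`: `hsurj`). Take
`y o := o ∈ S`. Conversely, from `y` choose one option `o i` for each group `i < C.length` with `y (o i)`; for `i ≠ j`
the options are different (different groups), and for `o i < o j` there is no conflict, so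
`adj` holds; `S = image o`.
-/

set_option autoImplicit false

namespace Pool.Agent.H43.TP

open Pool.Agent.H83

/-- The groups of the options of a constraint problem. -/
def cGrp (vs : List (ℕ × CSPRed.PA)) (o : ℕ) : ℕ := (CSPRed.nth vs o).1

/-- The conflicts of the options of a constraint problem. -/
def cConf (vs : List (ℕ × CSPRed.PA)) (o o' : ℕ) : Bool :=
  decide (o < o') && !(CSPRed.adj (CSPRed.nth vs o) (CSPRed.nth vs o'))

theorem cGrp_lt (C : CSP) (o : ℕ) (ho : o < (CSPRed.verts C).length) :
    cGrp (CSPRed.verts C) o < C.length := by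
  unfold cGrp
  rw [CSPRed.nth_eq ho]
  exact (CSPRed.mem_verts.1 (List.getElem_mem (l := CSPRed.verts C) ho)).1

theorem sat_iff_instSat (C : CSP) (hC : 2 ≤ C.length) :
    C.Sat ↔ InstSat (CSPRed.verts C).length C.length (cGrp (CSPRed.verts C))
      (cConf (CSPRed.verts C)) := by
  classical
  rw [CSPRed.sat_iff C hC]
  constructor
  · rintro ⟨S, hSk, hS⟩
    have hne : ∀ u ∈ S, ∀ v ∈ S, u ≠ v → cGrp (CSPRed.verts C) u.val ≠ cGrp (CSPRed.verts C) v.val := by
      intro u hu v hv huv
      unfold cGrp
      rw [CSPRed.nth_eq u.isLt, CSPRed.nth_eq v.isLt]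
      rcases lt_or_gt_of_ne huv with h | h
      · have := (CSPRed.mem_E.1 (hS u hu v hv h)).2
        unfold CSPRed.adj at this
        simp only [Bool.and_eq_true, Bool.not_eq_true', decide_eq_false_iff_not] at this
        exact this.1
      · have := (CSPRed.mem_E.1 (hS v hv u hu h)).2
        unfold CSPRed.adj at this
        simp only [Bool.and_eq_true, Bool.not_eq_true', decide_eq_false_iff_not] at this
        exact fun h => this.1 h.symm
    have himg : S.image (fun u => cGrp (CSPRed.verts C) u.val) = Finset.range C.length := by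
      apply Finset.eq_of_subset_of_card_le
      · intro j hj
        obtain ⟨u, hu, rfl⟩ := Finset.mem_image.1 hj
        exact Finset.mem_range.2 (cGrp_lt C u.val u.isLt)
      · rw [Finset.card_image_of_injOn, hSk, Finset.card_range]
        intro u hu v hv h
        by_contra hne'
        exact hne u hu v hv hne' h
    refine ⟨fun o => ∃ h : o < (CSPRed.verts C).length, (⟨o, h⟩ : Fin _) ∈ S, ?_, ?_⟩
    · intro i hi
      have : i ∈ S.image (fun u => cGrp (CSPRed.verts C) u.val) := by
        rw [himg]
        exact Finset.mem_range.2 hi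
      obtain ⟨u, hu, h⟩ := Finset.mem_image.1 this
      exact ⟨u.val, u.isLt, h, u.isLt, hu⟩
    · rintro o ho o' ho' hc ⟨⟨h1, h2⟩, ⟨h3, h4⟩⟩
      unfold cConf at hc
      simp only [Bool.and_eq_true, decide_eq_true_eq, Bool.not_eq_true'] at hc
      have h5 := (CSPRed.mem_E.1 (hS _ h2 _ h4 hc.1)).2
      rw [CSPRed.nth_eq h1, CSPRed.nth_eq h3] at hc
      rw [h5] at hc
      exact absurd hc.2 (by simp)
  · rintro ⟨y, hy1, hy2⟩
    have h1 : ∀ i : Fin C.length, ∃ o : Fin (CSPRed.verts C).length,
        cGrp (CSPRed.verts C) o.val = i.val ∧ y o.val := by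
      intro i
      obtain ⟨o, ho, h, h'⟩ := hy1 i.val i.isLt
      exact ⟨⟨o, ho⟩, h, h'⟩
    choose f hf1 hf2 using h1
    have hfinj : Function.Injective f := by
      intro a b hab
      have := hf1 a
      rw [hab, hf1 b] at this
      exact Fin.ext this.symm
    refine ⟨Finset.univ.image f, ?_, ?_⟩
    · rw [Finset.card_image_of_injective _ hfinj]
      simp
    · intro u hu v hv huv
      obtain ⟨a, _, rfl⟩ := Finset.mem_image.1 hu
      obtain ⟨b, _, rfl⟩ := Finset.mem_image.1 hv
      rw [CSPRed.mem_E]
      refine ⟨huv, ?_⟩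
      by_contra hadj
      apply hy2 (f a).val (f a).isLt (f b).val (f b).isLt _ ⟨hf2 a, hf2 b⟩
      unfold cConf
      rw [CSPRed.nth_eq (f a).isLt, CSPRed.nth_eq (f b).isLt]
      simp only [Bool.and_eq_true, decide_eq_true_eq, Bool.not_eq_true']
      exact ⟨huv, by simpa using hadj⟩

theorem cConf_lt (vs : List (ℕ × CSPRed.PA)) (o o' : ℕ) (h : cConf vs o o' = true) : o < o' := by
  unfold cConf at h
  simp only [Bool.and_eq_true, decide_eq_true_eq] at h
  exact h.1

end Pool.Agent.H43.TP
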