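import Pool.Agent.H43.TP.Defs

/-!
# Costs of walks

All by induction on walks. `pot_sub_le_cost`: along each step the potential drops by at most the
cost (`inl a → inr b`: the potential does not drop, as `x a + x b ≤ 1`, and the cost is `0`).
`cost_mem`: use `Walk.takeUntil`, `Walk.dropUntil` and `cost_append`.
`cost_bypass`: `P.bypass` costs at most as much as `P` (induction on `P` as in the definition of `bypass`:
`dropUntil` of a walk costs at most the walk, by `take_spec`, `cost_append`, `cost_nonneg`).
-/

set_option autoImplicit false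

namespace Pool.Agent.H43.TP

variable {α β : Type} {E : α → β → Prop} {x : Vx α β → ℝ}

theorem WLK_step_nonneg (hx : ∀ a b, E a b → x (.a a) + x (.b b) ≤ 1) {i j : α ⊕ β}
    (h : (Rg E).Adj i j) : 0 ≤ stepCost x i j := by
  cases i with
  | inl a =>
    cases j with
    | inl a' => exact le_refl _
    | inr b => exact le_refl _
  | inr b =>
    cases j with
    | inl a =>
      have := hx a b h
      simp only [stepCost]
      linarith
    | inr b' => exact le_refl _

theorem WLK_step_pot (hx : ∀ a b, E a b → x (.a a) + x (.b b) ≤ 1) {i j : α ⊕ β}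
    (h : (Rg E).Adj i j) : pot x i - pot x j ≤ stepCost x i j := by
  cases i with
  | inl a =>
    cases j with
    | inl a' => exact absurd h (by simp [Rg])
    | inr b =>
      have := hx a b h
      simp only [stepCost, pot]
      linarith
  | inr b =>
    cases j with
    | inl a =>
      simp only [stepCost, pot]
      linarith
    | inr b' => exact absurd h (by simp [Rg])

theorem cost_nonneg (hx : ∀ a b, E a b → x (.a a) + x (.b b) ≤ 1) {i j : α ⊕ β}
    (P : (Rg E).Walk i j) : 0 ≤ cost x P := by
  induction P with
  | nil => exact le_refl _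
  | cons h w ih =>
    simp only [cost]
    exact add_nonneg (WLK_step_nonneg hx h) ih

theorem cost_append {i j k : α ⊕ β} (P : (Rg E).Walk i j) (Q : (Rg E).Walk j k) :
    cost x (P.append Q) = cost x P + cost x Q := by
  induction P with
  | nil => simp [cost]
  | cons h w ih =>
    rw [SimpleGraph.Walk.cons_append]
    simp only [cost]
    rw [ih Q, add_assoc]

theorem pot_sub_le_cost (hx : ∀ a b, E a b → x (.a a) + x (.b b) ≤ 1) {i j : α ⊕ β}
    (P : (Rg E).Walk i j) : pot x i - pot x j ≤ cost x P := by
  induction P with
  | nil => simp [cost]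
  | cons h w ih =>
    simp only [cost]
    have := WLK_step_pot hx h
    linarith

theorem cost_mem [DecidableEq α] [DecidableEq β] (hx : ∀ a b, E a b → x (.a a) + x (.b b) ≤ 1)
    {i j k : α ⊕ β} (P : (Rg E).Walk i j) (hk : k ∈ P.support) :
    pot x i - pot x k ≤ cost x P ∧ pot x k - pot x j ≤ cost x P := by
  have h1 : cost x P = cost x (P.takeUntil k hk) + cost x (P.dropUntil k hk) := by
    rw [← cost_append, SimpleGraph.Walk.take_spec]
  have h2 := cost_nonneg hx (P.takeUntil k hk)
  have h3 := cost_nonneg hx (P.dropUntil k hk)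
  have h4 := pot_sub_le_cost hx (P.takeUntil k hk)
  have h5 := pot_sub_le_cost hx (P.dropUntil k hk)
  constructor <;> linarith

theorem WLK_dropUntil [DecidableEq α] [DecidableEq β]
    (hx : ∀ a b, E a b → x (.a a) + x (.b b) ≤ 1) {i j k : α ⊕ β} (P : (Rg E).Walk i j)
    (hk : k ∈ P.support) : cost x (P.dropUntil k hk) ≤ cost x P := by
  have h1 : cost x P = cost x (P.takeUntil k hk) + cost x (P.dropUntil k hk) := by
    rw [← cost_append, SimpleGraph.Walk.take_spec]
  have h2 := cost_nonneg hx (P.takeUntil k hk)
  linarith

theorem cost_bypass [DecidableEq α] [DecidableEq β]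
    (hx : ∀ a b, E a b → x (.a a) + x (.b b) ≤ 1) {i j : α ⊕ β} (P : (Rg E).Walk i j) :
    cost x P.bypass ≤ cost x P := by
  induction P with
  | nil => exact le_refl _
  | @cons i k j h w ih =>
    have h1 := WLK_step_nonneg hx h
    by_cases hs : i ∈ w.bypass.support
    · have h2 : (SimpleGraph.Walk.cons h w).bypass = w.bypass.dropUntil i hs := by
        simp [SimpleGraph.Walk.bypass, hs]
      rw [h2]
      have h3 := WLK_dropUntil hx w.bypass hs
      simp only [cost]
      linarith
    · have h2 : (SimpleGraph.Walk.cons h w).bypass = SimpleGraph.Walk.cons h w.bypass := by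
        simp [SimpleGraph.Walk.bypass, hs]
      rw [h2]
      simp only [cost]
      linarith

/-- contribution of the first vertex -/
def WLK_l (x : Vx α β → ℝ) : α ⊕ β → ℝ
  | .inl a => x (.a a)
  | .inr _ => 0

/-- contribution of the last vertex -/
def WLK_r (x : Vx α β → ℝ) : α ⊕ β → ℝ
  | .inl _ => 0
  | .inr b => x (.b b)

/-- parity of the first vertex -/
def WLK_m : α ⊕ β → ℕ
  | .inl _ => 1
  | .inr _ => 0

/-- parity of the last vertex -/
def WLK_n : α ⊕ β → ℕ
  | .inl _ => 0
  | .inr _ => 1

theorem WLK_sum {i j : α ⊕ β} (P : (Rg E).Walk i j) :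
    ∃ n : ℕ, (P.support.map (fun w => x (emb w))).sum + cost x P =
        n + WLK_l x i + WLK_r x j ∧ P.length + 1 = 2 * n + WLK_m i + WLK_n j := by
  induction P with
  | @nil i =>
    refine ⟨0, ?_⟩
    cases i with
    | inl a => simp [cost, emb, WLK_l, WLK_r, WLK_m, WLK_n]
    | inr b => simp [cost, emb, WLK_l, WLK_r, WLK_m, WLK_n]
  | @cons i k j h w ih =>
    obtain ⟨n, h1, h2⟩ := ih
    cases i with
    | inl a =>
      cases k with
      | inl a' => exact absurd h (by simp [Rg])
      | inr b =>
        refine ⟨n, ?_, ?_⟩
        · rw [SimpleGraph.Walk.support_cons, List.map_cons, List.sum_cons]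
          simp only [cost, stepCost, emb, WLK_l] at h1 ⊢
          linarith
        · rw [SimpleGraph.Walk.length_cons]
          simp only [WLK_m] at h2 ⊢
          omega
    | inr b =>
      cases k with
      | inl a =>
        refine ⟨n + 1, ?_, ?_⟩
        · rw [SimpleGraph.Walk.support_cons, List.map_cons, List.sum_cons]
          simp only [cost, stepCost, emb, WLK_l] at h1 ⊢
          push_cast
          linarith
        · rw [SimpleGraph.Walk.length_cons]
          simp only [WLK_m] at h2 ⊢
          omega
      | inr b' => exact absurd h (by simp [Rg])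

/-- The sum of `x` over the support, in terms of the cost. -/
theorem support_sum {i j : α ⊕ β} (P : (Rg E).Walk i j) :
    ∃ n : ℕ, (P.support.map (fun w => x (emb w))).sum + cost x P =
        n + (match i with | .inl a => x (.a a) | .inr _ => 0) +
          (match j with | .inl _ => 0 | .inr b => x (.b b)) ∧
      P.length + 1 = 2 * n + (match i with | .inl _ => 1 | .inr _ => 0) +
          (match j with | .inl _ => 0 | .inr _ => 1) := by
  obtain ⟨n, h1, h2⟩ := WLK_sum (x := x) P
  refine ⟨n, ?_⟩
  cases i with
  | inl a =>
    cases j with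
    | inl a' => exact ⟨h1, h2⟩
    | inr b => exact ⟨h1, h2⟩
  | inr b =>
    cases j with
    | inl a => exact ⟨h1, h2⟩
    | inr b' => exact ⟨h1, h2⟩

end Pool.Agent.H43.TP
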