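import Pool.Agent.H43.TP.SUB
import Pool.Agent.H43.TP.WLK

/-!
# Odd cycle inequalities through the core

GENERAL LEMMA (private). Let `P : (Rg E).Walk (inr b) (inl a)` be a path and `c₁ c₂ c₃` distinct core
vertices (each one of `u v p q`) such that in `Gr`: `a ~ c₁`, `c₁ ~ c₂`, `c₂ ~ c₃`, `c₃ ~ b`. Then
`x c₁ + x c₂ + x c₃ - 1 ≤ cost x P`.
Proof: embed `P` in `Gr` by the graph homomorphism `emb` (injective; `Walk.map`,
`Walk.map_isPath_of_injective`), get a closed walk `c₃ b ... a c₁ c₂ c₃`; it is a cycle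
(`Walk.cons_isCycle_iff` or `IsPath` + `cons`: `c₃ :: (P ++ [c₁, c₂, c₃])`: the walk from `b` to `c₃` is a path,
the edge `c₃ b` is not used in it), of length `P.length + 4`, odd since `P.length` is odd (`support_sum`
with `i = inr b`, `j = inl a`: `P.length + 1 = 2 n`). Its vertex set has `2 n + 3` elements, so the odd cycle
inequality says `x c₁ + x c₂ + x c₃ + ∑_{P} x ≤ n + 1`, and `∑_P x = n - cost x P` by `support_sum`.
For a walk `P` that is not a path use `P.bypass` and `cost_bypass`.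

The two triangles `u q s'` and `v p z` are odd cycles; they give `tri1`, `tri2`.
-/

set_option autoImplicit false

namespace Pool.Agent.H43.TP

variable {α β : Type} {E : α → β → Prop} {s s' : β} {z t : α} {x : Vx α β → ℝ}

private theorem CYC_arc {i j : Vx α β} (hij : i ≠ j) (h : Arc E s s' z t i j) :
    (Gr E s s' z t).Adj i j := by
  rw [Gr, SimpleGraph.fromRel_adj]
  exact ⟨hij, Or.inl h⟩

/-- the embedding as a graph homomorphism -/
private def CYC_hom (E : α → β → Prop) (s s' : β) (z t : α) : Rg E →g Gr E s s' z t where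
  toFun := emb
  map_rel' := by
    intro i j h
    cases i with
    | inl a =>
      cases j with
      | inl a' => exact h.elim
      | inr b => exact CYC_arc (by simp [emb]) (Arc.ab h)
    | inr b =>
      cases j with
      | inl a =>
        have h' : E a b := h
        have h2 : (Gr E s s' z t).Adj (.a a) (.b b) := CYC_arc (by simp) (Arc.ab h')
        exact h2.symm
      | inr b' => exact h.elim

private theorem CYC_emb_inj : Function.Injective (emb : α ⊕ β → Vx α β) := by
  intro i j h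
  cases i <;> cases j <;> simp_all [emb]

private theorem CYC_edge (hx : x ∈ oddCyclePolytope (Gr E s s' z t)) :
    ∀ a b, E a b → x (.a a) + x (.b b) ≤ 1 := fun _ _ h =>
  hx.2.1 _ _ (CYC_arc (by simp) (Arc.ab h))

private theorem CYC_path [DecidableEq (Vx α β)] (hx : x ∈ oddCyclePolytope (Gr E s s' z t))
    {a : α} {b : β}
    (P : (Rg E).Walk (.inr b) (.inl a)) (hP : P.IsPath) {c1 c2 c3 : Vx α β}
    (hc1 : ∀ w, emb w ≠ c1) (hc2 : ∀ w, emb w ≠ c2) (hc3 : ∀ w, emb w ≠ c3)
    (h1 : (Gr E s s' z t).Adj (.a a) c1) (h2 : (Gr E s s' z t).Adj c1 c2)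
    (h3 : (Gr E s s' z t).Adj c2 c3) (h4 : (Gr E s s' z t).Adj c3 (.b b)) (h13 : c1 ≠ c3) :
    x c1 + x c2 + x c3 - 1 ≤ cost x P := by
  obtain ⟨n, hn1, hn2⟩ := support_sum (x := x) P
  simp only [add_zero] at hn1 hn2
  let Q : (Gr E s s' z t).Walk (.b b) (.a a) := P.map (CYC_hom E s s' z t)
  have hQs : Q.support = P.support.map emb := SimpleGraph.Walk.support_map _ _
  have hQl : Q.length = P.length := SimpleGraph.Walk.length_map _ _
  have hQn : Q.support.Nodup := by
    rw [hQs]
    exact (List.nodup_map_iff CYC_emb_inj).2 hP.support_nodup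
  let T : (Gr E s s' z t).Walk (.a a) c3 :=
    SimpleGraph.Walk.cons h1 (SimpleGraph.Walk.cons h2 (SimpleGraph.Walk.cons h3 .nil))
  let R : (Gr E s s' z t).Walk (.b b) c3 := Q.append T
  have hRs : R.support = P.support.map emb ++ [c1, c2, c3] := by
    show (Q.append T).support = _
    rw [SimpleGraph.Walk.support_append, hQs]
    rfl
  have hRl : R.length = P.length + 3 := by
    show (Q.append T).length = _
    rw [SimpleGraph.Walk.length_append, hQl]
    rfl
  have hnm1 : c1 ∉ P.support.map emb := by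
    simp only [List.mem_map, not_exists, not_and]
    exact fun w _ => hc1 w
  have hnm2 : c2 ∉ P.support.map emb := by
    simp only [List.mem_map, not_exists, not_and]
    exact fun w _ => hc2 w
  have hnm3 : c3 ∉ P.support.map emb := by
    simp only [List.mem_map, not_exists, not_and]
    exact fun w _ => hc3 w
  have hRp : R.IsPath := by
    rw [SimpleGraph.Walk.isPath_def, hRs, List.nodup_append]
    refine ⟨by rw [← hQs]; exact hQn, ?_, ?_⟩
    · simp [h2.ne, h3.ne, h13]
    · intro w hw w' hw' hww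
      subst hww
      simp only [List.mem_cons, List.not_mem_nil, or_false] at hw'
      rcases hw' with rfl | rfl | rfl
      · exact hnm1 hw
      · exact hnm2 hw
      · exact hnm3 hw
  have hb1 : (Vx.b b : Vx α β) ≠ c1 := hc1 (.inr b)
  have hb2 : (Vx.b b : Vx α β) ≠ c2 := hc2 (.inr b)
  have hb3 : (Vx.b b : Vx α β) ≠ c3 := hc3 (.inr b)
  have hedge : s(c3, Vx.b b) ∉ R.edges := by
    show s(c3, Vx.b b) ∉ (Q.append T).edges
    rw [SimpleGraph.Walk.edges_append]
    intro hmem
    rcases List.mem_append.1 hmem with h | h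
    · have := SimpleGraph.Walk.fst_mem_support_of_mem_edges Q h
      rw [hQs] at this
      exact hnm3 this
    · have h' : s(c3, Vx.b b) ∈ [s(Vx.a a, c1), s(c1, c2), s(c2, c3)] := h
      simp only [List.mem_cons, List.not_mem_nil, or_false, Sym2.eq_iff] at h'
      rcases h' with (⟨_, h⟩ | ⟨_, h⟩) | (⟨_, h⟩ | ⟨_, h⟩) | (⟨_, h⟩ | ⟨_, h⟩)
      · exact hb1 h
      · simp at h
      · exact hb2 h
      · exact hb1 h
      · exact hb3 h
      · exact hb2 h
  let W : (Gr E s s' z t).Walk c3 c3 := SimpleGraph.Walk.cons h4 R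
  have hW : W.IsCycle := (SimpleGraph.Walk.cons_isCycle_iff R h4).2 ⟨hRp, hedge⟩
  have hWl : W.length = 2 * n + 3 := by
    show R.length + 1 = _
    omega
  have hodd : Odd W.length := ⟨n + 1, by omega⟩
  obtain ⟨hnd, htf, _, hcard⟩ := cycle_support_tail _ W.support.toFinset c3 W hW
    (fun w => List.mem_toFinset)
  have hkey := hx.2.2 W.support.toFinset ⟨c3, W, hW, hodd, fun w => List.mem_toFinset⟩
  rw [hcard, hWl] at hkey
  have htail : W.support.tail = R.support := rfl
  have hsum : ∑ v ∈ W.support.toFinset, x v =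
      (P.support.map (fun w => x (emb w))).sum + (x c1 + x c2 + x c3) := by
    rw [← htf, List.sum_toFinset _ hnd, htail, hRs]
    simp only [List.map_append, List.sum_append, List.map_map, List.map_cons, List.map_nil,
      List.sum_cons, List.sum_nil]
    simp only [Function.comp_def]
    ring
  rw [hsum] at hkey
  push_cast at hkey
  linarith

private theorem CYC_gen (hx : x ∈ oddCyclePolytope (Gr E s s' z t))
    {a : α} {b : β}
    (P : (Rg E).Walk (.inr b) (.inl a)) {c1 c2 c3 : Vx α β}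
    (hc1 : ∀ w, emb w ≠ c1) (hc2 : ∀ w, emb w ≠ c2) (hc3 : ∀ w, emb w ≠ c3)
    (h1 : (Gr E s s' z t).Adj (.a a) c1) (h2 : (Gr E s s' z t).Adj c1 c2)
    (h3 : (Gr E s s' z t).Adj c2 c3) (h4 : (Gr E s s' z t).Adj c3 (.b b)) (h13 : c1 ≠ c3) :
    x c1 + x c2 + x c3 - 1 ≤ cost x P := by
  classical
  exact (CYC_path hx P.bypass P.bypass_isPath hc1 hc2 hc3 h1 h2 h3 h4 h13).trans
    (cost_bypass (CYC_edge hx) P)

private theorem CYC_tri [DecidableEq (Vx α β)] (hx : x ∈ oddCyclePolytope (Gr E s s' z t))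
    {c1 c2 c3 : Vx α β}
    (h1 : (Gr E s s' z t).Adj c1 c2) (h2 : (Gr E s s' z t).Adj c2 c3)
    (h3 : (Gr E s s' z t).Adj c3 c1) : x c1 + x c2 + x c3 ≤ 1 := by
  let R : (Gr E s s' z t).Walk c2 c1 := SimpleGraph.Walk.cons h2 (SimpleGraph.Walk.cons h3 .nil)
  have hRp : R.IsPath := by
    rw [SimpleGraph.Walk.isPath_def]
    show [c2, c3, c1].Nodup
    simp [h2.ne, h3.ne, h1.ne.symm]
  have hedge : s(c1, c2) ∉ R.edges := by
    show s(c1, c2) ∉ [s(c2, c3), s(c3, c1)]
    simp only [List.mem_cons, List.not_mem_nil, or_false, Sym2.eq_iff, not_or, not_and]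
    refine ⟨⟨fun h => (h1.ne h).elim, fun h => (h3.ne h.symm).elim⟩,
      fun h => (h3.ne h.symm).elim, fun _ h => h2.ne h⟩
  let W : (Gr E s s' z t).Walk c1 c1 := SimpleGraph.Walk.cons h1 R
  have hW : W.IsCycle := (SimpleGraph.Walk.cons_isCycle_iff R h1).2 ⟨hRp, hedge⟩
  have hWl : W.length = 3 := rfl
  obtain ⟨hnd, htf, _, hcard⟩ := cycle_support_tail _ W.support.toFinset c1 W hW
    (fun w => List.mem_toFinset)
  have hkey := hx.2.2 W.support.toFinset
    ⟨c1, W, hW, by rw [hWl]; decide, fun w => List.mem_toFinset⟩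
  rw [hcard, hWl] at hkey
  have hsum : ∑ v ∈ W.support.toFinset, x v = x c1 + x c2 + x c3 := by
    rw [← htf, List.sum_toFinset _ hnd]
    show (List.map x [c2, c3, c1]).sum = _
    simp only [List.map_cons, List.map_nil, List.sum_cons, List.sum_nil]
    ring
  rw [hsum] at hkey
  norm_num at hkey
  linarith

theorem cyc_P (hx : x ∈ oddCyclePolytope (Gr E s s' z t))
    (P : (Rg E).Walk (.inr s) (.inl z)) :
    x .u + x .v + x .p - 1 ≤ cost x P ∧ x .u + x .p + x .q - 1 ≤ cost x P := by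
  have e1 : ∀ w : α ⊕ β, emb w ≠ .u := by rintro (a | b) <;> simp [emb]
  have e2 : ∀ w : α ⊕ β, emb w ≠ .v := by rintro (a | b) <;> simp [emb]
  have e3 : ∀ w : α ⊕ β, emb w ≠ .p := by rintro (a | b) <;> simp [emb]
  have e4 : ∀ w : α ⊕ β, emb w ≠ .q := by rintro (a | b) <;> simp [emb]
  have k1 := CYC_gen hx P e3 e2 e1 (CYC_arc (by simp) Arc.pz).symm
    (CYC_arc (by simp) Arc.vp).symm (CYC_arc (by simp) Arc.uv).symm (CYC_arc (by simp) Arc.us)
    (by simp)
  have k2 := CYC_gen hx P e3 e4 e1 (CYC_arc (by simp) Arc.pz).symm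
    (CYC_arc (by simp) Arc.pq) (CYC_arc (by simp) Arc.qu) (CYC_arc (by simp) Arc.us) (by simp)
  exact ⟨by linarith, by linarith⟩

theorem cyc_Q (hx : x ∈ oddCyclePolytope (Gr E s s' z t))
    (P : (Rg E).Walk (.inr s') (.inl t)) :
    x .u + x .v + x .q - 1 ≤ cost x P ∧ x .v + x .p + x .q - 1 ≤ cost x P := by
  have e1 : ∀ w : α ⊕ β, emb w ≠ .u := by rintro (a | b) <;> simp [emb]
  have e2 : ∀ w : α ⊕ β, emb w ≠ .v := by rintro (a | b) <;> simp [emb]
  have e3 : ∀ w : α ⊕ β, emb w ≠ .p := by rintro (a | b) <;> simp [emb]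
  have e4 : ∀ w : α ⊕ β, emb w ≠ .q := by rintro (a | b) <;> simp [emb]
  have k1 := CYC_gen hx P e2 e1 e4 (CYC_arc (by simp) Arc.vt).symm
    (CYC_arc (by simp) Arc.uv).symm (CYC_arc (by simp) Arc.qu).symm (CYC_arc (by simp) Arc.qs')
    (by simp)
  have k2 := CYC_gen hx P e2 e3 e4 (CYC_arc (by simp) Arc.vt).symm
    (CYC_arc (by simp) Arc.vp) (CYC_arc (by simp) Arc.pq) (CYC_arc (by simp) Arc.qs') (by simp)
  exact ⟨by linarith, by linarith⟩

theorem tri1 (hx : x ∈ oddCyclePolytope (Gr E s s' z t)) :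
    x .u + x .q ≤ pot x (.inr s') := by
  classical
  have := CYC_tri hx (CYC_arc (by simp) Arc.us') (CYC_arc (by simp) Arc.qs').symm
    (CYC_arc (by simp) Arc.qu)
  show x .u + x .q ≤ 1 - x (.b s')
  linarith

theorem tri2 (hx : x ∈ oddCyclePolytope (Gr E s s' z t)) :
    pot x (.inl z) ≤ 1 - x .v - x .p := by
  classical
  have := CYC_tri hx (CYC_arc (by simp) Arc.vp) (CYC_arc (by simp) Arc.pz)
    (CYC_arc (by simp) Arc.vz).symm
  show x (.a z) ≤ 1 - x .v - x .p
  linarith

end Pool.Agent.H43.TP
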