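import Pool.Agent.H43.TP.CSP

/-!
# The vertices of the reduction graph as triples of numbers
-/

set_option autoImplicit false

namespace Pool.Agent.H43.TP

open Pool.Agent.H83

/-- Codes of vertices. -/
abbrev Code : Type := ℕ × ℕ × ℕ

/-- The code of a vertex. -/
def code : Vx AN BN → Code
  | .u => (0, 0, 0)
  | .v => (1, 0, 0)
  | .p => (2, 0, 0)
  | .q => (3, 0, 0)
  | .a (.al o i) => (4, o, i)
  | .a (.g o) => (5, o, 0)
  | .a (.l o o') => (6, o, o')
  | .a (.r o o') => (7, o, o')
  | .a .t => (8, 0, 0)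
  | .b (.K o) => (9, o, 0)
  | .b (.b o j) => (10, o, j)
  | .b (.c o) => (11, o, 0)
  | .b (.G j) => (12, j, 0)

/-- The list of the vertices. -/
def nodes (N m : ℕ) : List Code :=
  [(0, 0, 0), (1, 0, 0), (2, 0, 0), (3, 0, 0), (8, 0, 0), (4, N, 0)] ++
  ((List.range N).flatMap (fun o => (List.range (N + 1)).map (fun i => (4, o, i))) ++
  ((List.range N).map (fun o => (5, o, 0)) ++
  ((List.range N).flatMap (fun o => (List.range N).map (fun i => (6, o, i))) ++
  ((List.range N).flatMap (fun o => (List.range N).map (fun i => (7, o, i))) ++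
  ((List.range (N + 1)).map (fun o => (9, o, 0)) ++
  ((List.range N).flatMap (fun o => (List.range N).map (fun i => (10, o, i))) ++
  ((List.range N).map (fun o => (11, o, 0)) ++
  (List.range (m + N * N + 1)).map (fun j => (12, j, 0)))))))))

/-- The tags of `x` and `y` are `i` and `j`. -/
def tg (x y : Code) (i j : ℕ) : Bool := decide (x.1 = i) && decide (y.1 = j)

/-- Directed edges between codes: edges at the core. -/
def arcC (N : ℕ) (x y : Code) : Bool :=
  tg x y 0 1 || (tg x y 1 2 || (tg x y 2 3 || (tg x y 3 0 ||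
  ((tg x y 0 9 && decide (y.2.1 = 0)) || ((tg x y 0 12 && decide (y.2.1 = 0)) ||
  ((tg x y 3 12 && decide (y.2.1 = 0)) ||
  ((tg x y 1 4 && (decide (y.2.1 = N) && decide (y.2.2 = 0))) ||
  (tg x y 1 8 ||
  (tg x y 2 4 && (decide (y.2.1 = N) && decide (y.2.2 = 0)))))))))))

/-- Directed edges between codes: edges at `al`. -/
def arcL (N : ℕ) (x y : Code) : Bool :=
  (tg x y 4 9 && ((decide (x.2.2 = 0) && decide (y.2.1 = x.2.1)) ||
    (decide (x.2.2 = N) && decide (y.2.1 = x.2.1 + 1)))) ||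
  ((tg x y 4 10 && (decide (y.2.1 = x.2.1) &&
    (decide (y.2.2 = x.2.2) || decide (y.2.2 + 1 = x.2.2)))) ||
  ((tg x y 4 11 && decide (y.2.1 = x.2.1)) || tg x y 4 12))

/-- Directed edges between codes: the other edges. -/
def arcW (vs : List (ℕ × CSPRed.PA)) (N m : ℕ) (x y : Code) : Bool :=
  (tg x y 5 11 && decide (y.2.1 = x.2.1)) ||
  ((tg x y 5 12 && (decide (y.2.1 = cGrp vs x.2.1) || decide (y.2.1 = cGrp vs x.2.1 + 1))) ||
  ((tg x y 6 10 && (cConf vs x.2.1 x.2.2 &&
    (decide (y.2.1 = x.2.1) && decide (y.2.2 = x.2.2)))) ||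
  ((tg x y 7 10 && (cConf vs x.2.1 x.2.2 &&
    (decide (y.2.1 = x.2.2) && decide (y.2.2 = x.2.1)))) ||
  (((tg x y 6 12 || tg x y 7 12) && (decide (y.2.1 = m + (x.2.1 * N + x.2.2)) ||
    decide (y.2.1 = m + (x.2.1 * N + x.2.2) + 1))) ||
  (tg x y 8 12 && decide (y.2.1 = m + N * N))))))

/-- Directed edges between codes. -/
def arcB (vs : List (ℕ × CSPRed.PA)) (N m : ℕ) (x y : Code) : Bool :=
  arcC N x y || (arcL N x y || arcW vs N m x y)

/-- Adjacency of codes. -/
def adjB (vs : List (ℕ × CSPRed.PA)) (N m : ℕ) (x y : Code) : Bool :=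
  arcB vs N m x y || arcB vs N m y x

/-- The word of a constraint problem: the adjacency matrix of its graph. -/
def wordOf (C : CSP) : List Bool :=
  (nodes (CSPRed.verts C).length C.length).flatMap (fun x =>
    (nodes (CSPRed.verts C).length C.length).map (fun y =>
      adjB (CSPRed.verts C) (CSPRed.verts C).length C.length x y))

end Pool.Agent.H43.TP
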