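import Pool.Agent.H43.TP.SUB

/-!
# A filling gives a decomposition into stable sets

Let `π = pot x`, `m w = π w - f w`. For `θ ∈ [0, 1)` put `θ ∈ E w` (for `w : α ⊕ β`) iff
`θ < f w` or (`μ + ν ≤ θ` and `θ < μ + ν + m w`). Let `S θ` be the set of the vertices
- `.a a` with `θ ∈ E (inl a)`, and `.b b` with `θ ∉ E (inr b)`;
- `.u` iff `θ < μ` or (`μ + ν ≤ θ` and `θ < x u + ν`);
- `.q` iff (`μ ≤ θ` and `θ < μ + ν`) or (`x u + ν ≤ θ` and `θ < x u + x q`);
- `.v` iff (`μ ≤ θ` and `θ < μ + ν`) or `1 - x v + ν ≤ θ`;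
- `.p` iff `θ < μ` or (`1 - x v - x p + μ + ν ≤ θ` and `θ < 1 - x v + ν`).

(1) For `θ ∈ [0, 1)` the set `S θ` is independent in `Gr E s s' z t`. For each kind of edge this is linear
arithmetic from the fields of `Fill`:
`uv, vp, pq, qu`: the intervals are disjoint (use `sum`, `uv, vp, pq, qu, μu, μp, νv, νq`).
`us`: if `u ∈ S θ` then `θ ∈ E s` (`s0`, `s1`). `us'`, `qs'`: `θ ∈ E s'` (`s'0`, `tri1`, `νq`).
`vz`, `pz`: `θ ∉ E z` (`z0`, `tri2`, `μp`, `νv`). `vt`: `θ ∉ E t` (`t0`, `t1`).
`ab`: `E a ⊆ E b` (`mono`, `lip`).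
(2) For every vertex `w`: `∫ θ in Ico 0 1, (indicator of w ∈ S θ) = x w` (the set is a disjoint union of two
intervals, or the complement of one; lengths: `u`: `μ + (x u - μ)`; `q`: `ν + (x q - ν)`; `v`: `ν + (x v - ν)`;
`p`: `μ + (x p - μ)`; `a`: `f + m = x a`; `b`: `1 - (f + m) = x b`; use `f0, f1, m0, m1` for the positions).
(3) `stablePolytope` is convex and closed (`isClosed_stablePolytope`), so the average
`∫ θ in Ico 0 1, χ_{S θ}` lies in it (`Convex.integral_mem`; the restricted measure is a probability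
measure; integrability and the evaluation of coordinates: `MeasureTheory.Integrable.of_eval` /
`integrable_pi_iff` / `eval_integral`, each coordinate is an indicator of a measurable set). By (2) it is `x`.
-/

set_option autoImplicit false

namespace Pool.Agent.H43.TP

variable {α β : Type} [Fintype α] [Fintype β]

open MeasureTheory Set

/-- the level sets on the bipartite part -/
private def decE (x : Vx α β → ℝ) (μ ν : ℝ) (f : α ⊕ β → ℝ) (w : α ⊕ β) (θ : ℝ) : Prop :=
  θ < f w ∨ (μ + ν ≤ θ ∧ θ < μ + ν + (pot x w - f w))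

/-- the stable sets -/
private def decS (x : Vx α β → ℝ) (μ ν : ℝ) (f : α ⊕ β → ℝ) (θ : ℝ) : Vx α β → Prop
  | .a a => decE x μ ν f (.inl a) θ
  | .b b => ¬ decE x μ ν f (.inr b) θ
  | .u => θ < μ ∨ (μ + ν ≤ θ ∧ θ < x .u + ν)
  | .q => (μ ≤ θ ∧ θ < μ + ν) ∨ (x .u + ν ≤ θ ∧ θ < x .u + x .q)
  | .v => (μ ≤ θ ∧ θ < μ + ν) ∨ 1 - x .v + ν ≤ θ
  | .p => θ < μ ∨ (1 - x .v - x .p + μ + ν ≤ θ ∧ θ < 1 - x .v + ν)

omit [Fintype α] [Fintype β] in
private theorem dec_arc {E : α → β → Prop} {s s' : β} {z t : α} {x : Vx α β → ℝ}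
    {μ ν : ℝ} {f : α ⊕ β → ℝ} (h : Fill E s s' z t x μ ν f) {θ : ℝ} (hθ : 0 ≤ θ)
    {i j : Vx α β} (harc : Arc E s s' z t i j) (hi : decS x μ ν f θ i) (hj : decS x μ ν f θ j) :
    False := by
  have huv := h.uv; have hvp := h.vp; have hpq := h.pq; have hqu := h.qu
  have ht1 := h.tri1; have ht2 := h.tri2; have hμ0 := h.μ0; have hν0 := h.ν0
  have hμu := h.μu; have hμp := h.μp; have hνv := h.νv; have hνq := h.νq
  have hsum := h.sum
  cases harc with
  | uv =>
    simp only [decS] at hi hj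
    rcases hi with hi | ⟨hi, hi'⟩ <;> rcases hj with ⟨hj, hj'⟩ | hj <;> linarith
  | vp =>
    simp only [decS] at hi hj
    rcases hi with ⟨hi, hi'⟩ | hi <;> rcases hj with hj | ⟨hj, hj'⟩ <;> linarith
  | pq =>
    simp only [decS] at hi hj
    rcases hi with hi | ⟨hi, hi'⟩ <;> rcases hj with ⟨hj, hj'⟩ | ⟨hj, hj'⟩ <;> linarith
  | qu =>
    simp only [decS] at hi hj
    rcases hi with ⟨hi, hi'⟩ | ⟨hi, hi'⟩ <;> rcases hj with hj | ⟨hj, hj'⟩ <;> linarith
  | us =>
    simp only [decS] at hi hj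
    apply hj
    have h1 := h.s0; have h2 := h.s1
    rcases hi with hi | ⟨hi, hi'⟩
    · left; linarith
    · right; exact ⟨hi, by linarith⟩
  | us' =>
    simp only [decS] at hi hj
    apply hj
    have h1 := h.s'0
    rcases hi with hi | ⟨hi, hi'⟩
    · left; linarith
    · right; exact ⟨hi, by linarith⟩
  | qs' =>
    simp only [decS] at hi hj
    apply hj
    have h1 := h.s'0
    rcases hi with ⟨hi, hi'⟩ | ⟨hi, hi'⟩
    · left; linarith
    · right; exact ⟨by linarith, by linarith⟩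
  | vz =>
    simp only [decS, decE] at hi hj
    have h1 := h.z0
    rcases hi with ⟨hi, hi'⟩ | hi <;> rcases hj with hj | ⟨hj, hj'⟩ <;> linarith
  | vt =>
    simp only [decS, decE] at hi hj
    have h1 := h.t0; have h2 := h.t1
    rcases hi with ⟨hi, hi'⟩ | hi <;> rcases hj with hj | ⟨hj, hj'⟩ <;> linarith
  | pz =>
    simp only [decS, decE] at hi hj
    have h1 := h.z0
    rcases hi with hi | ⟨hi, hi'⟩ <;> rcases hj with hj | ⟨hj, hj'⟩ <;> linarith
  | @ab a b hab =>
    simp only [decS] at hi hj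
    apply hj
    have h1 := h.mono a b hab; have h2 := h.lip a b hab
    rcases hi with hi | ⟨hi, hi'⟩
    · left; linarith
    · right; exact ⟨hi, by linarith⟩

omit [Fintype α] [Fintype β] in
private theorem dec_indep {E : α → β → Prop} {s s' : β} {z t : α} {x : Vx α β → ℝ}
    {μ ν : ℝ} {f : α ⊕ β → ℝ} (h : Fill E s s' z t x μ ν f) {θ : ℝ} (hθ : 0 ≤ θ) :
    (Gr E s s' z t).IsIndepSet {w | decS x μ ν f θ w} := by
  intro i hi j hj _ hadj
  rw [Gr, SimpleGraph.fromRel_adj] at hadj
  rcases hadj with ⟨_, hadj | hadj⟩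
  · exact dec_arc h hθ hadj hi hj
  · exact dec_arc h hθ hadj hj hi

/-- the uniform distribution on the unit interval -/
private noncomputable def decP : Measure ℝ := volume.restrict (Ico (0 : ℝ) 1)

private instance decP_prob : IsProbabilityMeasure decP := ⟨by simp [decP]⟩

private theorem decP_real {A : Set ℝ} (hA : MeasurableSet A) {a b c d : ℝ} (ha : 0 ≤ a)
    (hab : a ≤ b) (hbc : b ≤ c) (hcd : c ≤ d) (hd : d ≤ 1)
    (h : ∀ θ, 0 ≤ θ → θ < 1 → (θ ∈ A ↔ (a ≤ θ ∧ θ < b) ∨ (c ≤ θ ∧ θ < d))) :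
    decP.real A = (b - a) + (d - c) := by
  have h1 : A ∩ Ico (0 : ℝ) 1 = Ico a b ∪ Ico c d := by
    ext θ
    simp only [mem_inter_iff, mem_Ico, mem_union]
    constructor
    · rintro ⟨hA, h0, h1⟩
      exact (h θ h0 h1).1 hA
    · intro hh
      have h0 : 0 ≤ θ := by rcases hh with ⟨h2, _⟩ | ⟨h2, _⟩ <;> linarith
      have h1 : θ < 1 := by rcases hh with ⟨_, h2⟩ | ⟨_, h2⟩ <;> linarith
      exact ⟨(h θ h0 h1).2 hh, h0, h1⟩
  have hdis : Disjoint (Ico a b) (Ico c d) := by
    rw [Set.disjoint_left]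
    rintro θ ⟨_, h2⟩ ⟨h3, _⟩
    linarith
  rw [decP, measureReal_restrict_apply hA, h1,
    measureReal_union hdis measurableSet_Ico (by simp) (by simp),
    Real.volume_real_Ico_of_le hab, Real.volume_real_Ico_of_le hcd]

omit [Fintype α] [Fintype β] in
private theorem dec_meas (x : Vx α β → ℝ) (μ ν : ℝ) (f : α ⊕ β → ℝ) (w : Vx α β) :
    MeasurableSet {θ : ℝ | decS x μ ν f θ w} := by
  have hlt : ∀ c : ℝ, MeasurableSet {θ : ℝ | θ < c} := fun c => measurableSet_Iio
  have hle : ∀ c : ℝ, MeasurableSet {θ : ℝ | c ≤ θ} := fun c => measurableSet_Ici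
  have hE : ∀ w : α ⊕ β, MeasurableSet {θ : ℝ | decE x μ ν f w θ} := fun w =>
    (hlt _).union ((hle _).inter (hlt _))
  cases w with
  | u => exact (hlt _).union ((hle _).inter (hlt _))
  | v => exact ((hle _).inter (hlt _)).union (hle _)
  | p => exact (hlt _).union ((hle _).inter (hlt _))
  | q => exact ((hle _).inter (hlt _)).union ((hle _).inter (hlt _))
  | a a => exact hE _
  | b b => exact (hE _).compl

omit [Fintype α] [Fintype β] in
private theorem dec_real {E : α → β → Prop} {s s' : β} {z t : α} {x : Vx α β → ℝ}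
    {μ ν : ℝ} {f : α ⊕ β → ℝ} (h : Fill E s s' z t x μ ν f) (w : Vx α β) :
    decP.real {θ : ℝ | decS x μ ν f θ w} = x w := by
  have huv := h.uv; have hvp := h.vp; have hpq := h.pq; have hqu := h.qu
  have ht1 := h.tri1; have ht2 := h.tri2; have hμ0 := h.μ0; have hν0 := h.ν0
  have hμu := h.μu; have hμp := h.μp; have hνv := h.νv; have hνq := h.νq
  have hsum := h.sum
  have hlt : ∀ c : ℝ, MeasurableSet {θ : ℝ | θ < c} := fun c => measurableSet_Iio
  have hle : ∀ c : ℝ, MeasurableSet {θ : ℝ | c ≤ θ} := fun c => measurableSet_Ici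
  have hE : ∀ w : α ⊕ β, MeasurableSet {θ : ℝ | decE x μ ν f w θ} := fun w =>
    (hlt _).union ((hle _).inter (hlt _))
  have hEr : ∀ w : α ⊕ β, decP.real {θ : ℝ | decE x μ ν f w θ} = pot x w := by
    intro w
    have h1 := h.f0 w; have h2 := h.f1 w; have h3 := h.m0 w; have h4 := h.m1 w
    rw [decP_real (hE w) (a := 0) (b := f w) (c := μ + ν) (d := μ + ν + (pot x w - f w))
      le_rfl h1 h2 (by linarith) (by linarith)]
    · ring
    · intro θ h0 _
      simp only [mem_ofPred_eq, decE]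
      constructor
      · rintro (h5 | h5)
        · exact Or.inl ⟨h0, h5⟩
        · exact Or.inr h5
      · rintro (h5 | h5)
        · exact Or.inl h5.2
        · exact Or.inr h5
  cases w with
  | u =>
    rw [decP_real (dec_meas x μ ν f .u) (a := 0) (b := μ) (c := μ + ν) (d := x .u + ν)
      le_rfl hμ0 (by linarith) (by linarith) (by linarith)]
    · ring
    · intro θ h0 _
      simp only [mem_ofPred_eq, decS]
      constructor
      · rintro (h5 | h5)
        · exact Or.inl ⟨h0, h5⟩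
        · exact Or.inr h5
      · rintro (h5 | h5)
        · exact Or.inl h5.2
        · exact Or.inr h5
  | v =>
    have hbv := h.box .v
    rw [decP_real (dec_meas x μ ν f .v) (a := μ) (b := μ + ν) (c := 1 - x .v + ν) (d := 1)
      hμ0 (by linarith) (by linarith) (by linarith) le_rfl]
    · ring
    · intro θ h0 h1
      simp only [mem_ofPred_eq, decS]
      constructor
      · rintro (h5 | h5)
        · exact Or.inl h5
        · exact Or.inr ⟨h5, h1⟩
      · rintro (h5 | h5)
        · exact Or.inl h5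
        · exact Or.inr h5.1
  | p =>
    rw [decP_real (dec_meas x μ ν f .p) (a := 0) (b := μ) (c := 1 - x .v - x .p + μ + ν)
      (d := 1 - x .v + ν) le_rfl hμ0 (by linarith) (by linarith) (by linarith)]
    · ring
    · intro θ h0 _
      simp only [mem_ofPred_eq, decS]
      constructor
      · rintro (h5 | h5)
        · exact Or.inl ⟨h0, h5⟩
        · exact Or.inr h5
      · rintro (h5 | h5)
        · exact Or.inl h5.2
        · exact Or.inr h5
  | q =>
    rw [decP_real (dec_meas x μ ν f .q) (a := μ) (b := μ + ν) (c := x .u + ν) (d := x .u + x .q)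
      hμ0 (by linarith) (by linarith) (by linarith) (by linarith)]
    · ring
    · intro θ h0 _
      simp only [mem_ofPred_eq, decS]
  | a a => exact hEr (.inl a)
  | b b =>
    have h1 : {θ : ℝ | decS x μ ν f θ (.b b)} = {θ : ℝ | decE x μ ν f (.inr b) θ}ᶜ := rfl
    rw [h1, measureReal_compl (hE _), hEr, probReal_univ]
    simp [pot]

theorem mem_stablePolytope_of_fill {E : α → β → Prop} {s s' : β} {z t : α} {x : Vx α β → ℝ}
    {μ ν : ℝ} {f : α ⊕ β → ℝ} (h : Fill E s s' z t x μ ν f) :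
    x ∈ stablePolytope (Gr E s s' z t) := by
  classical
  set F : ℝ → Vx α β → ℝ := fun θ => ({w | decS x μ ν f θ w} : Set (Vx α β)).indicator 1 with hF
  have hFw : ∀ w, (fun θ => F θ w) = ({θ : ℝ | decS x μ ν f θ w} : Set ℝ).indicator 1 := by
    intro w
    funext θ
    by_cases hw : decS x μ ν f θ w
    · have h1 : w ∈ ({w | decS x μ ν f θ w} : Set (Vx α β)) := hw
      have h2 : θ ∈ ({θ : ℝ | decS x μ ν f θ w} : Set ℝ) := hw
      simp only [hF, Set.indicator_of_mem h1, Set.indicator_of_mem h2, Pi.one_apply]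
    · have h1 : w ∉ ({w | decS x μ ν f θ w} : Set (Vx α β)) := hw
      have h2 : θ ∉ ({θ : ℝ | decS x μ ν f θ w} : Set ℝ) := hw
      simp only [hF, Set.indicator_of_notMem h1, Set.indicator_of_notMem h2]
  have hint : ∀ w, Integrable (fun θ => F θ w) decP := by
    intro w
    rw [hFw]
    exact (integrable_const (1 : ℝ)).indicator (dec_meas x μ ν f w)
  have hint' : Integrable F decP := Integrable.of_eval hint
  have hmem : ∫ θ, F θ ∂decP ∈ stablePolytope (Gr E s s' z t) := by
    refine Convex.integral_mem (convex_convexHull ℝ _) (isClosed_stablePolytope _) ?_ hint'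
    rw [decP]
    filter_upwards [ae_restrict_mem measurableSet_Ico] with θ hθ
    exact subset_convexHull ℝ _ ⟨{w | decS x μ ν f θ w}, dec_indep h hθ.1, rfl⟩
  have hx : ∫ θ, F θ ∂decP = x := by
    funext w
    rw [eval_integral hint, hFw, integral_indicator_one (dec_meas x μ ν f w)]
    exact dec_real h w
  rw [hx] at hmem
  exact hmem

end Pool.Agent.H43.TP
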