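import Pool.Agent.H43.TP.WLK

/-!
# The distance

`dist x E T w = sInf ({1} ∪ {cost x P | P walk from w to T})`. The set is bounded below by `0`
(`cost_nonneg`) and contains `1`. `dist_self`: the nil walk costs `0`. `dist_ab`, `dist_ba`: prepend one
step to a walk (free for `inl a → inr b`, hence `dist T (inl a) ≤ dist T (inr b)`; cost
`1 - x b - x a ≥ 0` for `inr b → inl a`). `dist_pot`: `pot_sub_le_cost` and `pot ∈ [0, 1]`.
`exists_walk`: `csInf` properties (`exists_lt_of_csInf_lt`).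
-/

set_option autoImplicit false

namespace Pool.Agent.H43.TP

variable {α β : Type} {E : α → β → Prop} {x : Vx α β → ℝ}

private theorem dst_mem_nonneg (hx : ∀ a b, E a b → x (.a a) + x (.b b) ≤ 1) (T w : α ⊕ β) :
    ∀ r ∈ ({1} ∪ {r | ∃ P : (Rg E).Walk w T, r = cost x P} : Set ℝ), 0 ≤ r := by
  rintro r (hr | ⟨P, rfl⟩)
  · rw [Set.mem_singleton_iff] at hr; rw [hr]; exact zero_le_one
  · exact cost_nonneg hx P

private theorem dst_bddBelow (hx : ∀ a b, E a b → x (.a a) + x (.b b) ≤ 1) (T w : α ⊕ β) :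
    BddBelow ({1} ∪ {r | ∃ P : (Rg E).Walk w T, r = cost x P} : Set ℝ) :=
  ⟨0, fun r hr => dst_mem_nonneg hx T w r hr⟩

private theorem dst_nonempty (T w : α ⊕ β) :
    ({1} ∪ {r | ∃ P : (Rg E).Walk w T, r = cost x P} : Set ℝ).Nonempty :=
  ⟨1, Or.inl rfl⟩

private theorem dst_le_cost (hx : ∀ a b, E a b → x (.a a) + x (.b b) ≤ 1) {T w : α ⊕ β}
    (P : (Rg E).Walk w T) : dist x E T w ≤ cost x P :=
  csInf_le (dst_bddBelow hx T w) (Or.inr ⟨P, rfl⟩)

theorem dist_nonneg (hx : ∀ a b, E a b → x (.a a) + x (.b b) ≤ 1) (T w : α ⊕ β) :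
    0 ≤ dist x E T w :=
  le_csInf (dst_nonempty T w) (dst_mem_nonneg hx T w)

theorem dist_le_one (hx : ∀ a b, E a b → x (.a a) + x (.b b) ≤ 1) (T w : α ⊕ β) :
    dist x E T w ≤ 1 :=
  csInf_le (dst_bddBelow hx T w) (Or.inl rfl)

theorem dist_self (hx : ∀ a b, E a b → x (.a a) + x (.b b) ≤ 1) (T : α ⊕ β) :
    dist x E T T = 0 := by
  refine le_antisymm ?_ (dist_nonneg hx T T)
  have h := dst_le_cost (x := x) hx (SimpleGraph.Walk.nil : (Rg E).Walk T T)
  simpa [cost] using h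

theorem le_dist (T w : α ⊕ β) (r : ℝ) (hr : r ≤ 1)
    (h : ∀ P : (Rg E).Walk w T, r ≤ cost x P) : r ≤ dist x E T w := by
  refine le_csInf (dst_nonempty T w) ?_
  rintro q (hq | ⟨P, rfl⟩)
  · rw [Set.mem_singleton_iff] at hq; rw [hq]; exact hr
  · exact h P

theorem exists_walk (hx : ∀ a b, E a b → x (.a a) + x (.b b) ≤ 1) (T w : α ⊕ β) (r : ℝ)
    (hr : r ≤ 1) (h : dist x E T w < r) : ∃ P : (Rg E).Walk w T, cost x P < r := by
  obtain ⟨q, hq, hqr⟩ := exists_lt_of_csInf_lt (dst_nonempty T w) h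
  rcases hq with hq | ⟨P, rfl⟩
  · rw [Set.mem_singleton_iff] at hq
    rw [hq] at hqr
    exact absurd hqr (not_lt.mpr hr)
  · exact ⟨P, hqr⟩

private theorem dst_step (hx : ∀ a b, E a b → x (.a a) + x (.b b) ≤ 1) (T : α ⊕ β) {i k : α ⊕ β}
    (h : (Rg E).Adj i k) (c : ℝ) (hc : stepCost x i k = c) (h0 : 0 ≤ c) :
    dist x E T i ≤ dist x E T k + c := by
  by_contra hcon
  push Not at hcon
  have h1 : dist x E T k < dist x E T i - c := by linarith
  obtain ⟨P, hP⟩ := exists_walk hx T k (dist x E T i - c)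
    (by have := dist_le_one hx T i; linarith) h1
  have h2 := dst_le_cost hx (SimpleGraph.Walk.cons h P)
  have h3 : cost x (SimpleGraph.Walk.cons h P) = stepCost x i k + cost x P := rfl
  rw [h3, hc] at h2
  linarith

theorem dist_ab (hx : ∀ a b, E a b → x (.a a) + x (.b b) ≤ 1) (T : α ⊕ β) {a : α} {b : β}
    (h : E a b) : dist x E T (.inl a) ≤ dist x E T (.inr b) := by
  have hadj : (Rg E).Adj (.inl a) (.inr b) := h
  have := dst_step (x := x) hx T hadj 0 rfl le_rfl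
  linarith

theorem dist_ba (hx : ∀ a b, E a b → x (.a a) + x (.b b) ≤ 1) (T : α ⊕ β) {a : α} {b : β}
    (h : E a b) :
    dist x E T (.inr b) ≤ dist x E T (.inl a) + (pot x (.inr b) - pot x (.inl a)) := by
  have hadj : (Rg E).Adj (.inr b) (.inl a) := h
  have h1 := hx a b h
  have := dst_step (x := x) hx T hadj (1 - x (.b b) - x (.a a)) rfl (by linarith)
  simpa [pot] using this

theorem dist_pot (hx : ∀ a b, E a b → x (.a a) + x (.b b) ≤ 1)
    (h01 : ∀ w, 0 ≤ x w ∧ x w ≤ 1) (T w : α ⊕ β) :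
    pot x w - pot x T ≤ dist x E T w := by
  have hp : ∀ i : α ⊕ β, 0 ≤ pot x i ∧ pot x i ≤ 1 := by
    rintro (a | b)
    · exact h01 (.a a)
    · have := h01 (.b b)
      exact ⟨by simp only [pot]; linarith, by simp only [pot]; linarith⟩
  refine le_dist T w _ ?_ (fun P => pot_sub_le_cost hx P)
  have h1 := hp w
  have h2 := hp T
  linarith

end Pool.Agent.H43.TP
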