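import Mathlib

/-!
# t-perfect graphs: definitions
-/

set_option autoImplicit false

namespace Pool.Agent.H43.TP

/-- The stable set polytope `P_I(G)`: the convex hull of the incidence vectors of the independent
sets of `G`. -/
def stablePolytope {V : Type} (G : SimpleGraph V) : Set (V → ℝ) :=
  convexHull ℝ {x | ∃ X : Set V, G.IsIndepSet X ∧ x = X.indicator 1}

/-- `C` is the vertex set of an odd cycle of `G` (a cycle subgraph, not required to be induced). -/
def IsOddCycleSet {V : Type} (G : SimpleGraph V) (C : Finset V) : Prop :=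
  ∃ (v : V) (c : G.Walk v v), c.IsCycle ∧ Odd c.length ∧ ∀ w, w ∈ C ↔ w ∈ c.support

/-- The polytope `Q(G)`, given by the bounds, the edge inequalities and the odd cycle
inequalities. -/
def oddCyclePolytope {V : Type} (G : SimpleGraph V) : Set (V → ℝ) :=
  {x | (∀ v, 0 ≤ x v ∧ x v ≤ 1) ∧ (∀ u v, G.Adj u v → x u + x v ≤ 1) ∧
    ∀ C : Finset V, IsOddCycleSet G C → ∑ v ∈ C, x v ≤ ((C.card : ℝ) - 1) / 2}

/-- `G` is t-perfect: `P_I(G) = Q(G)`. -/
def TPerfect {V : Type} (G : SimpleGraph V) : Prop := stablePolytope G = oddCyclePolytope G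

/-! ### The graphs of the construction -/

/-- The vertices: four core vertices, and the two sides of a bipartite graph. -/
inductive Vx (α β : Type) : Type
  | u : Vx α β
  | v : Vx α β
  | p : Vx α β
  | q : Vx α β
  | a : α → Vx α β
  | b : β → Vx α β
  deriving DecidableEq, Fintype

variable {α β : Type}

/-- The edges of the graph `Gr`, each in one direction. -/
inductive Arc (E : α → β → Prop) (s s' : β) (z t : α) : Vx α β → Vx α β → Prop
  | uv : Arc E s s' z t .u .v
  | vp : Arc E s s' z t .v .p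
  | pq : Arc E s s' z t .p .q
  | qu : Arc E s s' z t .q .u
  | us : Arc E s s' z t .u (.b s)
  | us' : Arc E s s' z t .u (.b s')
  | qs' : Arc E s s' z t .q (.b s')
  | vz : Arc E s s' z t .v (.a z)
  | vt : Arc E s s' z t .v (.a t)
  | pz : Arc E s s' z t .p (.a z)
  | ab {x : α} {y : β} (h : E x y) : Arc E s s' z t (.a x) (.b y)

/-- The graph made of a bipartite graph `E` with terminals `s`, `s'` on one side and `z`, `t` on the
other side, and of a four-cycle `u v p q`, with the edges `us`, `us'`, `qs'`, `vz`, `vt`, `pz`. -/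
def Gr (E : α → β → Prop) (s s' : β) (z t : α) : SimpleGraph (Vx α β) :=
  SimpleGraph.fromRel (Arc E s s' z t)

/-- Steps in the bipartite graph, with vertices of the `β`-side in `X` and of the `α`-side in `Y`. -/
def Step (E : α → β → Prop) (X : Set β) (Y : Set α) : α ⊕ β → α ⊕ β → Prop
  | .inl a, .inr b => E a b ∧ b ∈ X
  | .inr b, .inl a => E a b ∧ a ∈ Y
  | _, _ => False

/-- A bad pair: a walk from `s` to `z` with all its `β`-vertices in `X` and a walk from `s'` to `t`
with all its `α`-vertices in `Y`, where there are no edges between `X` and `Y`. -/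
def BadPair (E : α → β → Prop) (s s' : β) (z t : α) : Prop :=
  ∃ (X : Set β) (Y : Set α), s ∈ X ∧ (∀ a ∈ Y, ∀ b ∈ X, ¬ E a b) ∧
    Relation.ReflTransGen (Step E X Set.univ) (.inr s) (.inl z) ∧
    Relation.ReflTransGen (Step E Set.univ Y) (.inr s') (.inl t)

/-! ### Costs -/

/-- The bipartite graph. -/
def Rg (E : α → β → Prop) : SimpleGraph (α ⊕ β) where
  Adj i j := match i, j with
    | .inl a, .inr b => E a b
    | .inr b, .inl a => E a b
    | _, _ => False
  symm := ⟨fun i j h => by cases i <;> cases j <;> exact h⟩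
  loopless := ⟨fun i h => by cases i <;> exact h⟩

/-- The embedding of the bipartite part. -/
def emb : α ⊕ β → Vx α β
  | .inl a => .a a
  | .inr b => .b b

/-- The potential. -/
def pot (x : Vx α β → ℝ) : α ⊕ β → ℝ
  | .inl a => x (.a a)
  | .inr b => 1 - x (.b b)

/-- The cost of a step: steps from the `β`-side to the `α`-side cost the drop of the potential, the
other steps are free. -/
def stepCost (x : Vx α β → ℝ) : α ⊕ β → α ⊕ β → ℝ
  | .inr b, .inl a => 1 - x (.b b) - x (.a a)
  | _, _ => 0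

/-- The cost of a walk. -/
def cost (x : Vx α β → ℝ) {E : α → β → Prop} : {i j : α ⊕ β} → (Rg E).Walk i j → ℝ
  | _, _, .nil => 0
  | i, _, .cons (v := k) _ w => stepCost x i k + cost x w

/-- The distance from `w` to `T`, cut off at `1`. -/
noncomputable def dist (x : Vx α β → ℝ) (E : α → β → Prop) (T w : α ⊕ β) : ℝ :=
  sInf ({1} ∪ {r | ∃ P : (Rg E).Walk w T, r = cost x P})

/-- The data from which a point is decomposed into stable sets. -/
structure Fill (E : α → β → Prop) (s s' : β) (z t : α) (x : Vx α β → ℝ) (μ ν : ℝ)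
    (f : α ⊕ β → ℝ) : Prop where
  box : ∀ w, 0 ≤ x w ∧ x w ≤ 1
  uv : x .u + x .v ≤ 1
  vp : x .v + x .p ≤ 1
  pq : x .p + x .q ≤ 1
  qu : x .q + x .u ≤ 1
  tri1 : x .u + x .q ≤ pot x (.inr s')
  tri2 : pot x (.inl z) ≤ 1 - x .v - x .p
  μ0 : 0 ≤ μ
  ν0 : 0 ≤ ν
  μu : μ ≤ x .u
  μp : μ ≤ x .p
  νv : ν ≤ x .v
  νq : ν ≤ x .q
  sum : x .u + x .v + x .p + x .q - 1 ≤ μ + ν
  mono : ∀ a b, E a b → f (.inl a) ≤ f (.inr b)
  lip : ∀ a b, E a b → f (.inr b) - f (.inl a) ≤ pot x (.inr b) - pot x (.inl a)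
  f0 : ∀ w, 0 ≤ f w
  f1 : ∀ w, f w ≤ μ + ν
  m0 : ∀ w, f w ≤ pot x w
  m1 : ∀ w, pot x w - f w ≤ 1 - μ - ν
  s0 : μ ≤ f (.inr s)
  s1 : f (.inr s) ≤ pot x (.inr s) - x .u + μ
  s'0 : f (.inr s') = μ + ν
  z0 : f (.inl z) = 0
  t0 : f (.inl t) ≤ μ
  t1 : pot x (.inl t) + μ + x .v - 1 ≤ f (.inl t)

end Pool.Agent.H43.TP
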