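import Pool.Agent.H43.TP.Lang

/-!
# Adjacency matrices from lists

Let `l` be a list without repetitions, `A` a symmetric irreflexive Boolean relation, and `G` a graph
on `V` with a bijection `e : V ≃ {x // x ∈ l}` such that `G.Adj v w ↔ A (e v) (e w)`. Then the matrix of `A` along `l`
is the adjacency word of a graph on `Fin l.length` isomorphic to `G`.
PROOF. `H : SimpleGraph (Fin l.length)` with `H.Adj i j ↔ A l[i] l[j] = true`; the bijection
`List.Nodup.getEquiv : Fin l.length ≃ {x // x ∈ l}` gives `G ≃g H`. The word: `l = (List.finRange l.length).map (l[·])`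
(`List.map_getElem_finRange`/`List.ofFn_getElem`...), then `List.flatMap_map`, `List.map_map`.
-/

set_option autoImplicit false

namespace Pool.Agent.H43.TP

theorem exists_adjWord {ι V : Type} [DecidableEq ι] (l : List ι) (hl : l.Nodup)
    (A : ι → ι → Bool)
    (hsymm : ∀ x ∈ l, ∀ y ∈ l, A x y = true → A y x = true) (hirr : ∀ x ∈ l, A x x = false)
    (G : SimpleGraph V) (e : V ≃ {x // x ∈ l})
    (he : ∀ v w, G.Adj v w ↔ A (e v).1 (e w).1 = true) :
    ∃ H : SimpleGraph (Fin l.length), Nonempty (G ≃g H) ∧
      l.flatMap (fun x => l.map (fun y => A x y)) = adjWord H := by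
  classical
  have hmem : ∀ i : Fin l.length, l[i] ∈ l := fun i => List.getElem_mem i.2
  obtain ⟨H, hHA⟩ : ∃ H : SimpleGraph (Fin l.length),
      ∀ i j, H.Adj i j ↔ A l[i] l[j] = true := by
    refine ⟨{ Adj := fun i j => A l[i] l[j] = true
              symm := ⟨fun i j h => hsymm _ (hmem i) _ (hmem j) h⟩
              loopless := ⟨?_⟩ }, fun i j => Iff.rfl⟩
    intro i h
    have h1 := hirr _ (hmem i)
    have h2 : A l[i] l[i] = true := h
    rw [h1] at h2
    exact Bool.noConfusion h2
  refine ⟨H, ⟨⟨e.trans (List.Nodup.getEquiv l hl).symm, ?_⟩⟩, ?_⟩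
  · intro v w
    rw [hHA]
    show A l[(List.Nodup.getEquiv l hl).symm (e v)] l[(List.Nodup.getEquiv l hl).symm (e w)] = true
      ↔ G.Adj v w
    have key : ∀ x : {x // x ∈ l}, l[(List.Nodup.getEquiv l hl).symm x] = x.1 := by
      intro x
      simp
    rw [key, key, he]
  · have hl' : l = (List.finRange l.length).map (fun i => l[i]) := by
      apply List.ext_getElem
      · simp
      · intro n h1 h2
        simp
    have h1 : ∀ f : ι → List Bool, l.flatMap f
        = (List.finRange l.length).flatMap (fun i => f l[i]) := by
      intro f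
      conv_lhs => rw [hl']
      rw [List.flatMap_map]
    have h2 : ∀ f : ι → Bool, l.map f = (List.finRange l.length).map (fun i => f l[i]) := by
      intro f
      conv_lhs => rw [hl']
      rw [List.map_map]
      rfl
    have hd : ∀ i j : Fin l.length,
        A l[i] l[j] = @decide (H.Adj i j) (Classical.propDecidable _) := by
      intro i j
      have hH := hHA i j
      by_cases h : A l[i] l[j] = true
      · rw [h]; symm; exact decide_eq_true (hH.2 h)
      · rw [Bool.eq_false_iff.2 h]; symm; exact decide_eq_false (fun h' => h (hH.1 h'))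
    rw [h1]
    unfold adjWord
    refine congrArg (fun f => List.flatMap f (List.finRange l.length)) (funext fun i => ?_)
    rw [h2]
    exact congrArg (fun f => List.map f (List.finRange l.length)) (funext fun j => hd i j)

end Pool.Agent.H43.TP
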