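import Pool.Agent.H43.TP.CodD

/-!
# Codes: bijection and adjacency

`toCode N m : Vx (AT N) (BT N m) → Code` is `code` of the underlying vertex. It is injective and its range is
the set of the elements of `nodes N m` (case analysis on the tags; `simp [nodes]`). `nodes N m` has no
repetitions (tags and coordinates). The relation `arcB` on codes of vertices is the relation `Arc`
(case analysis on the two vertices, `simp [arcB, arcC, arcL, arcW, tg, code]`; 13 x 13 cases, all by `simp`); so `adjB` is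
adjacency in `Gr`. (Loops: `Arc x x` never holds.)
-/

set_option autoImplicit false

namespace Pool.Agent.H43.TP

open Pool.Agent.H83

/-- The underlying vertex. -/
def forget {N m : ℕ} : Vx (AT N) (BT N m) → Vx AN BN
  | .u => .u
  | .v => .v
  | .p => .p
  | .q => .q
  | .a x => .a x.1
  | .b y => .b y.1

private theorem env_map (k A : ℕ) :
    ((List.range A).map (fun o => ((k, o, 0) : Code))).Nodup := by
  refine List.Nodup.map ?_ List.nodup_range
  intro a b h
  simpa using h

private theorem env_flat (k A B : ℕ) :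
    ((List.range A).flatMap (fun o => (List.range B).map (fun i => ((k, o, i) : Code)))).Nodup := by
  rw [List.nodup_flatMap]
  refine ⟨fun o _ => ?_, ?_⟩
  · refine List.Nodup.map ?_ List.nodup_range
    intro a b h
    simpa using h
  · refine (List.nodup_range (n := A)).imp ?_
    intro a b hab x hx hx'
    rw [List.mem_map] at hx hx'
    obtain ⟨i, _, rfl⟩ := hx
    obtain ⟨i', _, h⟩ := hx'
    simp only [Prod.mk.injEq, true_and] at h
    exact hab h.1.symm

theorem nodes_nodup (N m : ℕ) : (nodes N m).Nodup := by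
  unfold nodes
  rw [List.nodup_append]
  refine ⟨by simp, ?_, ?_⟩
  · rw [List.nodup_append]
    refine ⟨env_flat 4 N (N + 1), ?_, ?_⟩
    · rw [List.nodup_append]
      refine ⟨env_map 5 N, ?_, ?_⟩
      · rw [List.nodup_append]
        refine ⟨env_flat 6 N N, ?_, ?_⟩
        · rw [List.nodup_append]
          refine ⟨env_flat 7 N N, ?_, ?_⟩
          · rw [List.nodup_append]
            refine ⟨env_map 9 (N + 1), ?_, ?_⟩
            · rw [List.nodup_append]
              refine ⟨env_flat 10 N N, ?_, ?_⟩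
              · rw [List.nodup_append]
                refine ⟨env_map 11 N, env_map 12 _, ?_⟩
                intro a ha b hb
                simp only [List.mem_map] at ha hb
                obtain ⟨o, _, rfl⟩ := ha
                obtain ⟨o', _, rfl⟩ := hb
                simp
              · intro a ha b hb h
                simp only [List.mem_flatMap, List.mem_map, List.mem_append] at ha hb
                obtain ⟨o, _, i, _, rfl⟩ := ha
                rcases hb with ⟨o', _, rfl⟩ | ⟨o', _, rfl⟩ <;> simp at h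
            · intro a ha b hb h
              simp only [List.mem_flatMap, List.mem_map, List.mem_append] at ha hb
              obtain ⟨o, _, rfl⟩ := ha
              rcases hb with ⟨o', _, i', _, rfl⟩ | ⟨o', _, rfl⟩ | ⟨o', _, rfl⟩ <;> simp at h
          · intro a ha b hb h
            simp only [List.mem_flatMap, List.mem_map, List.mem_append] at ha hb
            obtain ⟨o, _, i, _, rfl⟩ := ha
            rcases hb with ⟨o', _, rfl⟩ | ⟨o', _, i', _, rfl⟩ | ⟨o', _, rfl⟩ | ⟨o', _, rfl⟩ <;> simp at h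
        · intro a ha b hb h
          simp only [List.mem_flatMap, List.mem_map, List.mem_append] at ha hb
          obtain ⟨o, _, i, _, rfl⟩ := ha
          rcases hb with ⟨o', _, i', _, rfl⟩ | ⟨o', _, rfl⟩ | ⟨o', _, i', _, rfl⟩ | ⟨o', _, rfl⟩ |
            ⟨o', _, rfl⟩ <;> simp at h
      · intro a ha b hb h
        simp only [List.mem_flatMap, List.mem_map, List.mem_append] at ha hb
        obtain ⟨o, _, rfl⟩ := ha
        rcases hb with ⟨o', _, i', _, rfl⟩ | ⟨o', _, i', _, rfl⟩ | ⟨o', _, rfl⟩ |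
          ⟨o', _, i', _, rfl⟩ | ⟨o', _, rfl⟩ | ⟨o', _, rfl⟩ <;> simp at h
    · intro a ha b hb h
      simp only [List.mem_flatMap, List.mem_map, List.mem_append] at ha hb
      obtain ⟨o, _, i, _, rfl⟩ := ha
      rcases hb with ⟨o', _, rfl⟩ | ⟨o', _, i', _, rfl⟩ | ⟨o', _, i', _, rfl⟩ | ⟨o', _, rfl⟩ |
        ⟨o', _, i', _, rfl⟩ | ⟨o', _, rfl⟩ | ⟨o', _, rfl⟩ <;> simp at h
  · intro a ha b hb h
    simp only [List.mem_flatMap, List.mem_map, List.mem_append, List.mem_cons, List.not_mem_nil,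
      or_false, List.mem_range] at ha hb
    rcases hb with ⟨o', ho', i', hi', rfl⟩ | ⟨o', _, rfl⟩ | ⟨o', _, i', _, rfl⟩ | ⟨o', _, i', _, rfl⟩ |
      ⟨o', _, rfl⟩ | ⟨o', _, i', _, rfl⟩ | ⟨o', _, rfl⟩ | ⟨o', _, rfl⟩ <;>
    rcases ha with rfl | rfl | rfl | rfl | rfl | rfl <;>
    simp only [Prod.mk.injEq] at h <;> omega

private theorem env_code_inj {N m : ℕ} (w w' : Vx (AT N) (BT N m))
    (h : code (forget w) = code (forget w')) : w = w' := by
  rcases w with _ | _ | _ | _ | ⟨x | x | x | x | x, hx⟩ | ⟨y | y | y | y, hy⟩ <;>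
  rcases w' with _ | _ | _ | _ | ⟨x' | x' | x' | x' | x', hx'⟩ | ⟨y' | y' | y' | y', hy'⟩ <;>
  simp_all [forget, code]

private theorem env_mem {N m : ℕ} (w : Vx (AT N) (BT N m)) : code (forget w) ∈ nodes N m := by
  rcases w with _ | _ | _ | _ | ⟨x | x | x | x | x, hx⟩ | ⟨y | y | y | y, hy⟩ <;>
  (try simp only [AN.ok] at hx) <;> (try simp only [BN.ok] at hy) <;>
  simp [forget, code, nodes] <;> omega

private theorem env_surj {N m : ℕ} (x : Code) (hx : x ∈ nodes N m) :
    ∃ w : Vx (AT N) (BT N m), code (forget w) = x := by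
  simp only [nodes, List.mem_flatMap, List.mem_map, List.mem_append, List.mem_cons,
    List.not_mem_nil, or_false, List.mem_range] at hx
  rcases hx with (rfl | rfl | rfl | rfl | rfl | rfl) | ⟨o', h1, i', h2, rfl⟩ | ⟨o', h1, rfl⟩ |
    ⟨o', h1, i', h2, rfl⟩ | ⟨o', h1, i', h2, rfl⟩ | ⟨o', h1, rfl⟩ | ⟨o', h1, i', h2, rfl⟩ |
    ⟨o', h1, rfl⟩ | ⟨o', h1, rfl⟩
  · exact ⟨.u, rfl⟩
  · exact ⟨.v, rfl⟩
  · exact ⟨.p, rfl⟩
  · exact ⟨.q, rfl⟩
  · exact ⟨.a ⟨.t, trivial⟩, rfl⟩
  · exact ⟨.a ⟨.al N 0, Or.inr ⟨rfl, rfl⟩⟩, rfl⟩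
  · exact ⟨.a ⟨.al o' i', Or.inl ⟨h1, Nat.lt_succ_iff.1 h2⟩⟩, rfl⟩
  · exact ⟨.a ⟨.g o', h1⟩, rfl⟩
  · exact ⟨.a ⟨.l o' i', ⟨h1, h2⟩⟩, rfl⟩
  · exact ⟨.a ⟨.r o' i', ⟨h1, h2⟩⟩, rfl⟩
  · exact ⟨.b ⟨.K o', Nat.lt_succ_iff.1 h1⟩, rfl⟩
  · exact ⟨.b ⟨.b o' i', ⟨h1, h2⟩⟩, rfl⟩
  · exact ⟨.b ⟨.c o', h1⟩, rfl⟩
  · exact ⟨.b ⟨.G o', Nat.lt_succ_iff.1 h1⟩, rfl⟩

theorem exists_codeEquiv (N m : ℕ) : ∃ e : Vx (AT N) (BT N m) ≃ {x // x ∈ nodes N m},
    ∀ w, (e w).1 = code (forget w) := by
  refine ⟨Equiv.ofBijective (fun w => ⟨code (forget w), env_mem w⟩) ⟨?_, ?_⟩, fun w => rfl⟩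
  · intro w w' h
    exact env_code_inj w w' (congrArg Subtype.val h)
  · rintro ⟨x, hx⟩
    obtain ⟨w, hw⟩ := env_surj x hx
    exact ⟨w, Subtype.ext hw⟩

/-- the relation `Arc` by cases -/
private def env_ArcM {α β : Type} (E : α → β → Prop) (s s' : β) (z t : α) :
    Vx α β → Vx α β → Prop
  | .u, .v => True
  | .v, .p => True
  | .p, .q => True
  | .q, .u => True
  | .u, .b y => y = s ∨ y = s'
  | .q, .b y => y = s'
  | .v, .a x => x = z ∨ x = t
  | .p, .a x => x = z
  | .a x, .b y => E x y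
  | _, _ => False

private theorem env_arc {α β : Type} (E : α → β → Prop) (s s' : β) (z t : α) (i j : Vx α β) :
    Arc E s s' z t i j ↔ env_ArcM E s s' z t i j := by
  constructor
  · intro h
    cases h <;> simp_all [env_ArcM]
  · intro h
    cases i <;> cases j <;> simp only [env_ArcM] at h
    · exact .uv
    · rcases h with rfl | rfl
      · exact .us
      · exact .us'
    · exact .vp
    · rcases h with rfl | rfl
      · exact .vz
      · exact .vt
    · exact .pq
    · subst h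
      exact .pz
    · exact .qu
    · subst h
      exact .qs'
    · exact .ab h

theorem arcB_iff (vs : List (ℕ × CSPRed.PA)) (N m : ℕ) (i j : Vx (AT N) (BT N m)) :
    arcB vs N m (code (forget i)) (code (forget j)) = true ↔
      Arc (RT N m (cGrp vs) (cConf vs)) (tmS N m) (tmS' N m) (tmZ N) (tmT N) i j := by
  rw [env_arc]
  simp only [arcB, arcC, arcL, arcW, tg, Bool.or_eq_true, Bool.and_eq_true, decide_eq_true_eq]
  rcases i with _ | _ | _ | _ | ⟨x | x | x | x | x, hx⟩ | ⟨y | y | y | y, hy⟩ <;>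
  rcases j with _ | _ | _ | _ | ⟨x' | x' | x' | x' | x', hx'⟩ | ⟨y' | y' | y' | y', hy'⟩ <;>
  simp [code, forget, env_ArcM, RT, RE, tmS, tmS', tmZ, tmT, Subtype.ext_iff]

end Pool.Agent.H43.TP
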