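import Pool.Agent.H43.TP.CYC
import Pool.Agent.H43.TP.DST

/-!
# The filling function exists

Write `π = pot x`, `α = x u`, `β = x v`, `γ = x p`, `δ = x q`, `ρ = α + β + γ + δ - 1`,
`D₁ = dist (inl z) (inr s)`, `D₃ = dist (inl t) (inr s')`; hypothesis `hD : ρ ≤ D₁ + D₃`.
By `le_dist` and `cyc_P`: `α + β + γ - 1 ≤ D₁`, `α + γ + δ - 1 ≤ D₁`; by `cyc_Q`: `α + β + δ - 1 ≤ D₃`,
`β + γ + δ - 1 ≤ D₃` (these numbers are `≤ 1` because of the edges of the 4-cycle). Edge inequalities of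
the 4-cycle: `α + β ≤ 1`, `β + γ ≤ 1`, `γ + δ ≤ 1`, `δ + α ≤ 1`; edges `us`: `α ≤ π s`; `vt`: `π t ≤ 1 - β`;
`tri1 : α + δ ≤ π s'`, `tri2 : π z ≤ 1 - β - γ`.
CHOICE of `μ, ν`. If `ρ ≤ 0`: `μ = ν = 0`. If `ρ > 0`: `μ = min ρ (min (min α γ) D₁)`, `ν = ρ - μ`. Then
`0 ≤ μ ≤ α, γ, D₁`, `μ + ν = ρ`, `0 ≤ ν`, and `ν ≤ β`, `ν ≤ δ`, `ν ≤ D₃`: `μ` is one of `ρ, α, γ, D₁`, and
`ρ - α ≤ β` since `γ + δ ≤ 1`, `ρ - α ≤ δ` since `β + γ ≤ 1`, `ρ - α ≤ D₃` (cyc_Q, second), `ρ - γ ≤ β` (`α + δ ≤ 1`),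
`ρ - γ ≤ δ` (`α + β ≤ 1`), `ρ - γ ≤ D₃` (cyc_Q, first), `ρ - D₁ ≤ β` (cyc_P, second), `ρ - D₁ ≤ δ` (cyc_P, first),
`ρ - D₁ ≤ D₃` (hD). In all cases `μ + ν ≤ max ρ 0`, i.e. (`μ + ν = 0` or `μ + ν = ρ`).
CHOICE of `f`:
  `f w = min (dist (inl z) w) (min (μ + dist (inl t) w) (min (μ + ν) (min (π w) (π s - α + μ + dist (inr s) w))))`.
All the conditions of `Fill` follow from `dist_nonneg, dist_self, dist_ab, dist_ba, dist_pot` by linear arithmetic:
- `mono`, `lip`: each of the five terms is monotone and has increments `≤ π b - π a` (which is `≥ 0`).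
- `f0`: `dist ≥ 0`, `π ≥ 0`, `π s ≥ α`. `f1`, `m0`: clear.
- `m1`: each term is `≥ π w - 1 + μ + ν`: `dist (inl z) w ≥ π w - π z ≥ π w - 1 + β + γ`; `μ + dist (inl t) w ≥ μ + π w - π t`
  and `π t ≤ 1 - β ≤ 1 - ν`; `μ + ν ≥ π w - 1 + μ + ν`; `π w` (as `μ + ν ≤ α + β ≤ 1`); `π s - α + μ + dist (inr s) w ≥ π w - α + μ` and
  `α + ν ≤ α + β ≤ 1`.
- `s0`: `dist (inl z) (inr s) = D₁ ≥ μ`; `π s ≥ α ≥ μ`; `π s - α + μ ≥ μ`. `s1`: last term, `dist_self`.
- `s'0`: `dist (inl z) (inr s') ≥ π s' - π z ≥ ρ` and `≥ 0`, so `≥ μ + ν`; `μ + D₃ ≥ μ + ν`; `π s' ≥ α + δ ≥ μ + ν`;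
  `π s - α + μ + dist (inr s) (inr s') ≥ π s' - α + μ ≥ δ + μ ≥ μ + ν`.
- `z0`: first term `0` by `dist_self`, and `f0`. `t0`: second term, `dist_self`.
- `t1`: `dist (inl z) (inl t) ≥ π t - π z ≥ π t - 1 + β + γ`, `γ ≥ μ`; `μ + 0 ≥ π t + μ + β - 1`; `μ + ν`; `π t` (`μ + β ≤ γ + β ≤ 1`);
  `π s - α + μ + dist (inr s) (inl t) ≥ π t - α + μ` and `α + β ≤ 1`.
-/

set_option autoImplicit false

namespace Pool.Agent.H43.TP

variable {α β : Type} {E : α → β → Prop} {s s' : β} {z t : α} {x : Vx α β → ℝ}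

private theorem fex_edge (hx : x ∈ oddCyclePolytope (Gr E s s' z t)) {i j : Vx α β}
    (h : Arc E s s' z t i j) (hne : i ≠ j) : x i + x j ≤ 1 :=
  hx.2.1 i j ((SimpleGraph.fromRel_adj _ _ _).2 ⟨hne, Or.inl h⟩)

private theorem fex_choice {a b c d D₁ D₃ : ℝ} (ha : 0 ≤ a) (hb : 0 ≤ b) (hc : 0 ≤ c) (hd : 0 ≤ d)
    (hD₁ : 0 ≤ D₁) (hD₃ : 0 ≤ D₃) (hab : a + b ≤ 1) (hbc : b + c ≤ 1) (hcd : c + d ≤ 1)
    (hda : d + a ≤ 1) (h1 : a + b + c - 1 ≤ D₁) (h2 : a + c + d - 1 ≤ D₁)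
    (h3 : a + b + d - 1 ≤ D₃) (h4 : b + c + d - 1 ≤ D₃) (hD : a + b + c + d - 1 ≤ D₁ + D₃) :
    ∃ μ ν : ℝ, 0 ≤ μ ∧ 0 ≤ ν ∧ μ ≤ a ∧ μ ≤ c ∧ μ ≤ D₁ ∧ ν ≤ b ∧ ν ≤ d ∧ ν ≤ D₃ ∧
      a + b + c + d - 1 ≤ μ + ν ∧ (μ + ν = 0 ∨ μ + ν = a + b + c + d - 1) := by
  by_cases hr : a + b + c + d - 1 ≤ 0
  · exact ⟨0, 0, le_rfl, le_rfl, ha, hc, hD₁, hb, hd, hD₃, by linarith, Or.inl (by ring)⟩
  · push Not at hr
    have hm : ∃ μ : ℝ, 0 ≤ μ ∧ μ ≤ a + b + c + d - 1 ∧ μ ≤ a ∧ μ ≤ c ∧ μ ≤ D₁ ∧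
        (μ = a + b + c + d - 1 ∨ μ = a ∨ μ = c ∨ μ = D₁) := by
      refine ⟨min (a + b + c + d - 1) (min (min a c) D₁), ?_, min_le_left _ _, ?_, ?_, ?_, ?_⟩
      · exact le_min hr.le (le_min (le_min ha hc) hD₁)
      · exact ((min_le_right _ _).trans (min_le_left _ _)).trans (min_le_left _ _)
      · exact ((min_le_right _ _).trans (min_le_left _ _)).trans (min_le_right _ _)
      · exact (min_le_right _ _).trans (min_le_right _ _)
      · rcases min_choice (a + b + c + d - 1) (min (min a c) D₁) with h | h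
        · exact Or.inl h
        · rw [h]
          rcases min_choice (min a c) D₁ with h' | h'
          · rw [h']
            rcases min_choice a c with h'' | h''
            · exact Or.inr (Or.inl h'')
            · exact Or.inr (Or.inr (Or.inl h''))
          · exact Or.inr (Or.inr (Or.inr h'))
    obtain ⟨μ, m0, m1, m2, m3, m4, m5⟩ := hm
    refine ⟨μ, a + b + c + d - 1 - μ, m0, by linarith, m2, m3, m4, ?_, ?_, ?_, by linarith,
      Or.inr (by ring)⟩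
    all_goals rcases m5 with h | h | h | h <;> rw [h] <;> linarith

theorem exists_fill (hx : x ∈ oddCyclePolytope (Gr E s s' z t))
    (hD : x .u + x .v + x .p + x .q - 1 ≤
      dist x E (.inl z) (.inr s) + dist x E (.inl t) (.inr s')) :
    ∃ (μ ν : ℝ) (f : α ⊕ β → ℝ), Fill E s s' z t x μ ν f := by
  have box := hx.1
  have uv : x .u + x .v ≤ 1 := fex_edge hx .uv (by simp)
  have vp : x .v + x .p ≤ 1 := fex_edge hx .vp (by simp)
  have pq : x .p + x .q ≤ 1 := fex_edge hx .pq (by simp)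
  have qu : x .q + x .u ≤ 1 := fex_edge hx .qu (by simp)
  have us : x .u + x (.b s) ≤ 1 := fex_edge hx .us (by simp)
  have vt : x .v + x (.a t) ≤ 1 := fex_edge hx .vt (by simp)
  have hE : ∀ a b, E a b → x (.a a) + x (.b b) ≤ 1 := fun a b h => fex_edge hx (.ab h) (by simp)
  have t1 := tri1 hx
  have t2 := tri2 hx
  have hu := box .u
  have hv := box .v
  have hp := box .p
  have hq := box .q
  have hs : x .u ≤ pot x (.inr s) := by simp only [pot]; linarith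
  have ht : pot x (.inl t) ≤ 1 - x .v := by simp only [pot]; linarith
  have hpot0 : ∀ w, 0 ≤ pot x w := by
    rintro (a | b)
    · exact (box (.a a)).1
    · simp only [pot]; linarith [(box (.b b)).2]
  have hpot1 : ∀ w, pot x w ≤ 1 := by
    rintro (a | b)
    · exact (box (.a a)).2
    · simp only [pot]; linarith [(box (.b b)).1]
  have hpE : ∀ a b, E a b → pot x (.inl a) ≤ pot x (.inr b) := by
    intro a b h
    have := hE a b h
    simp only [pot]; linarith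
  have dnn := dist_nonneg hE
  have dab := fun T a b (h : E a b) => dist_ab hE T h
  have dba := fun T a b (h : E a b) => dist_ba hE T h
  have dpot := dist_pot hE box
  have d1 : x .u + x .v + x .p - 1 ≤ dist x E (.inl z) (.inr s) :=
    le_dist _ _ _ (by linarith) fun P => (cyc_P hx P).1
  have d2 : x .u + x .p + x .q - 1 ≤ dist x E (.inl z) (.inr s) :=
    le_dist _ _ _ (by linarith) fun P => (cyc_P hx P).2
  have d3 : x .u + x .v + x .q - 1 ≤ dist x E (.inl t) (.inr s') :=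
    le_dist _ _ _ (by linarith) fun P => (cyc_Q hx P).1
  have d4 : x .v + x .p + x .q - 1 ≤ dist x E (.inl t) (.inr s') :=
    le_dist _ _ _ (by linarith) fun P => (cyc_Q hx P).2
  obtain ⟨μ, ν, μ0, ν0, μu, μp, μD, νv, νq, νD, sum, hmn⟩ :=
    fex_choice hu.1 hv.1 hp.1 hq.1 (dnn _ _) (dnn _ _) uv vp pq qu d1 d2 d3 d4 hD
  let f : α ⊕ β → ℝ := fun w => min (dist x E (.inl z) w) (min (μ + dist x E (.inl t) w)
    (min (μ + ν) (min (pot x w) (pot x (.inr s) - x .u + μ + dist x E (.inr s) w))))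
  have le_f : ∀ w r, r ≤ dist x E (.inl z) w → r ≤ μ + dist x E (.inl t) w → r ≤ μ + ν →
      r ≤ pot x w → r ≤ pot x (.inr s) - x .u + μ + dist x E (.inr s) w → r ≤ f w :=
    fun w r h1 h2 h3 h4 h5 => le_min h1 (le_min h2 (le_min h3 (le_min h4 h5)))
  have f1 : ∀ w, f w ≤ dist x E (.inl z) w := fun w => min_le_left _ _
  have f2 : ∀ w, f w ≤ μ + dist x E (.inl t) w := fun w => (min_le_right _ _).trans (min_le_left _ _)
  have f3 : ∀ w, f w ≤ μ + ν := fun w =>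
    ((min_le_right _ _).trans (min_le_right _ _)).trans (min_le_left _ _)
  have f4 : ∀ w, f w ≤ pot x w := fun w =>
    (((min_le_right _ _).trans (min_le_right _ _)).trans (min_le_right _ _)).trans (min_le_left _ _)
  have f5 : ∀ w, f w ≤ pot x (.inr s) - x .u + μ + dist x E (.inr s) w := fun w =>
    (((min_le_right _ _).trans (min_le_right _ _)).trans (min_le_right _ _)).trans (min_le_right _ _)
  clear_value f
  have f0 : ∀ w, 0 ≤ f w := fun w =>
    le_f w 0 (dnn _ _) (by linarith [dnn (.inl t) w]) (by linarith) (hpot0 w)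
      (by linarith [dnn (.inr s) w])
  refine ⟨μ, ν, f, ⟨box, uv, vp, pq, qu, t1, t2, μ0, ν0, μu, μp, νv, νq, sum, ?_, ?_, f0, f3, f4, ?_,
    ?_, ?_, ?_, ?_, ?_, ?_⟩⟩
  · -- mono
    intro a b h
    refine le_f _ _ ?_ ?_ (f3 _) ?_ ?_
    · exact (f1 _).trans (dab _ a b h)
    · exact (f2 _).trans (by linarith [dab (.inl t) a b h])
    · exact (f4 _).trans (hpE a b h)
    · exact (f5 _).trans (by linarith [dab (.inr s) a b h])
  · -- lip
    intro a b h
    have hh := hpE a b h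
    have : f (.inr b) - (pot x (.inr b) - pot x (.inl a)) ≤ f (.inl a) := by
      refine le_f _ _ ?_ ?_ ?_ ?_ ?_
      · linarith [f1 (.inr b), dba (.inl z) a b h]
      · linarith [f2 (.inr b), dba (.inl t) a b h]
      · linarith [f3 (.inr b)]
      · linarith [f4 (.inr b)]
      · linarith [f5 (.inr b), dba (.inr s) a b h]
    linarith
  · -- m1
    intro w
    have : pot x w - 1 + μ + ν ≤ f w := by
      refine le_f _ _ ?_ ?_ ?_ ?_ ?_
      · linarith [dpot (.inl z) w]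
      · linarith [dpot (.inl t) w]
      · linarith [hpot1 w]
      · linarith
      · linarith [dpot (.inr s) w]
    linarith
  · -- s0
    refine le_f _ _ μD (by linarith [dnn (.inl t) (.inr s)]) (by linarith) (by linarith)
      (by linarith [dnn (.inr s) (.inr s)])
  · -- s1
    have := f5 (.inr s)
    rw [dist_self hE] at this
    linarith
  · -- s'0
    refine le_antisymm (f3 _) (le_f _ _ ?_ ?_ le_rfl ?_ ?_)
    · have h1 := dpot (.inl z) (.inr s')
      have h2 := dnn (.inl z) (.inr s')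
      rcases hmn with h | h
      · linarith
      · linarith
    · linarith
    · linarith
    · have h1 := dpot (.inr s) (.inr s')
      linarith
  · -- z0
    refine le_antisymm ?_ (f0 _)
    have := f1 (.inl z)
    rwa [dist_self hE] at this
  · -- t0
    have := f2 (.inl t)
    rw [dist_self hE] at this
    linarith
  · -- t1
    refine le_f _ _ ?_ ?_ ?_ ?_ ?_
    · linarith [dpot (.inl z) (.inl t)]
    · linarith [dnn (.inl t) (.inl t)]
    · linarith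
    · linarith
    · linarith [dpot (.inr s) (.inl t)]

end Pool.Agent.H43.TP
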