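import Pool.Agent.H43.TP.Lang

/-!
# A graph is determined by its adjacency word

`adjWord G` has length `n ^ 2`, so `n` is determined; the entry number `i * n + j` of
`adjWord G` is `decide (G.Adj i j)` (e.g. `List.getElem_flatMap...`, or compare the two lists row by row with
`List.append_inj` by induction over a sublist of rows: from
`l.flatMap f = l.flatMap g` and `(f i).length = (g i).length` for all `i` it follows that `f i = g i` for `i ∈ l`).
-/

set_option autoImplicit false

namespace Pool.Agent.H43.TP

theorem inj_flatMap {ι β : Type} (l : List ι) (f g : ι → List β) (hlen : ∀ i ∈ l, (f i).length = (g i).length)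
    (h : l.flatMap f = l.flatMap g) : ∀ i ∈ l, f i = g i := by
  induction l with
  | nil => intro i hi; exact absurd hi (by simp)
  | cons a l ih =>
    rw [List.flatMap_cons, List.flatMap_cons] at h
    obtain ⟨h1, h2⟩ := List.append_inj h (hlen a (by simp))
    intro i hi
    rcases List.mem_cons.1 hi with rfl | hi
    · exact h1
    · exact ih (fun i hi => hlen i (List.mem_cons_of_mem _ hi)) h2 i hi

theorem adjWord_inj {n n' : ℕ} (G : SimpleGraph (Fin n)) (G' : SimpleGraph (Fin n'))
    (h : adjWord G = adjWord G') : ∃ hn : n = n', hn ▸ G = G' := by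
  classical
  have hlen : ∀ (k : ℕ) (H : SimpleGraph (Fin k)), (adjWord H).length = k * k := by
    intro k H
    unfold adjWord
    rw [List.length_flatMap]
    simp
  have hn : n = n' := by
    have h1 : n * n = n' * n' := by rw [← hlen n G, ← hlen n' G', h]
    exact Nat.mul_self_inj.1 h1
  refine ⟨hn, ?_⟩
  subst hn
  change G = G'
  unfold adjWord at h
  have h1 := inj_flatMap (List.finRange n) _ _ (fun i _ => by simp) h
  ext i j
  have h2 := h1 i (List.mem_finRange i)
  have h3 : decide (G.Adj i j) = decide (G'.Adj i j) := by
    have h4 := List.map_inj_left.1 h2 j (List.mem_finRange j)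
    exact h4
  exact decide_eq_decide.1 h3

/-- Membership of a matrix in T-PERF. -/
theorem adjWord_mem_TPERF {n : ℕ} (G : SimpleGraph (Fin n)) : adjWord G ∈ TPERF ↔ TPerfect G := by
  constructor
  · rintro ⟨n', G', h, hG'⟩
    obtain ⟨rfl, rfl⟩ := adjWord_inj _ _ h
    exact hG'
  · intro h
    exact ⟨n, G, rfl, h⟩

end Pool.Agent.H43.TP
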