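import Pool.Agent.H43.TP.Defs

/-!
# t-perfection is invariant under isomorphism

PROOF. Let `e : G ≃g H`. The linear equivalence `L : (V → ℝ) ≃ₗ[ℝ] (W → ℝ)`, `L x = x ∘ e.symm`
(`LinearEquiv.funCongrLeft`) maps the incidence vectors of the independent sets of `G` onto those of
`H`, so it maps `stablePolytope G` onto `stablePolytope H` (`LinearMap.image_convexHull`), and it
maps `oddCyclePolytope G` onto `oddCyclePolytope H`: bounds and edges are clear; `C` is the vertex
set of an odd cycle of `G` iff `C.map e` is one of `H` (`Walk.map`, `Walk.map_isCycle_iff_of_injective`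
or `IsCycle.map`), and the sums and cardinalities agree. It is enough to prove the inclusions for
all isomorphisms, and to use them for `e` and `e.symm`.
-/

set_option autoImplicit false

namespace Pool.Agent.H43.TP

variable {V W : Type}

private theorem ISO_st {G : SimpleGraph V} {H : SimpleGraph W} (e : G ≃g H) {x : W → ℝ}
    (hx : x ∈ stablePolytope H) : (fun v => x (e v)) ∈ stablePolytope G := by
  have hsub : stablePolytope H ⊆
      (LinearMap.funLeft ℝ ℝ (fun v => e v)) ⁻¹' (stablePolytope G) := by
    refine convexHull_min ?_ ((convex_convexHull ℝ _).linear_preimage _)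
    rintro y ⟨X, hX, rfl⟩
    refine subset_convexHull ℝ _ ⟨(fun v => e v) ⁻¹' X, ?_, ?_⟩
    · intro v hv w hw hvw hadj
      exact hX hv hw (fun h => hvw (e.injective h)) (e.map_adj_iff.2 hadj)
    · ext v
      show X.indicator (1 : W → ℝ) (e v) = ((fun v => e v) ⁻¹' X).indicator (1 : V → ℝ) v
      by_cases hv : e v ∈ X
      · rw [Set.indicator_of_mem hv, Set.indicator_of_mem (show v ∈ (fun v => e v) ⁻¹' X from hv)]
        rfl
      · rw [Set.indicator_of_notMem hv,
          Set.indicator_of_notMem (show v ∉ (fun v => e v) ⁻¹' X from hv)]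
  exact hsub hx

private theorem ISO_oc {G : SimpleGraph V} {H : SimpleGraph W} (e : G ≃g H) {x : W → ℝ}
    (hx : x ∈ oddCyclePolytope H) : (fun v => x (e v)) ∈ oddCyclePolytope G := by
  refine ⟨fun v => hx.1 _, fun u v h => hx.2.1 _ _ (e.map_adj_iff.2 h), ?_⟩
  rintro C ⟨v, c, hc, hodd, hC⟩
  have key := hx.2.2 (C.map e.toEquiv.toEmbedding) ⟨e v, c.map e.toHom,
    hc.map e.injective, by rwa [SimpleGraph.Walk.length_map], ?_⟩
  · rw [Finset.sum_map, Finset.card_map] at key
    exact key
  · intro w
    rw [SimpleGraph.Walk.support_map, Finset.mem_map, List.mem_map]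
    constructor
    · rintro ⟨a, ha, rfl⟩
      exact ⟨a, (hC a).1 ha, rfl⟩
    · rintro ⟨a, ha, rfl⟩
      exact ⟨a, (hC a).2 ha, rfl⟩

theorem TPerfect.iso {G : SimpleGraph V} {H : SimpleGraph W} (e : G ≃g H) (h : TPerfect G) :
    TPerfect H := by
  have h' : stablePolytope G = oddCyclePolytope G := h
  show stablePolytope H = oddCyclePolytope H
  ext x
  have hxe : (fun w => (fun v => x (e v)) (e.symm w)) = x := by
    funext w
    simp
  constructor
  · intro hx
    have h1 := ISO_st e hx
    rw [h'] at h1
    have h2 := ISO_oc e.symm h1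
    rwa [hxe] at h2
  · intro hx
    have h1 := ISO_oc e hx
    rw [← h'] at h1
    have h2 := ISO_st e.symm h1
    rwa [hxe] at h2

theorem tperfect_iso_iff {G : SimpleGraph V} {H : SimpleGraph W} (e : G ≃g H) :
    TPerfect G ↔ TPerfect H :=
  ⟨fun h => h.iso e, fun h => h.iso e.symm⟩

end Pool.Agent.H43.TP
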