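import Pool.Agent.H43.TP.CodD
import Pool.Agent.H83.Hard

/-!
# The reduction is computable in polynomial time

Like the proof of `npHard_of_clique` in `Pool/Agent/H83/Hard.lean` (there `Poly` is proved for
`CSPRed.verts`, `CSPRed.compat` and `CSPRed.adj`; the same terms can be copied). `nodes` is built with `Poly.append`,
`Poly.flatMap`, `Poly.map`, `Poly.range`, `Poly.pair`, `Poly.const`; `arcB` with `Poly.and`, `Poly.or`,
`Poly.natEq`, `Poly.fst'`, `Poly.snd'`, `Poly.succ`, `Poly.add`, `Poly.mul`; `CSPRed.nth vs i` with `Poly.headD` and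
`Tableau.drop_poly`. Suggested: a lemma `arcB_poly : Poly vs → Poly N → Poly m → Poly x → Poly y → Poly (fun a => arcB ..)`
for functions `vs N m x y` on an arbitrary type `α` with `Enc α`, then the same for `adjB`, then `wordOf`.
-/

set_option autoImplicit false

namespace Pool.Agent.H43.TP

open Pool.Agent.H83

section PLY

variable {α : Type} [Enc α]

theorem ply_verts : Poly (fun C : CSP => CSPRed.verts C) := by
  unfold CSPRed.verts
  refine Poly.flatMap (Poly.range (Poly.length Poly.id)) (H83.Poly.map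
    (Poly.headD [] (Tableau.drop_poly (Poly.id.comp Poly.fst) Poly.snd)) ?_)
  exact (Poly.snd' Poly.fst).pair Poly.snd

theorem ply_compat {p q : α → CSPRed.PA} (hp : Poly p) (hq : Poly q) :
    Poly (fun a => CSPRed.compat (p a) (q a)) := by
  unfold CSPRed.compat
  refine Poly.all hp (Poly.all (hq.comp Poly.fst) ?_)
  have a1 := Poly.fst' (Poly.fst' (Poly.snd' (Poly.fst (α := α × ((ℕ × ℕ) × ℕ)) (β := (ℕ × ℕ) × ℕ))))
  have a2 := Poly.snd' (Poly.fst' (Poly.snd' (Poly.fst (α := α × ((ℕ × ℕ) × ℕ)) (β := (ℕ × ℕ) × ℕ))))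
  have a3 := Poly.snd' (Poly.snd' (Poly.fst (α := α × ((ℕ × ℕ) × ℕ)) (β := (ℕ × ℕ) × ℕ)))
  have b1 := Poly.fst' (Poly.fst' (Poly.snd (α := α × ((ℕ × ℕ) × ℕ)) (β := (ℕ × ℕ) × ℕ)))
  have b2 := Poly.snd' (Poly.fst' (Poly.snd (α := α × ((ℕ × ℕ) × ℕ)) (β := (ℕ × ℕ) × ℕ)))
  have b3 := Poly.snd' (Poly.snd (α := α × ((ℕ × ℕ) × ℕ)) (β := (ℕ × ℕ) × ℕ))
  exact Poly.or (Poly.not (Poly.and (Poly.natEq a1 b1) (Poly.natEq a2 b2))) (Poly.natEq a3 b3)

theorem ply_adj {u v : α → ℕ × CSPRed.PA} (hu : Poly u) (hv : Poly v) :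
    Poly (fun a => CSPRed.adj (u a) (v a)) := by
  unfold CSPRed.adj
  exact Poly.and (Poly.not (Poly.natEq (Poly.fst' hu) (Poly.fst' hv)))
    (Poly.and (ply_compat (Poly.snd' hu) (Poly.snd' hv))
    (Poly.and (ply_compat (Poly.snd' hu) (Poly.snd' hu)) (ply_compat (Poly.snd' hv) (Poly.snd' hv))))

theorem ply_nth {vs : α → List (ℕ × CSPRed.PA)} {i : α → ℕ} (hvs : Poly vs) (hi : Poly i) :
    Poly (fun a => CSPRed.nth (vs a) (i a)) := by
  unfold CSPRed.nth
  exact Poly.headD _ (Tableau.drop_poly hvs hi)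

theorem ply_cGrp {vs : α → List (ℕ × CSPRed.PA)} {i : α → ℕ} (hvs : Poly vs) (hi : Poly i) :
    Poly (fun a => cGrp (vs a) (i a)) := by
  unfold cGrp
  exact Poly.fst' (ply_nth hvs hi)

theorem ply_cConf {vs : α → List (ℕ × CSPRed.PA)} {i j : α → ℕ} (hvs : Poly vs) (hi : Poly i)
    (hj : Poly j) : Poly (fun a => cConf (vs a) (i a) (j a)) := by
  unfold cConf
  exact Poly.and (Poly.natLt hi hj) (Poly.not (ply_adj (ply_nth hvs hi) (ply_nth hvs hj)))

theorem ply_tg {x y : α → Code} (hx : Poly x) (hy : Poly y) (i j : ℕ) :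
    Poly (fun a => tg (x a) (y a) i j) := by
  unfold tg
  exact Poly.and (Poly.natEq (Poly.fst' hx) (H83.Poly.const i)) (Poly.natEq (Poly.fst' hy) (H83.Poly.const j))

theorem ply_arcC {N : α → ℕ} {x y : α → Code} (hN : Poly N) (hx : Poly x) (hy : Poly y) :
    Poly (fun a => arcC (N a) (x a) (y a)) := by
  have t := fun i j => ply_tg hx hy i j
  have y1 := Poly.fst' (Poly.snd' hy)
  have y2 := Poly.snd' (Poly.snd' hy)
  have c0 : Poly (fun _ : α => (0 : ℕ)) := H83.Poly.const 0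
  unfold arcC
  exact Poly.or (t 0 1) (Poly.or (t 1 2) (Poly.or (t 2 3) (Poly.or (t 3 0)
    (Poly.or (Poly.and (t 0 9) (Poly.natEq y1 c0))
    (Poly.or (Poly.and (t 0 12) (Poly.natEq y1 c0))
    (Poly.or (Poly.and (t 3 12) (Poly.natEq y1 c0))
    (Poly.or (Poly.and (t 1 4) (Poly.and (Poly.natEq y1 hN) (Poly.natEq y2 c0)))
    (Poly.or (t 1 8)
    (Poly.and (t 2 4) (Poly.and (Poly.natEq y1 hN) (Poly.natEq y2 c0)))))))))))

theorem ply_arcL {N : α → ℕ} {x y : α → Code} (hN : Poly N) (hx : Poly x) (hy : Poly y) :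
    Poly (fun a => arcL (N a) (x a) (y a)) := by
  have t := fun i j => ply_tg hx hy i j
  have x1 := Poly.fst' (Poly.snd' hx)
  have x2 := Poly.snd' (Poly.snd' hx)
  have y1 := Poly.fst' (Poly.snd' hy)
  have y2 := Poly.snd' (Poly.snd' hy)
  have c0 : Poly (fun _ : α => (0 : ℕ)) := H83.Poly.const 0
  unfold arcL
  exact Poly.or (Poly.and (t 4 9) (Poly.or (Poly.and (Poly.natEq x2 c0) (Poly.natEq y1 x1))
      (Poly.and (Poly.natEq x2 hN) (Poly.natEq y1 (Poly.succ x1)))))
    (Poly.or (Poly.and (t 4 10) (Poly.and (Poly.natEq y1 x1)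
      (Poly.or (Poly.natEq y2 x2) (Poly.natEq (Poly.succ y2) x2))))
    (Poly.or (Poly.and (t 4 11) (Poly.natEq y1 x1)) (t 4 12)))

theorem ply_arcW {vs : α → List (ℕ × CSPRed.PA)} {N m : α → ℕ} {x y : α → Code} (hvs : Poly vs)
    (hN : Poly N) (hm : Poly m) (hx : Poly x) (hy : Poly y) :
    Poly (fun a => arcW (vs a) (N a) (m a) (x a) (y a)) := by
  have t := fun i j => ply_tg hx hy i j
  have x1 := Poly.fst' (Poly.snd' hx)
  have x2 := Poly.snd' (Poly.snd' hx)
  have y1 := Poly.fst' (Poly.snd' hy)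
  have y2 := Poly.snd' (Poly.snd' hy)
  have g := ply_cGrp hvs x1
  have c := ply_cConf hvs x1 x2
  have s := Poly.add hm (Poly.add (Poly.mul x1 hN) x2)
  have e := Poly.add hm (Poly.mul hN hN)
  unfold arcW
  exact Poly.or (Poly.and (t 5 11) (Poly.natEq y1 x1))
    (Poly.or (Poly.and (t 5 12) (Poly.or (Poly.natEq y1 g) (Poly.natEq y1 (Poly.succ g))))
    (Poly.or (Poly.and (t 6 10) (Poly.and c (Poly.and (Poly.natEq y1 x1) (Poly.natEq y2 x2))))
    (Poly.or (Poly.and (t 7 10) (Poly.and c (Poly.and (Poly.natEq y1 x2) (Poly.natEq y2 x1))))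
    (Poly.or (Poly.and (Poly.or (t 6 12) (t 7 12))
      (Poly.or (Poly.natEq y1 s) (Poly.natEq y1 (Poly.succ s))))
    (Poly.and (t 8 12) (Poly.natEq y1 e))))))

theorem ply_arcB {vs : α → List (ℕ × CSPRed.PA)} {N m : α → ℕ} {x y : α → Code} (hvs : Poly vs)
    (hN : Poly N) (hm : Poly m) (hx : Poly x) (hy : Poly y) :
    Poly (fun a => arcB (vs a) (N a) (m a) (x a) (y a)) := by
  unfold arcB
  exact Poly.or (ply_arcC hN hx hy) (Poly.or (ply_arcL hN hx hy) (ply_arcW hvs hN hm hx hy))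

theorem ply_adjB {vs : α → List (ℕ × CSPRed.PA)} {N m : α → ℕ} {x y : α → Code} (hvs : Poly vs)
    (hN : Poly N) (hm : Poly m) (hx : Poly x) (hy : Poly y) :
    Poly (fun a => adjB (vs a) (N a) (m a) (x a) (y a)) := by
  unfold adjB
  exact Poly.or (ply_arcB hvs hN hm hx hy) (ply_arcB hvs hN hm hy hx)

theorem ply_one {N : α → ℕ} (hN : Poly N) (k : ℕ) :
    Poly (fun a => (List.range (N a)).map (fun o => ((k, o, 0) : Code))) :=
  H83.Poly.map (Poly.range hN) ((H83.Poly.const k).pair (Poly.snd.pair (H83.Poly.const 0)))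

theorem ply_two {N M : α → ℕ} (hN : Poly N) (hM : Poly M) (k : ℕ) :
    Poly (fun a => (List.range (N a)).flatMap (fun o => (List.range (M a)).map
      (fun i => ((k, o, i) : Code)))) :=
  Poly.flatMap (Poly.range hN) (H83.Poly.map (Poly.range (hM.comp Poly.fst))
    ((H83.Poly.const k).pair ((Poly.snd' Poly.fst).pair Poly.snd)))

theorem ply_nodes {N m : α → ℕ} (hN : Poly N) (hm : Poly m) :
    Poly (fun a => nodes (N a) (m a)) := by
  unfold nodes
  have h0 : Poly (fun a => ([(0, 0, 0), (1, 0, 0), (2, 0, 0), (3, 0, 0), (8, 0, 0),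
      (4, N a, 0)] : List Code)) :=
    Poly.cons (H83.Poly.const _) (Poly.cons (H83.Poly.const _) (Poly.cons (H83.Poly.const _)
      (Poly.cons (H83.Poly.const _) (Poly.cons (H83.Poly.const _)
      (Poly.cons ((H83.Poly.const 4).pair (hN.pair (H83.Poly.const 0))) (H83.Poly.const []))))))
  exact Poly.append h0 (Poly.append (ply_two hN (Poly.succ hN) 4)
    (Poly.append (ply_one hN 5) (Poly.append (ply_two hN hN 6) (Poly.append (ply_two hN hN 7)
    (Poly.append (ply_one (Poly.succ hN) 9) (Poly.append (ply_two hN hN 10)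
    (Poly.append (ply_one hN 11) (ply_one (Poly.succ (Poly.add hm (Poly.mul hN hN))) 12))))))))

end PLY

theorem wordOf_poly : Poly wordOf := by
  have hl : Poly (fun C : CSP => (CSPRed.verts C).length) := Poly.length ply_verts
  have hc : Poly (fun C : CSP => C.length) := Poly.length Poly.id
  have hn := ply_nodes hl hc
  have h : Poly (fun C : CSP => (nodes (CSPRed.verts C).length C.length).flatMap (fun x =>
      (nodes (CSPRed.verts C).length C.length).map (fun y =>
      adjB (CSPRed.verts C) (CSPRed.verts C).length C.length x y))) := by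
    refine Poly.flatMap hn (H83.Poly.map (hn.comp Poly.fst) ?_)
    exact ply_adjB ((ply_verts.comp Poly.fst).comp Poly.fst) ((hl.comp Poly.fst).comp Poly.fst)
      ((hc.comp Poly.fst).comp Poly.fst) (Poly.snd' Poly.fst) Poly.snd
  exact h

end Pool.Agent.H43.TP
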