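import Pool.Agent.H43.TP.PRF
import Pool.Agent.H43.TP.ISO
import Pool.Agent.H43.TP.INJ
import Pool.Agent.H43.TP.ENM
import Pool.Agent.H43.TP.ENV
import Pool.Agent.H43.TP.PLY
import Pool.Agent.H43.TP.CBA
import Pool.Agent.H43.TP.CBB

/-!
# T-PERF is coNP-hard
-/

set_option autoImplicit false

namespace Pool.Agent.H43.TP

open Pool.Agent.H83

theorem wordOf_mem_iff (C : CSP) (hC : 2 ≤ C.length) : wordOf C ∈ TPERF ↔ ¬ C.Sat := by
  classical
  set vs := CSPRed.verts C with hvs
  set N := vs.length with hN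
  set m := C.length with hm
  obtain ⟨e, he⟩ := exists_codeEquiv N m
  have hadj : ∀ i j, (Gr (RT N m (cGrp vs) (cConf vs)) (tmS N m) (tmS' N m) (tmZ N)
      (tmT N)).Adj i j ↔ adjB vs N m (e i).1 (e j).1 = true := by
    intro i j
    rw [Gr, SimpleGraph.fromRel_adj, he, he, adjB, Bool.or_eq_true, arcB_iff, arcB_iff]
    constructor
    · exact fun h => h.2
    · intro h
      refine ⟨?_, h⟩
      rintro rfl
      rcases h with h | h <;> cases h
  obtain ⟨H, ⟨g⟩, hH⟩ := exists_adjWord (nodes N m) (nodes_nodup N m) (adjB vs N m)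
    (by
      intro x _ y _ h
      rw [adjB, Bool.or_eq_true] at h ⊢
      exact h.symm)
    (by
      intro x hx
      by_contra hcon
      have h1 := (hadj (e.symm ⟨x, hx⟩) (e.symm ⟨x, hx⟩)).2
        (by simpa using hcon)
      exact (SimpleGraph.irrefl _) h1)
    _ e hadj
  have hword : wordOf C = adjWord H := hH
  have : Finite (Vx (AT N) (BT N m)) := Finite.of_equiv _ e.symm
  have hfin : Finite (AT N) := Finite.of_injective (fun a : AT N => (Vx.a a : Vx (AT N) (BT N m)))
    (fun a b h => by simpa using h)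
  have hfin' : Finite (BT N m) := Finite.of_injective
    (fun a : BT N m => (Vx.b a : Vx (AT N) (BT N m))) (fun a b h => by simpa using h)
  have : Fintype (AT N) := Fintype.ofFinite _
  have : Fintype (BT N m) := Fintype.ofFinite _
  rw [hword, adjWord_mem_TPERF, ← tperfect_iso_iff g, tperfect_iff_not_badPair,
    sat_iff_instSat C hC]
  rw [not_iff_not]
  exact ⟨sat_of_badPair N m _ _ (fun o ho => cGrp_lt C o ho) (fun o o' h => cConf_lt vs o o' h),
    badPair_of_sat N m _ _⟩

theorem npHard_compl : NPHard TPERFᶜ :=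
  npHard_of_csp (g := wordOf) wordOf_poly (fun C hC => by
    rw [Set.mem_compl_iff, wordOf_mem_iff C hC, not_not])

theorem coNPHard : CoNPHard TPERF := by
  intro L hL
  obtain ⟨f, hf, h⟩ := npHard_compl Lᶜ hL
  refine ⟨f, hf, fun x => ?_⟩
  have := h x
  rw [Set.mem_compl_iff, Set.mem_compl_iff, not_iff_not] at this
  exact this

end Pool.Agent.H43.TP
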