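import Pool.Agent.H43.TP.IMQ

/-!
# A bad pair makes the graph t-imperfect

Let `(X, Y)` be a bad pair, `x = val3 E X Y / 3`; `x ∈ Q(G)` by `val3_mem` (the hypotheses
`z ∈ N(X)`, `t ∈ Y`, `s' ∈ N(Y)` follow from the two `ReflTransGen`: look at the last step into
`inl z`, `inl t` and at the first step from `inr s'`; `Relation.ReflTransGen.cases_tail`,
`cases_head`).
Claim `x ∉ P_I(G)`. Let `Φ(y) = (1 - y u - y s) + (1 - y v - y t) + ∑ (1 - y a - y b)`, the sum over all
pairs `(a, b) : α × β` with `E a b` and (`b ∈ X` or `a ∈ Y`). On `x` all terms vanish (`b ∈ X` : `x b = 2/3`,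
`x a = 1/3` as `a ∉ Y`; similarly for `a ∈ Y`). For the incidence vector `y` of an independent set every
term is a natural number `≥ 0`.
INEQUALITY `y u + y v + y p + y q ≤ 1 + Φ(y)` for incidence vectors `y` of independent sets `S`: if
`Φ(y) ≥ 1` it holds since `u, p` or `v, q` are at most two of the core vertices in `S` (each edge of
the 4-cycle). If `Φ(y) = 0`: for `E a b` with `b ∈ X` (or `a ∈ Y`): `a ∈ S ↔ b ∉ S`. By induction along
`ReflTransGen (Step E X univ) (inr s) w`: with `sd (inl a) = (a ∈ S)`, `sd (inr b) = (b ∉ S)`: `sd w ↔ sd (inr s)`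
(each step `inr b → inl a` has `b ∈ X`: keep in the induction that `w = inr b` implies `b ∈ X`).
So `z ∈ S ↔ s ∉ S ↔ u ∈ S`. In the same way `t ∈ S ↔ s' ∉ S` and `t ∉ S ↔ v ∈ S`, so `v ∈ S ↔ s' ∈ S`.
`u ∈ S` implies `z ∈ S`, so `p, v ∉ S`, and `q ∉ S`; `v ∈ S` implies `s' ∈ S`, so `q, u ∉ S`, and `p ∉ S`;
`p ∈ S` implies `q, v ∉ S`, `u ∉ S` (else `z ∈ S` but `pz` is an edge); `q ∈ S` implies `u, p ∉ S`, `v ∉ S`.
So at most one of the four is in `S`.
The inequality is linear, so it holds on the convex hull (`convexHull_min` with the half-space); for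
`x` it says `4/3 ≤ 1`. Contradiction.
-/

set_option autoImplicit false

namespace Pool.Agent.H43.TP

variable {α β : Type} [Fintype α] [Fintype β]

omit [Fintype α] [Fintype β] in
/-- an independent set meets every edge at most once -/
theorem imp_indep {E : α → β → Prop} {s s' : β} {z t : α} {S : Set (Vx α β)}
    (hS : (Gr E s s' z t).IsIndepSet S) {i j : Vx α β} (hij : Arc E s s' z t i j) (hne : i ≠ j)
    (hi : i ∈ S) (hj : j ∈ S) : False := by
  refine hS hi hj hne ?_
  rw [Gr, SimpleGraph.fromRel_adj]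
  exact ⟨hne, Or.inl hij⟩

/-- the side of a vertex: in `S` on the `α`-side, not in `S` on the `β`-side -/
def impSd (S : Set (Vx α β)) : α ⊕ β → Prop
  | .inl a => Vx.a a ∈ S
  | .inr b => Vx.b b ∉ S

omit [Fintype α] [Fintype β] in
theorem imp_walkX {E : α → β → Prop} {X : Set β} {S : Set (Vx α β)}
    (hT : ∀ a b, E a b → b ∈ X → (Vx.a a ∈ S ↔ Vx.b b ∉ S)) {s : β} (hs : s ∈ X) {w : α ⊕ β}
    (hw : Relation.ReflTransGen (Step E X Set.univ) (.inr s) w) :
    (impSd S w ↔ impSd S (.inr s)) ∧ ∀ b, w = .inr b → b ∈ X := by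
  induction hw with
  | refl => exact ⟨Iff.rfl, fun b hb => by cases hb; exact hs⟩
  | tail _ hst ih =>
    rename_i w w' _
    cases w with
    | inl a =>
      cases w' with
      | inl a' => exact absurd hst id
      | inr b =>
        obtain ⟨h1, h2⟩ : E a b ∧ b ∈ X := hst
        refine ⟨?_, fun b' hb => by cases hb; exact h2⟩
        rw [← ih.1]
        exact (hT a b h1 h2).symm
    | inr b =>
      cases w' with
      | inl a =>
        obtain ⟨h1, -⟩ : E a b ∧ a ∈ Set.univ := hst
        refine ⟨?_, fun b' hb => by cases hb⟩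
        rw [← ih.1]
        exact hT a b h1 (ih.2 b rfl)
      | inr b' => exact absurd hst id

omit [Fintype α] [Fintype β] in
theorem imp_walkY {E : α → β → Prop} {Y : Set α} {S : Set (Vx α β)}
    (hT : ∀ a b, E a b → a ∈ Y → (Vx.a a ∈ S ↔ Vx.b b ∉ S)) {s' : β} {w : α ⊕ β}
    (hw : Relation.ReflTransGen (Step E Set.univ Y) (.inr s') w) :
    (impSd S w ↔ impSd S (.inr s')) ∧ ∀ a, w = .inl a → a ∈ Y := by
  induction hw with
  | refl => exact ⟨Iff.rfl, fun b hb => by cases hb⟩
  | tail _ hst ih =>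
    rename_i w w' _
    cases w with
    | inl a =>
      cases w' with
      | inl a' => exact absurd hst id
      | inr b =>
        obtain ⟨h1, -⟩ : E a b ∧ b ∈ Set.univ := hst
        refine ⟨?_, fun b' hb => by cases hb⟩
        rw [← ih.1]
        exact (hT a b h1 (ih.2 a rfl)).symm
    | inr b =>
      cases w' with
      | inl a =>
        obtain ⟨h1, h2⟩ : E a b ∧ a ∈ Y := hst
        refine ⟨?_, fun a' ha => by cases ha; exact h2⟩
        rw [← ih.1]
        exact hT a b h1 h2
      | inr b' => exact absurd hst id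

open Classical in
/-- the edges which are tight -/
noncomputable def impT (E : α → β → Prop) (X : Set β) (Y : Set α) : Finset (α × β) :=
  Finset.univ.filter fun e => E e.1 e.2 ∧ (e.2 ∈ X ∨ e.1 ∈ Y)

/-- the linear form -/
noncomputable def impL (E : α → β → Prop) (s : β) (t : α) (X : Set β) (Y : Set α)
    (y : Vx α β → ℝ) : ℝ :=
  (y .u + y .v + y .p + y .q) + (y .u + y (.b s)) + (y .v + y (.a t)) +
    ∑ e ∈ impT E X Y, (y (.a e.1) + y (.b e.2))

theorem impL_linear (E : α → β → Prop) (s : β) (t : α) (X : Set β) (Y : Set α) :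
    IsLinearMap ℝ (impL E s t X Y) := by
  constructor
  · intro x y
    unfold impL
    simp only [Pi.add_apply, Finset.sum_add_distrib]
    ring
  · intro c x
    unfold impL
    simp only [Pi.smul_apply, smul_eq_mul, mul_add, Finset.sum_add_distrib, Finset.mul_sum]

theorem impL_indep {E : α → β → Prop} {s s' : β} {z t : α} {X : Set β} {Y : Set α}
    (hs : s ∈ X) (hP : Relation.ReflTransGen (Step E X Set.univ) (.inr s) (.inl z))
    (hQ : Relation.ReflTransGen (Step E Set.univ Y) (.inr s') (.inl t)) {S : Set (Vx α β)}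
    (hS : (Gr E s s' z t).IsIndepSet S) :
    impL E s t X Y (S.indicator 1) ≤ 3 + (impT E X Y).card := by
  classical
  have hy : ∀ w, (S.indicator (1 : Vx α β → ℝ)) w = if w ∈ S then 1 else 0 := by
    intro w
    rw [Set.indicator_apply]
    rfl
  have h01 : ∀ w, 0 ≤ (S.indicator (1 : Vx α β → ℝ)) w := by
    intro w
    rw [hy]
    split_ifs <;> norm_num
  have hedge : ∀ i j, Arc E s s' z t i j → i ≠ j →
      (S.indicator (1 : Vx α β → ℝ)) i + (S.indicator (1 : Vx α β → ℝ)) j ≤ 1 := by
    intro i j hij hne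
    rw [hy, hy]
    by_cases h1 : i ∈ S
    · have h2 : j ∉ S := fun h2 => imp_indep hS hij hne h1 h2
      rw [if_pos h1, if_neg h2]
      norm_num
    · rw [if_neg h1]
      split_ifs <;> norm_num
  have huv := hedge .u .v .uv (by simp)
  have hvp := hedge .v .p .vp (by simp)
  have hpq := hedge .p .q .pq (by simp)
  have hqu := hedge .q .u .qu (by simp)
  have hus := hedge .u (.b s) .us (by simp)
  have hvt := hedge .v (.a t) .vt (by simp)
  have hT : ∀ e ∈ impT E X Y, (S.indicator (1 : Vx α β → ℝ)) (.a e.1) +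
      (S.indicator (1 : Vx α β → ℝ)) (.b e.2) ≤ 1 := by
    intro e he
    refine hedge _ _ (.ab ?_) (by simp)
    exact ((Finset.mem_filter.1 he).2).1
  have hsum : ∑ e ∈ impT E X Y, ((S.indicator (1 : Vx α β → ℝ)) (.a e.1) +
      (S.indicator (1 : Vx α β → ℝ)) (.b e.2)) ≤ (impT E X Y).card := by
    have := Finset.sum_le_sum hT
    simpa using this
  unfold impL
  by_cases hall : (Vx.u ∈ S ∨ Vx.b s ∈ S) ∧ (Vx.v ∈ S ∨ Vx.a t ∈ S) ∧
      ∀ e ∈ impT E X Y, (Vx.a e.1 ∈ S ∨ Vx.b e.2 ∈ S)
  · obtain ⟨h1, h2, h3⟩ := hall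
    have hTX : ∀ a b, E a b → b ∈ X → (Vx.a a ∈ S ↔ Vx.b b ∉ S) := by
      intro a b hab hb
      have h4 := h3 (a, b) (Finset.mem_filter.2 ⟨Finset.mem_univ _, hab, Or.inl hb⟩)
      refine ⟨fun h5 h6 => imp_indep hS (.ab hab) (by simp) h5 h6, fun h5 => ?_⟩
      exact h4.resolve_right h5
    have hTY : ∀ a b, E a b → a ∈ Y → (Vx.a a ∈ S ↔ Vx.b b ∉ S) := by
      intro a b hab ha
      have h4 := h3 (a, b) (Finset.mem_filter.2 ⟨Finset.mem_univ _, hab, Or.inr ha⟩)
      refine ⟨fun h5 h6 => imp_indep hS (.ab hab) (by simp) h5 h6, fun h5 => ?_⟩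
      exact h4.resolve_right h5
    have h5 : Vx.a z ∈ S ↔ Vx.b s ∉ S := (imp_walkX hTX hs hP).1
    have h6 : Vx.a t ∈ S ↔ Vx.b s' ∉ S := (imp_walkY hTY hQ).1
    have e1 : ¬ (Vx.u ∈ S ∧ Vx.p ∈ S) := by
      rintro ⟨hu, hp⟩
      have h7 : Vx.b s ∉ S := fun h7 => imp_indep hS .us (by simp) hu h7
      exact imp_indep hS .pz (by simp) hp (h5.2 h7)
    have e2 : ¬ (Vx.v ∈ S ∧ Vx.q ∈ S) := by
      rintro ⟨hv, hq⟩
      have h7 : Vx.a t ∉ S := fun h7 => imp_indep hS .vt (by simp) hv h7
      have h8 : Vx.b s' ∈ S := by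
        by_contra h8
        exact h7 (h6.2 h8)
      exact imp_indep hS .qs' (by simp) hq h8
    have e3 : ¬ (Vx.u ∈ S ∧ Vx.v ∈ S) := fun h => imp_indep hS .uv (by simp) h.1 h.2
    have e4 : ¬ (Vx.v ∈ S ∧ Vx.p ∈ S) := fun h => imp_indep hS .vp (by simp) h.1 h.2
    have e5 : ¬ (Vx.p ∈ S ∧ Vx.q ∈ S) := fun h => imp_indep hS .pq (by simp) h.1 h.2
    have e6 : ¬ (Vx.q ∈ S ∧ Vx.u ∈ S) := fun h => imp_indep hS .qu (by simp) h.1 h.2
    have hcore : (S.indicator (1 : Vx α β → ℝ)) .u + (S.indicator (1 : Vx α β → ℝ)) .v +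
        (S.indicator (1 : Vx α β → ℝ)) .p + (S.indicator (1 : Vx α β → ℝ)) .q ≤ 1 := by
      simp only [hy]
      by_cases hu : Vx.u ∈ S <;> by_cases hv : Vx.v ∈ S <;> by_cases hp : Vx.p ∈ S <;>
        by_cases hq : Vx.q ∈ S <;> simp_all
    linarith
  · have hcore : (S.indicator (1 : Vx α β → ℝ)) .u + (S.indicator (1 : Vx α β → ℝ)) .v +
        (S.indicator (1 : Vx α β → ℝ)) .p + (S.indicator (1 : Vx α β → ℝ)) .q ≤ 2 := by
      linarith
    rw [not_and_or, not_and_or] at hall
    rcases hall with h1 | h1 | h1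
    · rw [not_or] at h1
      have h2 : (S.indicator (1 : Vx α β → ℝ)) .u = 0 := by rw [hy, if_neg h1.1]
      have h3 : (S.indicator (1 : Vx α β → ℝ)) (.b s) = 0 := by rw [hy, if_neg h1.2]
      linarith
    · rw [not_or] at h1
      have h2 : (S.indicator (1 : Vx α β → ℝ)) .v = 0 := by rw [hy, if_neg h1.1]
      have h3 : (S.indicator (1 : Vx α β → ℝ)) (.a t) = 0 := by rw [hy, if_neg h1.2]
      linarith
    · push Not at h1
      obtain ⟨e, he, h2, h3⟩ := h1
      have h4 : (S.indicator (1 : Vx α β → ℝ)) (.a e.1) = 0 := by rw [hy, if_neg h2]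
      have h5 : (S.indicator (1 : Vx α β → ℝ)) (.b e.2) = 0 := by rw [hy, if_neg h3]
      have h6 : ∑ e ∈ impT E X Y, ((S.indicator (1 : Vx α β → ℝ)) (.a e.1) +
          (S.indicator (1 : Vx α β → ℝ)) (.b e.2)) ≤ (impT E X Y).card - 1 := by
        rw [← Finset.add_sum_erase _ _ he, h4, h5]
        have h7 : ∑ e ∈ (impT E X Y).erase e, ((S.indicator (1 : Vx α β → ℝ)) (.a e.1) +
            (S.indicator (1 : Vx α β → ℝ)) (.b e.2)) ≤ ((impT E X Y).erase e).card := by
          have := Finset.sum_le_sum fun e' (he' : e' ∈ (impT E X Y).erase e) =>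
            hT e' (Finset.mem_of_mem_erase he')
          simpa using this
        have h8 : (((impT E X Y).erase e).card : ℝ) = (impT E X Y).card - 1 := by
          have h9 := Finset.card_erase_add_one he
          have h10 : (((impT E X Y).erase e).card : ℝ) + 1 = (impT E X Y).card := by
            exact_mod_cast h9
          linarith
        linarith
      linarith

theorem impL_val3 (E : α → β → Prop) (s : β) (t : α) (X : Set β) (Y : Set α)
    (hXY : ∀ a ∈ Y, ∀ b ∈ X, ¬ E a b) (hs : s ∈ X) (ht : t ∈ Y) :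
    impL E s t X Y (fun w => (val3 E X Y w : ℝ) / 3) = 4 / 3 + 2 + (impT E X Y).card := by
  classical
  have h1 : ∑ e ∈ impT E X Y, ((val3 E X Y (.a e.1) : ℝ) / 3 + (val3 E X Y (.b e.2) : ℝ) / 3) =
      (impT E X Y).card := by
    have h2 : ∀ e ∈ impT E X Y,
        ((val3 E X Y (.a e.1) : ℝ) / 3 + (val3 E X Y (.b e.2) : ℝ) / 3) = 1 := by
      intro e he
      obtain ⟨-, hE, h3⟩ := Finset.mem_filter.1 he
      rcases h3 with h3 | h3
      · have h4 : e.1 ∉ Y := fun h4 => hXY _ h4 _ h3 hE
        have h5 : val3 E X Y (.a e.1) = 1 := by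
          simp only [val3]
          rw [if_neg h4, if_pos ⟨e.2, h3, hE⟩]
        have h6 : val3 E X Y (.b e.2) = 2 := by
          simp only [val3]
          rw [if_pos h3]
        rw [h5, h6]
        norm_num
      · have h4 : e.2 ∉ X := fun h4 => hXY _ h3 _ h4 hE
        have h5 : val3 E X Y (.a e.1) = 2 := by
          simp only [val3]
          rw [if_pos h3]
        have h6 : val3 E X Y (.b e.2) = 1 := by
          simp only [val3]
          rw [if_neg h4, if_pos ⟨e.1, h3, hE⟩]
        rw [h5, h6]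
        norm_num
    rw [Finset.sum_congr rfl h2]
    simp
  have h2 : val3 E X Y (.b s) = 2 := by
    simp only [val3]
    rw [if_pos hs]
  have h3 : val3 E X Y (.a t) = 2 := by
    simp only [val3]
    rw [if_pos ht]
  have h4 : val3 E X Y .u = 1 := rfl
  have h5 : val3 E X Y .v = 1 := rfl
  have h6 : val3 E X Y .p = 1 := rfl
  have h7 : val3 E X Y .q = 1 := rfl
  unfold impL
  rw [h1]
  beta_reduce
  rw [h2, h3, h4, h5, h6, h7]
  norm_num

theorem not_tperfect_of_badPair (E : α → β → Prop) (s s' : β) (z t : α)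
    (h : BadPair E s s' z t) : ¬ TPerfect (Gr E s s' z t) := by
  obtain ⟨X, Y, hs, hXY, hP, hQ⟩ := h
  intro hperf
  have hz : ∃ b ∈ X, E z b := by
    rcases hP.cases_tail with h1 | ⟨w, h1, h2⟩
    · cases h1
    · cases w with
      | inl a => exact absurd h2 id
      | inr b =>
        have h3 : b ∈ X := by
          clear hperf hQ
          have h4 : ∀ w, Relation.ReflTransGen (Step E X Set.univ) (.inr s) w →
              ∀ b, w = .inr b → b ∈ X := by
            intro w hw
            induction hw with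
            | refl => exact fun b hb => by cases hb; exact hs
            | tail _ hst _ =>
              rename_i w w' _ _
              intro b hb
              subst hb
              cases w with
              | inl a =>
                obtain ⟨-, h2⟩ : E a b ∧ b ∈ X := hst
                exact h2
              | inr b' => exact absurd hst id
          exact h4 _ h1 b rfl
        obtain ⟨h4, -⟩ : E z b ∧ z ∈ Set.univ := h2
        exact ⟨b, h3, h4⟩
  have ht : t ∈ Y := by
    rcases hQ.cases_tail with h1 | ⟨w, h1, h2⟩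
    · cases h1
    · cases w with
      | inl a => exact absurd h2 id
      | inr b =>
        obtain ⟨-, h4⟩ : E t b ∧ t ∈ Y := h2
        exact h4
  have hs' : ∃ a ∈ Y, E a s' := by
    rcases hQ.cases_head with h1 | ⟨w, h1, h2⟩
    · cases h1
    · cases w with
      | inl a =>
        obtain ⟨h3, h4⟩ : E a s' ∧ a ∈ Y := h1
        exact ⟨a, h4, h3⟩
      | inr b => exact absurd h1 id
  have hx := val3_mem E s s' z t X Y hXY hs hz ht hs'
  rw [← hperf] at hx
  have hsub : stablePolytope (Gr E s s' z t) ⊆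
      {y | impL E s t X Y y ≤ 3 + (impT E X Y).card} := by
    refine convexHull_min ?_ (convex_halfSpace_le (impL_linear E s t X Y) _)
    rintro y ⟨S, hS, rfl⟩
    exact impL_indep hs hP hQ hS
  have h1 : impL E s t X Y (fun w => (val3 E X Y w : ℝ) / 3) ≤ 3 + (impT E X Y).card := hsub hx
  rw [impL_val3 E s t X Y hXY hs ht] at h1
  linarith

end Pool.Agent.H43.TP
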