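import Pool.Agent.H43.TP.SUB

/-!
# A bad pair makes the graph t-imperfect: the fractional point lies in `Q(G)`

Let `X ⊆ β`, `Y ⊆ α` with no `E`-edge between `Y` and `X`, `s ∈ X`, `z ∈ N(X)` (some `b ∈ X` with
`E z b`), `t ∈ Y`, `s' ∈ N(Y)` (some `a ∈ Y` with `E a s'`).
`val3 X Y : Vx α β → ℕ` is three times the point: `1` on `u v p q`; on `a : α`: `2` if `a ∈ Y`, else
`1` if `a ∈ N(X)`, else `0`; on `b : β`: `2` if `b ∈ X`, else `1` if `b ∈ N(Y)`, else `0`.

CLASSES. `cls : Vx α β → ℕ`: `1` on `u`, on `N(X) ⊆ α`, on `X`; `2` on `v`, on `Y`, on `N(Y) ⊆ β`;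
`3` on `p`; `4` on `q`; `0` on the vertices of value `0`. (Note `Y ∩ N(X) = ∅`, `X ∩ N(Y) = ∅`.)

FACTS for an edge `ij` of the graph: (1) `val3 i + val3 j ≤ 3` (the only pair of values `2, 2` could
be `a ∈ Y`, `b ∈ X`, excluded; core vertices have value `1`). (2) if `cls i ≠ cls j` then
`val3 i + val3 j ≤ 2` (equality `3` needs values `1, 2`: `u`-`b`, `b ∈ X`: same class; `u`-`b` with
`b = s'`: value of `s'` is `1` since `s' ∈ N(Y)`, so `s' ∉ X`; `q s'`: `1 + 1`; `v t`: same class;
`v z`: `z ∈ N(X)`, so `z ∉ Y`, value `1`; `p z`: `1 + 1`; `a b` with `a ∈ Y`: then `b ∈ N(Y)`, same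
class; with `b ∈ X`: then `a ∈ N(X)`, same class).
(3) if `cls i = cls j` then the edge joins different sides of the bipartition `{u, v... }`: define
`side : Vx α β → Bool`, `true` on `u, q, a _` and `false` on `v, p, b _`; the only edges inside a side are
`qu` and `vp`, and these join different classes.

ODD CYCLES. Let `c : G.Walk r r` be an odd cycle with vertex set `C`. For every walk `w` from `i` to
`j`: `2 * (w.support.map val3).sum + D w ≤ 3 * w.length + val3 i + val3 j`, where `D w` is the
number of steps of `w` that change the class (induction, facts (1), (2)). For `c`: the number of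
class changes is not `1` (a closed walk with exactly one change would end in another class:
prove by induction: if `D w = 0` then `cls i = cls j` and the length is even iff `side i = side j`
[fact (3)]; if `D w = 1` then `cls i ≠ cls j`). `D c = 0` is impossible since `c` has odd length.
So `D c ≥ 2` and, with `cycle_support_tail`, `2 * ∑_{C} val3 + 2 ≤ 3 * C.card`; as `C.card` is odd,
`3 * C.card - 2 * ∑` is odd, so it is `≥ 3`: `2 * ∑_C val3 ≤ 3 * (C.card - 1)`. Divide by `6`.
-/

set_option autoImplicit false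

namespace Pool.Agent.H43.TP

variable {α β : Type}

open Classical in
/-- Three times the fractional point of a bad pair. -/
noncomputable def val3 (E : α → β → Prop) (X : Set β) (Y : Set α) : Vx α β → ℕ
  | .a a => if a ∈ Y then 2 else if ∃ b ∈ X, E a b then 1 else 0
  | .b b => if b ∈ X then 2 else if ∃ a ∈ Y, E a b then 1 else 0
  | _ => 1

open Classical in
/-- the classes -/
private noncomputable def imq_cls (E : α → β → Prop) (X : Set β) (Y : Set α) : Vx α β → ℕ
  | .u => 1
  | .v => 2
  | .p => 3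
  | .q => 4
  | .a a => if a ∈ Y then 2 else if ∃ b ∈ X, E a b then 1 else 0
  | .b b => if b ∈ X then 1 else if ∃ a ∈ Y, E a b then 2 else 0

/-- the bipartition inside the classes -/
private def imq_side : Vx α β → Bool
  | .u => true
  | .v => false
  | .p => false
  | .q => true
  | .a _ => true
  | .b _ => false

private theorem imq_arc (E : α → β → Prop) (s s' : β) (z t : α) (X : Set β) (Y : Set α)
    (hXY : ∀ a ∈ Y, ∀ b ∈ X, ¬ E a b) (hs : s ∈ X) (hz : ∃ b ∈ X, E z b) (ht : t ∈ Y)
    (hs' : ∃ a ∈ Y, E a s') (i j : Vx α β) (h : Arc E s s' z t i j) :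
    val3 E X Y i + val3 E X Y j ≤ 3 ∧
    (imq_cls E X Y i ≠ imq_cls E X Y j → val3 E X Y i + val3 E X Y j ≤ 2) ∧
    (imq_cls E X Y i = imq_cls E X Y j → (imq_side i) ≠ (imq_side j)) := by
  have hzY : z ∉ Y := by
    obtain ⟨b, hb, hzb⟩ := hz
    exact fun h => hXY z h b hb hzb
  have hs'X : s' ∉ X := by
    obtain ⟨a, ha, has⟩ := hs'
    exact fun h => hXY a ha s' h has
  cases h with
  | uv => simp [val3, imq_cls, imq_side]
  | vp => simp [val3, imq_cls, imq_side]
  | pq => simp [val3, imq_cls, imq_side]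
  | qu => simp [val3, imq_cls, imq_side]
  | us => simp [val3, imq_cls, imq_side, hs]
  | us' => simp only [val3, imq_cls, imq_side, if_neg hs'X, if_pos hs']; simp
  | qs' => simp only [val3, imq_cls, imq_side, if_neg hs'X, if_pos hs']; simp
  | vz => simp only [val3, imq_cls, imq_side, if_neg hzY, if_pos hz]; simp
  | vt => simp only [val3, imq_cls, imq_side, if_pos ht]; simp
  | pz => simp only [val3, imq_cls, imq_side, if_neg hzY, if_pos hz]; simp
  | @ab x y hxy =>
    by_cases hx : x ∈ Y
    · have hy : y ∉ X := fun h => hXY x hx y h hxy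
      have hy' : ∃ a ∈ Y, E a y := ⟨x, hx, hxy⟩
      simp only [val3, imq_cls, imq_side, if_pos hx, if_neg hy, if_pos hy']; simp
    · by_cases hy : y ∈ X
      · have hx' : ∃ b ∈ X, E x b := ⟨y, hy, hxy⟩
        simp only [val3, imq_cls, imq_side, if_neg hx, if_pos hy, if_pos hx']; simp
      · simp only [val3, imq_cls, imq_side, if_neg hx, if_neg hy]
        refine ⟨?_, fun _ => ?_, by simp⟩ <;> split_ifs <;> omega

section Walks

variable {V : Type} {G : SimpleGraph V}

/-- number of class changes of a walk -/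
private def imq_chg (cl : V → ℕ) : {i j : V} → G.Walk i j → ℕ
  | _, _, .nil => 0
  | i, _, .cons (v := k) _ w => (if cl i = cl k then 0 else 1) + imq_chg cl w

private theorem imq_sum (cl : V → ℕ) (val : V → ℕ)
    (h1 : ∀ i j, G.Adj i j → val i + val j ≤ 3)
    (h2 : ∀ i j, G.Adj i j → cl i ≠ cl j → val i + val j ≤ 2) {i j : V} (w : G.Walk i j) :
    2 * (w.support.map val).sum + imq_chg cl w ≤ 3 * w.length + val i + val j := by
  induction w with
  | nil =>
    simp only [SimpleGraph.Walk.support_nil, List.map_cons, List.map_nil, List.sum_cons,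
      List.sum_nil, SimpleGraph.Walk.length_nil, imq_chg]
    omega
  | @cons i k j h w ih =>
    simp only [SimpleGraph.Walk.support_cons, List.map_cons, List.sum_cons,
      SimpleGraph.Walk.length_cons, imq_chg]
    have e1 := h1 i k h
    have e2 := h2 i k h
    by_cases hc : cl i = cl k
    · rw [if_pos hc]
      omega
    · rw [if_neg hc]
      have e3 := e2 hc
      omega

private theorem imq_zero (cl : V → ℕ) (sd : V → Bool)
    (h3 : ∀ i j, G.Adj i j → cl i = cl j → sd i ≠ sd j) {i j : V} (w : G.Walk i j)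
    (hw : imq_chg cl w = 0) : cl i = cl j ∧ (sd i = sd j ↔ Even w.length) := by
  induction w with
  | nil => simp
  | @cons i k j h w ih =>
    simp only [imq_chg] at hw
    by_cases hc : cl i = cl k
    · rw [if_pos hc, zero_add] at hw
      obtain ⟨a1, a2⟩ := ih hw
      refine ⟨hc.trans a1, ?_⟩
      have a3 := h3 i k h hc
      rw [SimpleGraph.Walk.length_cons, Nat.even_add_one, ← a2]
      cases hi : sd i <;> cases hk : sd k <;> cases hj : sd j <;> simp_all
    · rw [if_neg hc] at hw
      omega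

private theorem imq_one (cl : V → ℕ) (sd : V → Bool)
    (h3 : ∀ i j, G.Adj i j → cl i = cl j → sd i ≠ sd j) {i j : V} (w : G.Walk i j)
    (hw : imq_chg cl w = 1) : cl i ≠ cl j := by
  induction w with
  | nil => simp [imq_chg] at hw
  | @cons i k j h w ih =>
    simp only [imq_chg] at hw
    by_cases hc : cl i = cl k
    · rw [if_pos hc, zero_add] at hw
      rw [hc]
      exact ih hw
    · rw [if_neg hc] at hw
      have h0 : imq_chg cl w = 0 := by omega
      rw [← (imq_zero cl sd h3 w h0).1]
      exact hc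

end Walks

theorem val3_mem (E : α → β → Prop) (s s' : β) (z t : α) (X : Set β) (Y : Set α)
    (hXY : ∀ a ∈ Y, ∀ b ∈ X, ¬ E a b) (hs : s ∈ X) (hz : ∃ b ∈ X, E z b) (ht : t ∈ Y)
    (hs' : ∃ a ∈ Y, E a s') :
    (fun w => (val3 E X Y w : ℝ) / 3) ∈ oddCyclePolytope (Gr E s s' z t) := by
  classical
  have hadj : ∀ i j : Vx α β, (Gr E s s' z t).Adj i j →
      val3 E X Y i + val3 E X Y j ≤ 3 ∧
      (imq_cls E X Y i ≠ imq_cls E X Y j → val3 E X Y i + val3 E X Y j ≤ 2) ∧
      (imq_cls E X Y i = imq_cls E X Y j → (imq_side i) ≠ (imq_side j)) := by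
    intro i j h
    rw [Gr, SimpleGraph.fromRel_adj] at h
    rcases h.2 with h | h
    · exact imq_arc E s s' z t X Y hXY hs hz ht hs' i j h
    · obtain ⟨a1, a2, a3⟩ := imq_arc E s s' z t X Y hXY hs hz ht hs' j i h
      rw [add_comm (val3 E X Y j)] at a1 a2
      exact ⟨a1, fun h => a2 (Ne.symm h), fun h => (a3 h.symm).symm⟩
  have hle : ∀ w, val3 E X Y w ≤ 2 := by
    intro w
    cases w <;> simp only [val3] <;> (try split_ifs) <;> omega
  refine ⟨fun w => ⟨by positivity, ?_⟩, fun i j h => ?_, fun C hC => ?_⟩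
  · have h1 : (val3 E X Y w : ℝ) ≤ 2 := by exact_mod_cast hle w
    show (val3 E X Y w : ℝ) / 3 ≤ 1
    linarith
  · have h1 : (val3 E X Y i : ℝ) + val3 E X Y j ≤ 3 := by exact_mod_cast (hadj i j h).1
    show (val3 E X Y i : ℝ) / 3 + (val3 E X Y j : ℝ) / 3 ≤ 1
    linarith
  · obtain ⟨r, c, hc, hodd, hCs⟩ := hC
    obtain ⟨hn, hset, -, hcard⟩ := cycle_support_tail _ C r c hc hCs
    have h1 := imq_sum (imq_cls E X Y) (val3 E X Y) (fun i j h => (hadj i j h).1)
      (fun i j h => (hadj i j h).2.1) c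
    have h0 : imq_chg (imq_cls E X Y) c ≠ 0 := by
      intro h
      have h2 := (imq_zero (imq_cls E X Y) imq_side (fun i j h => (hadj i j h).2.2) c h).2
      exact (Nat.not_even_iff_odd.2 hodd) (h2.1 rfl)
    have h00 : imq_chg (imq_cls E X Y) c ≠ 1 := by
      intro h
      exact imq_one (imq_cls E X Y) imq_side (fun i j h => (hadj i j h).2.2) c h rfl
    have hsum : (c.support.map (val3 E X Y)).sum = val3 E X Y r + ∑ w ∈ C, val3 E X Y w := by
      rw [← SimpleGraph.Walk.cons_tail_support, List.map_cons, List.sum_cons, ← hset,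
        List.sum_toFinset _ hn]
    rw [hsum] at h1
    have h2 : 2 * ∑ w ∈ C, val3 E X Y w + 3 ≤ 3 * C.card := by
      rw [hcard]
      obtain ⟨m, hm⟩ := hodd
      omega
    have h3 : 2 * ∑ w ∈ C, (val3 E X Y w : ℝ) + 3 ≤ 3 * (C.card : ℝ) := by exact_mod_cast h2
    show ∑ w ∈ C, (val3 E X Y w : ℝ) / 3 ≤ ((C.card : ℝ) - 1) / 2
    rw [← Finset.sum_div]
    linarith

end Pool.Agent.H43.TP
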