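import Pool.Agent.H43.TP.Defs
import Pool.Agent.H83.NPDefs

/-!
# The decision problem T-PERF as a language
-/

set_option autoImplicit false

namespace Pool.Agent.H43.TP

open Pool.Agent.H83

open Classical in
/-- The adjacency matrix of a graph on `{0, ..., n-1}`, row by row, as a binary word of length
`n ^ 2`. -/
noncomputable def adjWord {n : ℕ} (G : SimpleGraph (Fin n)) : List Bool :=
  (List.finRange n).flatMap (fun i => (List.finRange n).map (fun j => decide (G.Adj i j)))

/-- T-PERF: the set of the adjacency matrices of the t-perfect graphs. -/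
def TPERF : Set (List Bool) :=
  {w | ∃ (n : ℕ) (G : SimpleGraph (Fin n)), w = adjWord G ∧ TPerfect G}

/-- `A` is coNP-hard: every language whose complement is in NP has a polynomial time many-one
reduction to `A`. -/
def CoNPHard (A : Set (List Bool)) : Prop :=
  ∀ L : Set (List Bool), InNP Lᶜ →
    ∃ f : List Bool → List Bool, PolyTimeFun f ∧ ∀ x, x ∈ L ↔ f x ∈ A

end Pool.Agent.H43.TP
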