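import Pool.Agent.H43.TP.FEX
import Pool.Agent.H43.TP.DEC
import Pool.Agent.H43.TP.IMP

/-!
# t-perfection of `Gr E s s' z t` is equivalent to the non-existence of a bad pair
-/

set_option autoImplicit false

namespace Pool.Agent.H43.TP

variable {α β : Type}

theorem step_of_walk {E : α → β → Prop} {X : Set β} {Y : Set α} {i j : α ⊕ β}
    (P : (Rg E).Walk i j) (hX : ∀ b, (.inr b : α ⊕ β) ∈ P.support → b ∈ X)
    (hY : ∀ a, (.inl a : α ⊕ β) ∈ P.support → a ∈ Y) :
    Relation.ReflTransGen (Step E X Y) i j := by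
  induction P with
  | nil => exact .refl
  | @cons i k j h P ih =>
    refine Relation.ReflTransGen.head ?_ (ih (fun b hb => hX b (by simp [hb]))
      (fun a ha => hY a (by simp [ha])))
    rcases i with a | b <;> rcases k with a' | b'
    · exact h
    · exact ⟨h, hX b' (by simp)⟩
    · exact ⟨h, hY a' (by simp)⟩
    · exact h

theorem tperfect_of_not_badPair [Fintype α] [Fintype β] (E : α → β → Prop) (s s' : β) (z t : α)
    (h : ¬ BadPair E s s' z t) : TPerfect (Gr E s s' z t) := by
  classical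
  refine Set.Subset.antisymm (stablePolytope_subset _) fun x hx => ?_
  have h1 : ∀ a b, E a b → x (.a a) + x (.b b) ≤ 1 := by
    intro a b hab
    exact hx.2.1 _ _ (by rw [Gr, SimpleGraph.fromRel_adj]; exact ⟨by simp, Or.inl (.ab hab)⟩)
  have e : ∀ {i j}, Arc E s s' z t i j → i ≠ j → x i + x j ≤ 1 := by
    intro i j hij hne
    exact hx.2.1 _ _ (by rw [Gr, SimpleGraph.fromRel_adj]; exact ⟨hne, Or.inl hij⟩)
  have huv := e .uv (by simp)
  have hpq := e .pq (by simp)
  suffices hD : x .u + x .v + x .p + x .q - 1 ≤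
      dist x E (.inl z) (.inr s) + dist x E (.inl t) (.inr s') by
    obtain ⟨μ, ν, f, hf⟩ := exists_fill hx hD
    exact mem_stablePolytope_of_fill hf
  by_contra hlt
  push Not at hlt
  have n1 := dist_nonneg h1 (.inl z) (.inr s)
  have n2 := dist_nonneg h1 (.inl t) (.inr s')
  set D₁ := dist x E (.inl z) (.inr s) with hD₁
  set D₃ := dist x E (.inl t) (.inr s') with hD₃
  set ρ := x .u + x .v + x .p + x .q - 1 with hρ
  obtain ⟨P, hP⟩ := exists_walk h1 (.inl z) (.inr s) ((ρ + D₁ - D₃) / 2) (by linarith)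
    (by linarith)
  obtain ⟨Q, hQ⟩ := exists_walk h1 (.inl t) (.inr s') ((ρ - D₁ + D₃) / 2) (by linarith)
    (by linarith)
  apply h
  refine ⟨{b | (Sum.inr b : α ⊕ β) ∈ P.support}, {a | (Sum.inl a : α ⊕ β) ∈ Q.support},
    by simp, ?_,
    step_of_walk P (fun b hb => hb) (fun _ _ => trivial),
    step_of_walk Q (fun _ _ => trivial) (fun a ha => ha)⟩
  intro a ha b hb hab
  have c1 := (cost_mem h1 P hb).2
  have c2 := (cost_mem h1 Q ha).1
  have c3 := tri1 hx
  have c4 := tri2 hx
  have c5 := h1 a b hab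
  have c6 : pot x (.inl a) = x (.a a) := rfl
  have c7 : pot x (.inr b) = 1 - x (.b b) := rfl
  linarith

theorem tperfect_iff_not_badPair [Fintype α] [Fintype β] (E : α → β → Prop) (s s' : β)
    (z t : α) : TPerfect (Gr E s s' z t) ↔ ¬ BadPair E s s' z t :=
  ⟨fun h hb => not_tperfect_of_badPair E s s' z t hb h, tperfect_of_not_badPair E s s' z t⟩

end Pool.Agent.H43.TP
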