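import Pool.Agent.H43.TP.Defs

/-!
# `P_I(G) ⊆ Q(G)`, and closedness of `P_I(G)`

PROOF. `Q(G)` is convex (an intersection of half-spaces; use `Convex` directly from the definition:
for `x, y ∈ Q` and `a + b = 1`, `a, b ≥ 0`, all the inequalities are linear), so by
`convexHull_min` it is enough to see that the incidence vector of an independent set `X` lies in
`Q(G)`.  Bounds: clear.  Edges: `u v` adjacent, then not both are in `X`.
Odd cycle `c` with vertex set `C`: for every walk `w : G.Walk i j` one has, by induction on `w`,
  `(w.darts.map (fun d => χ d.fst + χ d.snd)).sum = (w.support.dropLast.map χ).sum +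
   (w.support.tail.map χ).sum`,
or simpler: `2 * (w.support.map χ).sum - χ i - χ j ≤ w.length` (induction: every edge has
`χ i + χ k ≤ 1`). For the closed walk `c : G.Walk v v` this gives
`2 * (c.support.tail.map χ).sum ≤ c.length` (as `c.support = v :: c.support.tail`). For a cycle
`c.support.tail` has no duplicates (`IsCycle.support_nodup`), its vertex set is `C` (`v` is in the tail,
`SimpleGraph.Walk.end_mem_tail_support`...), and its length is `c.length`; so
`C.card = c.length` and `2 * ∑_{C} χ ≤ C.card`. With `χ ∈ {0,1}` the sum is a natural number and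
`C.card` is odd, so `2 * ∑ χ ≤ C.card - 1` (do it for the natural number `(C.filter (· ∈ X)).card`).

The lemma `card_of_isOddCycleSet` (cycle vertex sets: the list `c.support.tail` is nodup, with
underlying finset `C`, and has length `c.length`) is also used by other modules.
-/

set_option autoImplicit false

namespace Pool.Agent.H43.TP

variable {V : Type}

theorem cycle_support_tail [DecidableEq V] (G : SimpleGraph V) (C : Finset V) (v : V)
    (c : G.Walk v v) (hc : c.IsCycle) (hC : ∀ w, w ∈ C ↔ w ∈ c.support) :
    c.support.tail.Nodup ∧ c.support.tail.toFinset = C ∧ c.support.tail.length = c.length ∧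
      C.card = c.length := by
  have h1 : c.support.tail.Nodup := hc.support_nodup
  have h2 : c.support.tail.toFinset = C := by
    ext w
    rw [List.mem_toFinset, hC]
    constructor
    · exact List.mem_of_mem_tail
    · intro hw
      rw [← SimpleGraph.Walk.cons_tail_support c, List.mem_cons] at hw
      rcases hw with rfl | hw
      · exact c.end_mem_tail_support hc.not_nil
      · exact hw
  have h3 : c.support.tail.length = c.length := by
    rw [List.length_tail, SimpleGraph.Walk.length_support, Nat.add_sub_cancel]
  refine ⟨h1, h2, h3, ?_⟩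
  rw [← h2, List.toFinset_card_of_nodup h1, h3]

private theorem SUB_walk (G : SimpleGraph V) (χ : V → ℝ) (hχ : ∀ u v, G.Adj u v → χ u + χ v ≤ 1)
    {i j : V} (w : G.Walk i j) : 2 * (w.support.map χ).sum - χ i - χ j ≤ w.length := by
  induction w with
  | nil => simp; linarith
  | @cons a b c h w ih =>
    rw [SimpleGraph.Walk.support_cons, List.map_cons, List.sum_cons, SimpleGraph.Walk.length_cons]
    push_cast
    have := hχ a b h
    linarith

private theorem SUB_closed (G : SimpleGraph V) (χ : V → ℝ) (hχ : ∀ u v, G.Adj u v → χ u + χ v ≤ 1)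
    {v : V} (c : G.Walk v v) : 2 * (c.support.tail.map χ).sum ≤ c.length := by
  have h := SUB_walk G χ hχ c
  rw [← SimpleGraph.Walk.cons_tail_support c, List.map_cons, List.sum_cons] at h
  linarith

private theorem SUB_convex (G : SimpleGraph V) : Convex ℝ (oddCyclePolytope G) := by
  intro x hx y hy a b ha hb hab
  refine ⟨fun v => ?_, fun u v huv => ?_, fun C hC => ?_⟩
  · have h1 := hx.1 v
    have h2 := hy.1 v
    simp only [Pi.add_apply, Pi.smul_apply, smul_eq_mul]
    constructor
    · have := mul_nonneg ha h1.1
      have := mul_nonneg hb h2.1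
      linarith
    · have := mul_le_mul_of_nonneg_left h1.2 ha
      have := mul_le_mul_of_nonneg_left h2.2 hb
      linarith
  · have h1 := hx.2.1 u v huv
    have h2 := hy.2.1 u v huv
    simp only [Pi.add_apply, Pi.smul_apply, smul_eq_mul]
    have := mul_le_mul_of_nonneg_left h1 ha
    have := mul_le_mul_of_nonneg_left h2 hb
    linarith
  · have h1 := hx.2.2 C hC
    have h2 := hy.2.2 C hC
    simp only [Pi.add_apply, Pi.smul_apply, smul_eq_mul]
    rw [Finset.sum_add_distrib, ← Finset.mul_sum, ← Finset.mul_sum]
    have h3 := mul_le_mul_of_nonneg_left h1 ha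
    have h4 := mul_le_mul_of_nonneg_left h2 hb
    have h5 : a * (((C.card : ℝ) - 1) / 2) + b * (((C.card : ℝ) - 1) / 2)
        = ((C.card : ℝ) - 1) / 2 := by rw [← add_mul, hab, one_mul]
    linarith

open Classical in
theorem stablePolytope_subset (G : SimpleGraph V) : stablePolytope G ⊆ oddCyclePolytope G := by
  refine convexHull_min ?_ (SUB_convex G)
  rintro x ⟨X, hX, rfl⟩
  have hedge : ∀ u v, G.Adj u v → (X.indicator 1 u : ℝ) + X.indicator 1 v ≤ 1 := by
    intro u v huv
    by_cases hu : u ∈ X
    · by_cases hv : v ∈ X
      · exact absurd huv (hX hu hv huv.ne)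
      · rw [Set.indicator_of_mem hu, Set.indicator_of_notMem hv]
        simp
    · rw [Set.indicator_of_notMem hu]
      by_cases hv : v ∈ X
      · rw [Set.indicator_of_mem hv]; simp
      · rw [Set.indicator_of_notMem hv]; simp
  refine ⟨fun v => ?_, hedge, ?_⟩
  · by_cases hv : v ∈ X
    · rw [Set.indicator_of_mem hv]; simp
    · rw [Set.indicator_of_notMem hv]; simp
  · rintro C ⟨v, c, hc, hodd, hC⟩
    obtain ⟨h1, h2, -, h4⟩ := cycle_support_tail G C v c hc hC
    have h5 := SUB_closed G (X.indicator 1) hedge c
    have h6 : (c.support.tail.map (X.indicator (1 : V → ℝ))).sum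
        = ∑ w ∈ C, (X.indicator (1 : V → ℝ)) w := by
      rw [← h2, List.sum_toFinset _ h1]
    have h7 : ∑ w ∈ C, (X.indicator (1 : V → ℝ)) w = ((C.filter (· ∈ X)).card : ℝ) := by
      rw [Finset.card_filter]
      push_cast
      refine Finset.sum_congr rfl fun w _ => ?_
      rw [Set.indicator_apply]
      simp
    rw [h6, h7, ← h4] at h5
    have h8 : 2 * (C.filter (· ∈ X)).card ≤ C.card := by exact_mod_cast h5
    rw [← h4] at hodd
    obtain ⟨k, hk⟩ := hodd
    have h9 : 2 * (C.filter (· ∈ X)).card ≤ C.card - 1 := by omega
    have h10 : (2 : ℝ) * (C.filter (· ∈ X)).card + 1 ≤ C.card := by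
      have : 2 * (C.filter (· ∈ X)).card + 1 ≤ C.card := by omega
      exact_mod_cast this
    rw [h7]
    linarith

theorem isClosed_stablePolytope [Fintype V] (G : SimpleGraph V) : IsClosed (stablePolytope G) := by
  have hfin : {x : V → ℝ | ∃ X : Set V, G.IsIndepSet X ∧ x = X.indicator 1}.Finite := by
    refine (Set.finite_range fun X : Set V => X.indicator (1 : V → ℝ)).subset ?_
    rintro x ⟨X, -, rfl⟩
    exact ⟨X, rfl⟩
  exact hfin.isClosed_convexHull ℝ

end Pool.Agent.H43.TP
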